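import Pool.Agent.Lib.MP_0fb7f5_co.Defs

set_option autoImplicit false

namespace Pool.Agent.Lib.MP_0fb7f5_co

open Finset Equiv

variable {n : ℕ}

/-- comparison of rank matrices -/
def rle (u v : Perm (Fin n)) : Prop := ∀ i j : Fin n, rk v i j ≤ rk u i j

lemma rle_refl (u : Perm (Fin n)) : rle u u := fun _ _ => le_rfl

lemma rle_trans {u v w : Perm (Fin n)} (h1 : rle u v) (h2 : rle v w) : rle u w :=
  fun i j => (h2 i j).trans (h1 i j)

lemma sum_split2 {α : Type*} [Fintype α] [DecidableEq α] (f : α → ℕ) {a b : α} (hab : a ≠ b) :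
    ∑ x, f x = f a + f b + ∑ x ∈ (univ.erase a).erase b, f x := by
  rw [← Finset.add_sum_erase univ f (mem_univ a),
    ← Finset.add_sum_erase (univ.erase a) f (a := b) (by simp [hab.symm]), add_assoc]

lemma rk_eq_sum (w : Perm (Fin n)) (i j : Fin n) :
    rk w i j = ∑ a : Fin n, if a ≤ i ∧ w a ≤ j then 1 else 0 := by
  unfold rk; rw [Finset.card_filter]

lemma rk_swap_gen (w : Perm (Fin n)) {p q : Fin n} (hpq : p ≠ q) (i j : Fin n) :
    rk (w * swap p q) i j + (if p ≤ i ∧ w p ≤ j then 1 else 0) + (if q ≤ i ∧ w q ≤ j then 1 else 0)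
      = rk w i j + (if p ≤ i ∧ w q ≤ j then 1 else 0) + (if q ≤ i ∧ w p ≤ j then 1 else 0) := by
  rw [rk_eq_sum, rk_eq_sum, sum_split2 _ hpq, sum_split2 _ hpq]
  have h : ∑ x ∈ (univ.erase p).erase q, (if x ≤ i ∧ (w * swap p q) x ≤ j then 1 else 0)
      = ∑ x ∈ (univ.erase p).erase q, (if x ≤ i ∧ w x ≤ j then 1 else 0) := by
    refine Finset.sum_congr rfl fun x hx => ?_
    simp only [mem_erase, mem_univ, and_true] at hx
    simp only [Perm.mul_apply, swap_apply_of_ne_of_ne hx.2 hx.1]
  rw [h]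
  simp only [Perm.mul_apply, swap_apply_left, swap_apply_right]
  omega

lemma rk_swap (w : Perm (Fin n)) {a b : Fin n} (hab : a < b) (h : w a < w b) (i j : Fin n) :
    rk w i j = rk (w * swap a b) i j +
      (if a ≤ i ∧ i < b ∧ w a ≤ j ∧ j < w b then 1 else 0) := by
  have := rk_swap_gen w hab.ne i j
  simp only [Fin.le_def, Fin.lt_def] at *
  split_ifs at this ⊢ <;> omega

lemma rle_swap (w : Perm (Fin n)) {a b : Fin n} (hab : a < b) (h : w a < w b) :
    rle w (w * swap a b) := by
  intro i j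
  rw [rk_swap w hab h i j]; omega

/-- points of `w` strictly inside the rectangle spanned by `a` and `b` -/
def inside (w : Perm (Fin n)) (a b : Fin n) : ℕ :=
  ∑ c : Fin n, if a < c ∧ c < b ∧ w a < w c ∧ w c < w b then 1 else 0

lemma len_eq_sum (w : Perm (Fin n)) :
    len w = ∑ p : Fin n, ∑ q : Fin n, if p < q ∧ w q < w p then 1 else 0 := by
  unfold len; rw [Finset.card_filter, Fintype.sum_prod_type]

lemma len_swap (w : Perm (Fin n)) {a b : Fin n} (hab : a < b) (h : w a < w b) :
    len (w * swap a b) = len w + 1 + 2 * inside w a b := by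
  have hne := hab.ne
  rw [len_eq_sum, len_eq_sum, inside]
  simp only [sum_split2 _ hne]
  simp only [Finset.sum_add_distrib]
  set S := (univ.erase a).erase b with hS
  have hx : ∀ x ∈ S, x ≠ a ∧ x ≠ b ∧ (w * swap a b) x = w x := by
    intro x hx
    simp only [hS, mem_erase, mem_univ, and_true] at hx
    exact ⟨hx.2, hx.1, by simp only [Perm.mul_apply, swap_apply_of_ne_of_ne hx.2 hx.1]⟩
  have ha : (w * swap a b) a = w b := by simp
  have hb : (w * swap a b) b = w a := by simp
  have h1 : ∑ x ∈ S, ∑ y ∈ S, (if x < y ∧ (w * swap a b) y < (w * swap a b) x then 1 else 0)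
      = ∑ x ∈ S, ∑ y ∈ S, (if x < y ∧ w y < w x then 1 else 0) := by
    refine Finset.sum_congr rfl fun x hxS => Finset.sum_congr rfl fun y hyS => ?_
    rw [(hx x hxS).2.2, (hx y hyS).2.2]
  rw [h1, ha, hb]
  have h2 : ∑ x ∈ S, (if a < x ∧ (w * swap a b) x < w b then 1 else 0)
      + ∑ x ∈ S, (if b < x ∧ (w * swap a b) x < w a then 1 else 0)
      + ∑ x ∈ S, (if x < a ∧ w b < (w * swap a b) x then 1 else 0)
      + ∑ x ∈ S, (if x < b ∧ w a < (w * swap a b) x then 1 else 0)
      = ∑ x ∈ S, (if a < x ∧ w x < w a then 1 else 0)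
      + ∑ x ∈ S, (if b < x ∧ w x < w b then 1 else 0)
      + ∑ x ∈ S, (if x < a ∧ w a < w x then 1 else 0)
      + ∑ x ∈ S, (if x < b ∧ w b < w x then 1 else 0)
      + 2 * ∑ x ∈ S, (if a < x ∧ x < b ∧ w a < w x ∧ w x < w b then 1 else 0) := by
    simp only [← Finset.sum_add_distrib, Finset.mul_sum]
    refine Finset.sum_congr rfl fun x hxS => ?_
    obtain ⟨h1, h2, h3⟩ := hx x hxS
    rw [h3]
    have h4 : w x ≠ w a := fun h => h1 (w.injective h)
    have h5 : w x ≠ w b := fun h => h2 (w.injective h)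
    rcases lt_or_gt_of_ne h1 with c1 | c1 <;> rcases lt_or_gt_of_ne h2 with c2 | c2 <;>
      rcases lt_or_gt_of_ne h4 with c3 | c3 <;> rcases lt_or_gt_of_ne h5 with c4 | c4 <;>
      first
        | (exfalso; omega)
        | simp [c1, c2, c3, c4, not_lt.mpr c1.le, not_lt.mpr c2.le, not_lt.mpr c3.le,
            not_lt.mpr c4.le]
  simp only [lt_self_iff_false, false_and, and_false, if_false, hab, h, not_lt.mpr hab.le,
    not_lt.mpr h.le, true_and, if_true] at *
  omega

lemma swap_swap_cancel (w : Perm (Fin n)) (a b : Fin n) : w * swap a b * swap a b = w := by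
  rw [mul_assoc, swap_mul_self, mul_one]

lemma step_swap (w : Perm (Fin n)) {a b : Fin n} (hab : a < b) (h : w a < w b) :
    Step w (w * swap a b) :=
  ⟨swap a b, ⟨a, b, hab.ne, rfl⟩, rfl, by rw [len_swap w hab h]; omega⟩

lemma len_swap_down (w : Perm (Fin n)) {a b : Fin n} (hab : a < b) (h : w b < w a) :
    len (w * swap a b) < len w := by
  have h1 := len_swap (w * swap a b) hab (by simpa using h)
  rw [swap_swap_cancel] at h1
  omega

lemma step_iff {w z : Perm (Fin n)} :
    Step w z ↔ ∃ a b : Fin n, a < b ∧ w a < w b ∧ z = w * swap a b := by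
  constructor
  · rintro ⟨t, ⟨a, b, hab, rfl⟩, rfl, hl⟩
    have key : ∀ a b : Fin n, a < b → len w < len (w * swap a b) → w a < w b := by
      intro a b hab hl
      rcases lt_trichotomy (w a) (w b) with h | h | h
      · exact h
      · exact absurd (w.injective h) hab.ne
      · have := len_swap_down w hab h; omega
    rcases lt_or_gt_of_ne hab with h | h
    · exact ⟨a, b, h, key a b h hl, rfl⟩
    · rw [swap_comm] at hl ⊢
      exact ⟨b, a, h, key b a h hl, rfl⟩
  · rintro ⟨a, b, hab, h, rfl⟩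
    exact step_swap w hab h

lemma Step.len_lt {w z : Perm (Fin n)} (h : Step w z) : len w < len z := by
  obtain ⟨_, _, _, h⟩ := h; exact h

lemma Step.rle {w z : Perm (Fin n)} (h : Step w z) : rle w z := by
  obtain ⟨a, b, hab, h', rfl⟩ := step_iff.mp h
  exact rle_swap w hab h'

lemma BruhatLE.rle {u v : Perm (Fin n)} (h : BruhatLE u v) : rle u v := by
  induction h with
  | refl => exact rle_refl _
  | tail _ h ih => exact rle_trans ih h.rle

lemma BruhatLE.eq_or_len_lt {u v : Perm (Fin n)} (h : BruhatLE u v) : u = v ∨ len u < len v := by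
  induction h with
  | refl => exact Or.inl rfl
  | tail _ h ih =>
    right
    rcases ih with rfl | ih
    · exact h.len_lt
    · exact ih.trans h.len_lt

/-- the key step of the tableau criterion -/
lemma exists_step_rle {u v : Perm (Fin n)} (h : rle u v) (hne : u ≠ v) :
    ∃ z, Step u z ∧ rle z v := by
  classical
  have hex : ∃ a, u a ≠ v a := by
    by_contra hc
    push Not at hc
    exact hne (Equiv.ext hc)
  obtain ⟨a, ha, hmin⟩ := (wellFounded_lt (α := Fin n)).has_min {a | u a ≠ v a} hex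
  have hlt : ∀ p, p < a → u p = v p := by
    intro p hp
    by_contra hc
    exact hmin p hc hp
  -- splitting of the rank function at `a`
  have split : ∀ (w : Perm (Fin n)) (i j : Fin n), a ≤ i → rk w i j =
      (∑ p : Fin n, if p < a ∧ w p ≤ j then 1 else 0) + (if w a ≤ j then 1 else 0)
        + ∑ p : Fin n, if a < p ∧ p ≤ i ∧ w p ≤ j then 1 else 0 := by
    intro w i j hai
    rw [rk_eq_sum]
    have : (if w a ≤ j then 1 else 0) = ∑ p : Fin n, if p = a ∧ w p ≤ j then 1 else 0 := by
      rw [Finset.sum_eq_single a]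
      · simp
      · intro b _ hb; simp [hb]
      · simp
    rw [this, ← Finset.sum_add_distrib, ← Finset.sum_add_distrib]
    refine Finset.sum_congr rfl fun p _ => ?_
    simp only [Fin.le_def, Fin.lt_def, Fin.ext_iff] at *
    split_ifs <;> omega
  have same : ∀ j : Fin n, (∑ p : Fin n, if p < a ∧ u p ≤ j then 1 else 0)
      = ∑ p : Fin n, if p < a ∧ v p ≤ j then 1 else 0 := by
    intro j
    refine Finset.sum_congr rfl fun p _ => ?_
    by_cases hp : p < a
    · rw [hlt p hp]
    · simp [hp]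
  have huv : u a < v a := by
    have h1 := h a (v a)
    rw [split u a _ le_rfl, split v a _ le_rfl, same] at h1
    have z : ∀ w : Perm (Fin n),
        (∑ p : Fin n, if a < p ∧ p ≤ a ∧ w p ≤ v a then 1 else 0) = 0 := by
      intro w
      refine Finset.sum_eq_zero fun p _ => ?_
      rw [if_neg]
      rintro ⟨h1, h2, _⟩
      exact absurd h1 (not_lt.mpr h2)
    rw [z, z] at h1
    simp only [le_refl, if_true] at h1
    have : u a ≤ v a := by
      by_contra hc
      rw [if_neg hc] at h1
      omega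
    exact lt_of_le_of_ne this ha
  have hex2 : ∃ b, a < b ∧ u a < u b ∧ u b ≤ v a := by
    refine ⟨u.symm (v a), ?_, by simpa using huv, by simp⟩
    rcases lt_trichotomy a (u.symm (v a)) with h1 | h1 | h1
    · exact h1
    · exfalso; apply ha
      rw [h1]; simp [← h1]
      have := congrArg u h1
      simpa using this
    · exfalso
      have h2 := hlt _ h1
      simp only [apply_symm_apply] at h2
      exact absurd (v.injective h2) h1.ne'
  obtain ⟨b, ⟨hab, hb1, hb2⟩, hbmin⟩ :=
    (wellFounded_lt (α := Fin n)).has_min {b | a < b ∧ u a < u b ∧ u b ≤ v a} hex2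
  refine ⟨u * swap a b, step_swap u hab hb1, fun i j => ?_⟩
  have h1 := rk_swap u hab hb1 i j
  by_cases hc : a ≤ i ∧ i < b ∧ u a ≤ j ∧ j < u b
  · rw [if_pos hc] at h1
    obtain ⟨c1, c2, c3, c4⟩ := hc
    have h2 := h i (v a)
    rw [split u i _ c1, split v i _ c1, same] at h2
    have h3 := split u i j c1
    have h4 := split v i j c1
    rw [same] at h3
    have e1 : (∑ p : Fin n, if a < p ∧ p ≤ i ∧ u p ≤ v a then 1 else 0)
        ≤ ∑ p : Fin n, if a < p ∧ p ≤ i ∧ u p ≤ j then 1 else 0 := by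
      refine Finset.sum_le_sum fun p _ => ?_
      by_cases hp : a < p ∧ p ≤ i ∧ u p ≤ v a
      · have : ¬ u a < u p := fun hh => hbmin p ⟨hp.1, hh, hp.2.2⟩ (lt_of_le_of_lt hp.2.1 c2)
        rw [if_pos hp, if_pos ⟨hp.1, hp.2.1, (not_lt.mp this).trans c3⟩]
      · rw [if_neg hp]; omega
    have e2 : (∑ p : Fin n, if a < p ∧ p ≤ i ∧ v p ≤ j then 1 else 0)
        ≤ ∑ p : Fin n, if a < p ∧ p ≤ i ∧ v p ≤ v a then 1 else 0 := by
      refine Finset.sum_le_sum fun p _ => ?_
      by_cases hp : a < p ∧ p ≤ i ∧ v p ≤ j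
      · rw [if_pos hp, if_pos ⟨hp.1, hp.2.1, hp.2.2.trans (c4.le.trans hb2)⟩]
      · rw [if_neg hp]; omega
    rw [if_pos c3] at h3
    rw [if_neg (not_le.mpr (lt_of_lt_of_le c4 hb2))] at h4
    rw [if_pos huv.le, if_pos le_rfl] at h2
    omega
  · rw [if_neg hc] at h1
    have := h i j
    omega

lemma len_le (w : Perm (Fin n)) : len w ≤ n * n := by
  unfold len
  refine (Finset.card_filter_le _ _).trans ?_
  simp

lemma rle.bruhatLE {u v : Perm (Fin n)} (h : rle u v) : BruhatLE u v := by
  induction hk : n * n - len u using Nat.strong_induction_on generalizing u with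
  | _ k ih =>
    by_cases hne : u = v
    · subst hne; exact Relation.ReflTransGen.refl
    · obtain ⟨z, hz, hzv⟩ := exists_step_rle h hne
      have h1 := hz.len_lt
      have h2 := len_le z
      exact Relation.ReflTransGen.head hz (ih (n * n - len z) (by omega) hzv rfl)

lemma bruhatLE_iff {u v : Perm (Fin n)} : BruhatLE u v ↔ rle u v :=
  ⟨BruhatLE.rle, rle.bruhatLE⟩

lemma rle.eq_or_len_lt {u v : Perm (Fin n)} (h : rle u v) : u = v ∨ len u < len v :=
  h.bruhatLE.eq_or_len_lt

lemma rle.len_le {u v : Perm (Fin n)} (h : rle u v) : len u ≤ len v := by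
  rcases h.eq_or_len_lt with rfl | h
  · exact le_rfl
  · exact h.le

lemma rle.eq_of_len_le {u v : Perm (Fin n)} (h : rle u v) (hl : len v ≤ len u) : u = v := by
  rcases h.eq_or_len_lt with h | h
  · exact h
  · omega

lemma rle.antisymm {u v : Perm (Fin n)} (h : rle u v) (h' : rle v u) : u = v :=
  h.eq_of_len_le h'.len_le

end Pool.Agent.Lib.MP_0fb7f5_co
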