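import Pool.Agent.Lib.MP_0fb7f5_co.Mono

set_option autoImplicit false

namespace Pool.Agent.Lib.MP_0fb7f5_co

open Finset Equiv

variable {n : ℕ}

open Classical in
/-- the elements of `[x, v]` of colength one -/
noncomputable def coat (x v : Perm (Fin n)) : Finset (Perm (Fin n)) :=
  univ.filter (fun y => rle x y ∧ rle y v ∧ len y + 1 = len v)

lemma mem_coat {x v y : Perm (Fin n)} : y ∈ coat x v ↔ rle x y ∧ rle y v ∧ len y + 1 = len v := by
  classical
  simp [coat]

lemma mem_outE {x v z : Perm (Fin n)} : z ∈ outE x v ↔ Step x z ∧ rle z v := by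
  classical
  simp [outE]

lemma coat_anti {x w v : Perm (Fin n)} (h : rle x w) : coat w v ⊆ coat x v := by
  intro y hy
  rw [mem_coat] at hy ⊢
  exact ⟨rle_trans h hy.1, hy.2⟩

/-- the coatom map is an anti-isomorphism from `[x, v]` onto the subsets of the coatoms -/
def BoolCo (x v : Perm (Fin n)) : Prop :=
  (∀ w, rle x w → rle w v → (coat w v).card + len w = len v) ∧
  (∀ w w', rle x w → rle w v → rle x w' → rle w' v → coat w' v ⊆ coat w v → rle w w') ∧
  (∀ S, S ⊆ coat x v → ∃ w, rle x w ∧ rle w v ∧ coat w v = S)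

lemma exists_missing {α : Type*} [DecidableEq α] {s t : Finset α} (h : s ⊆ t)
    (hc : s.card + 1 = t.card) : ∃ y ∈ t, y ∉ s ∧ ∀ y' ∈ t, y' ∉ s → y' = y := by
  have h1 : (t \ s).card = 1 := by rw [Finset.card_sdiff_of_subset h]; omega
  obtain ⟨y, hy⟩ := Finset.card_eq_one.mp h1
  have h2 : y ∈ t \ s := by rw [hy]; simp
  rw [mem_sdiff] at h2
  refine ⟨y, h2.1, h2.2, fun y' h3 h4 => ?_⟩
  have : y' ∈ t \ s := mem_sdiff.mpr ⟨h3, h4⟩
  rw [hy] at this
  simpa using this

lemma main_count (v : Perm (Fin n)) (k : ℕ) : ∀ x : Perm (Fin n), rle x v →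
    len x + (outE x v).card = len v → len x + k = len v →
    (coat x v).card ≤ k ∧ ((coat x v).card = k → BoolCo x v) := by
  classical
  induction k using Nat.strong_induction_on with
  | _ k ih =>
  intro x hxv hgood hk
  rcases Nat.eq_zero_or_pos k with rfl | hkpos
  · have hx : x = v := hxv.eq_of_len_le (by omega)
    subst hx
    have hemp : coat x x = ∅ := by
      rw [Finset.eq_empty_iff_forall_notMem]
      intro y hy
      rw [mem_coat] at hy
      have := hy.1.len_le
      omega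
    refine ⟨by simp [hemp], fun _ => ⟨?_, ?_, ?_⟩⟩
    · intro w h1 h2
      have : w = x := h2.antisymm h1
      subst this
      simp [hemp]
    · intro w w' h1 h2 h3 h4 _
      exact rle_trans h2 h3
    · intro S hS
      rw [hemp] at hS
      exact ⟨x, rle_refl _, rle_refl _, by rw [hemp, Finset.subset_empty.mp hS]⟩
  set A := outE x v with hA
  set C := coat x v with hC
  have hAk : A.card = k := by omega
  have hz : ∀ z ∈ A, rle x z ∧ rle z v ∧ len x < len z ∧ (coat z v).card + len z ≤ len v ∧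
      ((coat z v).card + len z = len v → BoolCo z v) := by
    intro z hzA
    obtain ⟨h1, h2⟩ := mem_outE.mp hzA
    have h3 := h1.len_lt
    have h4 := h2.len_le
    have h5 := ih (len v - len z) (by omega) z h2 (deodhar_hered h1.rle h2 hgood) (by omega)
    exact ⟨h1.rle, h2, h3, by omega, fun h => h5.2 (by omega)⟩
  have hy : ∀ y ∈ C, k ≤ (outE x y).card + 1 ∧ outE x y ⊆ A := by
    intro y hyC
    obtain ⟨h1, h2, h3⟩ := mem_coat.mp hyC
    have := deodhar h1
    refine ⟨by omega, fun z hz => ?_⟩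
    rw [mem_outE] at hz ⊢
    exact ⟨hz.1, rle_trans hz.2 h2⟩
  have hdc : ∑ y ∈ C, (outE x y).card = ∑ z ∈ A, (coat z v).card := by
    have e1 : ∀ y ∈ C, (outE x y).card = ∑ z ∈ A, if rle z y then 1 else 0 := by
      intro y hyC
      rw [← Finset.card_filter]
      congr 1
      ext z
      rw [mem_filter, mem_outE, mem_outE]
      exact ⟨fun h => ⟨⟨h.1, rle_trans h.2 (mem_coat.mp hyC).2.1⟩, h.2⟩, fun h => ⟨h.1.1, h.2⟩⟩
    have e2 : ∀ z ∈ A, (coat z v).card = ∑ y ∈ C, if rle z y then 1 else 0 := by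
      intro z hzA
      rw [← Finset.card_filter]
      congr 1
      ext y
      rw [mem_filter, mem_coat, mem_coat]
      exact ⟨fun h => ⟨⟨rle_trans (hz z hzA).1 h.1, h.2⟩, h.1⟩, fun h => ⟨h.2, h.1.2⟩⟩
    rw [Finset.sum_congr rfl e1, Finset.sum_congr rfl e2, Finset.sum_comm]
  have hlow : C.card * (k - 1) ≤ ∑ y ∈ C, (outE x y).card := by
    have := Finset.card_nsmul_le_sum C (fun y => (outE x y).card) (k - 1)
      (fun y hyC => by have := (hy y hyC).1; omega)
    simpa using this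
  have hup : ∑ z ∈ A, (coat z v).card ≤ k * (k - 1) := by
    have := Finset.sum_le_card_nsmul A (fun z => (coat z v).card) (k - 1)
      (fun z hzA => by obtain ⟨_, _, h3, h4, _⟩ := hz z hzA; omega)
    simpa [hAk] using this
  refine ⟨?_, fun hCk => ?_⟩
  · rcases Nat.lt_or_ge 1 k with h1 | h1
    · exact Nat.le_of_mul_le_mul_right (hlow.trans (hdc ▸ hup)) (by omega)
    · have : C ⊆ {x} := by
        intro y hyC
        obtain ⟨h1, h2, h3⟩ := mem_coat.mp hyC
        rw [mem_singleton]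
        exact (h1.eq_of_len_le (by omega)).symm
      have := Finset.card_le_card this
      rw [card_singleton] at this
      omega
  -- the equality case
  have hzeq : ∀ z ∈ A, (coat z v).card = k - 1 := by
    have h1 : ∑ z ∈ A, (coat z v).card = ∑ z ∈ A, (k - 1) := by
      rw [Finset.sum_const, smul_eq_mul, hAk]
      rw [hCk] at hlow
      omega
    exact (Finset.sum_eq_sum_iff_of_le
      (fun z hzA => by obtain ⟨_, _, h3, h4, _⟩ := hz z hzA; omega)).mp h1
  have hyeq : ∀ y ∈ C, (outE x y).card = k - 1 := by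
    have h1 : ∑ y ∈ C, (k - 1) = ∑ y ∈ C, (outE x y).card := by
      rw [Finset.sum_const, smul_eq_mul, hCk]
      rw [hCk] at hlow
      omega
    intro y hyC
    exact ((Finset.sum_eq_sum_iff_of_le
      (fun y hyC => by have := (hy y hyC).1; omega)).mp h1 y hyC).symm
  have hzB : ∀ z ∈ A, BoolCo z v := by
    intro z hzA
    obtain ⟨_, _, h3, h4, h5⟩ := hz z hzA
    have := hzeq z hzA
    exact h5 (by omega)
  have hm : ∀ z ∈ A, ∃ y ∈ C, ¬ rle z y ∧ ∀ y' ∈ C, ¬ rle z y' → y' = y := by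
    intro z hzA
    obtain ⟨y, h1, h2, h3⟩ := exists_missing (coat_anti (v := v) (hz z hzA).1)
      (by have := hzeq z hzA; rw [← hC]; omega)
    refine ⟨y, h1, fun h => h2 (mem_coat.mpr ⟨h, (mem_coat.mp h1).2⟩), fun y' h4 h5 => ?_⟩
    exact h3 y' h4 (fun h => h5 (mem_coat.mp h).1)
  have hm' : ∀ y ∈ C, ∃ z ∈ A, ¬ rle z y ∧ ∀ z' ∈ A, ¬ rle z' y → z' = z := by
    intro y hyC
    obtain ⟨z, h1, h2, h3⟩ := exists_missing (hy y hyC).2 (by have := hyeq y hyC; omega)
    refine ⟨z, h1, fun h => h2 (mem_outE.mpr ⟨(mem_outE.mp h1).1, h⟩), fun z' h4 h5 => ?_⟩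
    exact h3 z' h4 (fun h => h5 (mem_outE.mp h).2)
  have hatom : ∀ w, rle x w → rle w v → w ≠ x → ∃ z ∈ A, rle z w := by
    intro w h1 h2 h3
    obtain ⟨z, h4, h5⟩ := exists_step_rle h1 h3.symm
    exact ⟨z, mem_outE.mpr ⟨h4, rle_trans h5 h2⟩, h5⟩
  have hcard : ∀ w, rle x w → rle w v → (coat w v).card + len w = len v := by
    intro w h1 h2
    by_cases h3 : w = x
    · subst h3; rw [← hC]; omega
    · obtain ⟨z, hzA, h4⟩ := hatom w h1 h2 h3
      exact (hzB z hzA).1 w h4 h2
  choose! m hm1 hm2 hm3 using hm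
  have key : ∀ w, rle x w → rle w v → ∀ y ∈ C, ¬ rle w y → ∀ z ∈ A, ¬ rle z y → rle z w := by
    intro w h1 h2 y hyC h3 z hzA h4
    have hT : outE x w ⊆ A := fun z' hz' =>
      mem_outE.mpr ⟨(mem_outE.mp hz').1, rle_trans (mem_outE.mp hz').2 h2⟩
    have hsurj := Finset.surj_on_of_inj_on_of_card_le (s := outE x w) (t := C \ coat w v)
      (fun z' _ => m z')
      (fun z' hz' => by
        refine mem_sdiff.mpr ⟨hm1 z' (hT hz'), fun h => hm2 z' (hT hz') ?_⟩
        exact rle_trans (mem_outE.mp hz').2 (mem_coat.mp h).1)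
      (fun z1 z2 hz1 hz2 h => by
        obtain ⟨z0, _, _, h0⟩ := hm' (m z1) (hm1 z1 (hT hz1))
        rw [h0 z1 (hT hz1) (hm2 z1 (hT hz1)), h0 z2 (hT hz2) (h ▸ hm2 z2 (hT hz2))])
      (by
        rw [Finset.card_sdiff_of_subset (coat_anti h1)]
        have := hcard w h1 h2
        have := deodhar h1
        rw [← hC]
        omega)
      y (mem_sdiff.mpr ⟨hyC, fun h => h3 (mem_coat.mp h).1⟩)
    obtain ⟨z', hz', h5⟩ := hsurj
    obtain ⟨z0, _, _, h0⟩ := hm' y hyC
    have : z = z' := by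
      rw [h0 z hzA h4, h0 z' (hT hz') (h5 ▸ hm2 z' (hT hz'))]
    rw [this]
    exact (mem_outE.mp hz').2
  refine ⟨hcard, ?_, ?_⟩
  · intro w w' h1 h2 h3 h4 h5
    by_cases h6 : w = x
    · subst h6; exact h3
    · obtain ⟨z, hzA, h7⟩ := hatom w h1 h2 h6
      have h8 : ¬ rle w' (m z) := by
        intro h
        have := h5 (mem_coat.mpr ⟨h, (mem_coat.mp (hm1 z hzA)).2⟩)
        exact hm2 z hzA (rle_trans h7 (mem_coat.mp this).1)
      have h9 := key w' h3 h4 (m z) (hm1 z hzA) h8 z hzA (hm2 z hzA)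
      exact (hzB z hzA).2.1 w w' h7 h2 h9 h4 h5
  · intro S hS
    by_cases h1 : S = C
    · exact ⟨x, rle_refl _, hxv, h1.symm⟩
    · obtain ⟨y, hyC, hyS⟩ := Finset.exists_of_ssubset (Finset.ssubset_iff_subset_ne.mpr ⟨hS, h1⟩)
      obtain ⟨z, hzA, h2, _⟩ := hm' y hyC
      have h3 : S ⊆ coat z v := by
        intro y' hy'
        have h4 := hS hy'
        refine mem_coat.mpr ⟨?_, (mem_coat.mp h4).2⟩
        by_contra h5
        have e1 := hm3 z hzA y' h4 h5
        have e2 := hm3 z hzA y hyC h2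
        exact hyS (by rw [e2, ← e1]; exact hy')
      obtain ⟨w, h4, h5, h6⟩ := (hzB z hzA).2.2 S h3
      exact ⟨w, rle_trans (hz z hzA).1 h4, h5, h6⟩

lemma boolean_of_boolCo {u v : Perm (Fin n)} (h : BoolCo u v) : IsBooleanInterval u v := by
  classical
  set C := coat u v with hC
  let e : C ≃ Fin C.card := C.equivFin
  let f : {x : Perm (Fin n) // BruhatLE u x ∧ BruhatLE x v} → Finset (Fin C.card) :=
    fun x => univ.filter (fun i => ¬ rle x.1 (e.symm i).1)
  have hf : ∀ x y : {x : Perm (Fin n) // BruhatLE u x ∧ BruhatLE x v},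
      BruhatLE x.1 y.1 ↔ f x ⊆ f y := by
    intro x y
    rw [bruhatLE_iff]
    constructor
    · intro hxy i hi
      simp only [f, mem_filter, mem_univ, true_and] at hi ⊢
      exact fun h' => hi (rle_trans hxy h')
    · intro hxy
      refine h.2.1 x.1 y.1 x.2.1.rle x.2.2.rle y.2.1.rle y.2.2.rle fun c hc => ?_
      have hcC : c ∈ C := coat_anti y.2.1.rle hc
      refine mem_coat.mpr ⟨?_, (mem_coat.mp hc).2⟩
      by_contra h1
      have h2 : e ⟨c, hcC⟩ ∈ f x := by
        simp only [f, mem_filter, mem_univ, true_and, symm_apply_apply]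
        exact h1
      have h3 := hxy h2
      simp only [f, mem_filter, mem_univ, true_and, symm_apply_apply] at h3
      exact h3 (mem_coat.mp hc).1
  have hinj : Function.Injective f := by
    intro x y hxy
    apply Subtype.ext
    exact ((hf x y).mpr hxy.le).rle.antisymm ((hf y x).mpr hxy.ge).rle
  have hsurj : Function.Surjective f := by
    intro T
    obtain ⟨w, h1, h2, h3⟩ := h.2.2 (C.filter (fun c => ∀ hc : c ∈ C, e ⟨c, hc⟩ ∉ T))
      (Finset.filter_subset _ _)
    refine ⟨⟨w, h1.bruhatLE, h2.bruhatLE⟩, ?_⟩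
    ext i
    simp only [f, mem_filter, mem_univ, true_and]
    have h4 : rle w (e.symm i).1 ↔ (e.symm i).1 ∈ coat w v := by
      rw [mem_coat]
      exact ⟨fun h => ⟨h, (mem_coat.mp (e.symm i).2).2⟩, fun h => h.1⟩
    rw [h4, h3, mem_filter]
    constructor
    · intro h5
      by_contra h6
      exact h5 ⟨(e.symm i).2, fun hc => by simpa using h6⟩
    · intro h5 h6
      have := h6.2 (e.symm i).2
      exact this (by simpa using h5)
  exact ⟨C.card, Equiv.ofBijective f ⟨hinj, hsurj⟩, hf⟩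

lemma mem_downPairs {u v : Perm (Fin n)} (huv : rle u v) {p : Fin n × Fin n} :
    p ∈ downPairs u v ↔ p.1 < p.2 ∧ v p.2 < v p.1 ∧ v * swap p.1 p.2 ∈ coat u v := by
  unfold downPairs
  simp only [mem_filter, mem_univ, true_and]
  refine and_congr_right fun hab => and_congr_right fun h => ?_
  have h' : (v * swap p.1 p.2) p.1 < (v * swap p.1 p.2) p.2 := by simpa using h
  have hl := len_swap (v * swap p.1 p.2) hab h'
  have hr := rk_swap (v * swap p.1 p.2) hab h'
  have hle := rle_swap (v * swap p.1 p.2) hab h'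
  rw [swap_swap_cancel] at hl hr hle
  simp only [Perm.mul_apply, swap_apply_left, swap_apply_right] at hr
  have hin : inside (v * swap p.1 p.2) p.1 p.2 = 0 ↔
      ∀ c : Fin n, p.1 < c → c < p.2 → ¬ (v p.2 < v c ∧ v c < v p.1) := by
    unfold inside
    rw [Finset.sum_eq_zero_iff]
    simp only [mem_univ, true_imp_iff, Perm.mul_apply, swap_apply_left, swap_apply_right,
      ite_eq_right_iff, one_ne_zero, imp_false]
    refine forall_congr' fun c => ?_
    constructor
    · intro hh c1 c2 c3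
      exact hh ⟨c1, c2, by rwa [swap_apply_of_ne_of_ne c1.ne' c2.ne]⟩
    · rintro hh ⟨c1, c2, c3⟩
      rw [swap_apply_of_ne_of_ne c1.ne' c2.ne] at c3
      exact hh c1 c2 c3
  rw [mem_coat, ← hin]
  constructor
  · rintro ⟨h1, h2⟩
    refine ⟨fun i j => ?_, hle, by omega⟩
    have h3 := hr i j
    by_cases hc : p.1 ≤ i ∧ i < p.2 ∧ v p.2 ≤ j ∧ j < v p.1
    · rw [if_pos hc] at h3
      have := h2 i j hc.1 hc.2.1 hc.2.2.1 hc.2.2.2
      omega
    · rw [if_neg hc] at h3
      have := huv i j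
      omega
  · rintro ⟨h1, _, h2⟩
    refine ⟨by omega, fun i j c1 c2 c3 c4 => ?_⟩
    have h3 := hr i j
    rw [if_pos ⟨c1, c2, c3, c4⟩] at h3
    have := h1 i j
    omega

lemma card_coat {u v : Perm (Fin n)} (huv : rle u v) : (coat u v).card = (downPairs u v).card := by
  classical
  symm
  refine Finset.card_bij (fun p _ => v * swap p.1 p.2) ?_ ?_ ?_
  · intro p hp
    exact ((mem_downPairs huv).mp hp).2.2
  · intro p hp q hq h
    exact swap_pair_inj ((mem_downPairs huv).mp hp).1 ((mem_downPairs huv).mp hq).1 h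
  · intro y hy
    obtain ⟨h1, h2, h3⟩ := mem_coat.mp hy
    obtain ⟨z, h4, h5⟩ := exists_step_rle h2 (by rintro rfl; omega)
    have h6 := h4.len_lt
    have h7 : z = v := h5.eq_of_len_le (by omega)
    subst h7
    obtain ⟨a, b, hab, h8, h9⟩ := step_iff.mp h4
    have h10 : z * swap a b = y := by rw [h9, swap_swap_cancel]
    refine ⟨(a, b), (mem_downPairs huv).mpr ⟨hab, ?_, by rw [h10]; exact hy⟩, h10⟩
    rw [h9]; simpa using h8

end Pool.Agent.Lib.MP_0fb7f5_co
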