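import Mathlib

/-!
Cubes in the Cayley graph of a symmetric group generated by all transpositions.
-/

set_option autoImplicit false

namespace Pool.Agent.Lib.MP_0fb7f5_co.Cube

open Finset Equiv

variable {ι α : Type*} [DecidableEq ι] [DecidableEq α]

/-- An injective map from the cube whose edges are transpositions. -/
structure IsCube (f : Finset ι → Perm α) : Prop where
  inj : Function.Injective f
  edge : ∀ S k, ∃ a b, a ≠ b ∧ f (symmDiff S {k}) = f S * swap a b

variable {f : Finset ι → Perm α}

lemma sd_inj {S L L' : Finset ι} (h : symmDiff S L = symmDiff S L') : L = L' :=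
  symmDiff_right_injective S h

lemma sd_erase (S : Finset ι) {L : Finset ι} {k : ι} (hk : k ∈ L) :
    symmDiff (symmDiff S {k}) (L.erase k) = symmDiff S L := by
  ext x
  by_cases hx : x = k <;> simp [mem_symmDiff, hx, hk]

lemma sd_erase' (S : Finset ι) {L : Finset ι} {k : ι} (hk : k ∈ L) :
    symmDiff (symmDiff S (L.erase k)) {k} = symmDiff S L := by
  rw [symmDiff_right_comm, sd_erase S hk]

lemma IsCube.edge' (h : IsCube f) {S : Finset ι} {k : ι} {j : α}
    (hj : f (symmDiff S {k}) j ≠ f S j) : ∃ r, r ≠ j ∧ f (symmDiff S {k}) = f S * swap j r := by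
  obtain ⟨a, b, hab, e⟩ := h.edge S k
  by_cases ha : j = a
  · subst ha
    exact ⟨b, hab.symm, e⟩
  by_cases hb : j = b
  · subst hb
    exact ⟨a, hab, by rw [e, swap_comm]⟩
  · exact absurd (by rw [e, Perm.mul_apply, swap_apply_of_ne_of_ne ha hb]) hj

lemma IsCube.edge2 (h : IsCube f) {S : Finset ι} {k : ι} {j q : α} (hq : q ≠ j)
    (hj : f (symmDiff S {k}) j ≠ f S j) (hq' : f (symmDiff S {k}) q ≠ f S q) :
    f (symmDiff S {k}) = f S * swap j q := by
  obtain ⟨r, -, e⟩ := h.edge' hj
  by_cases hr : q = r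
  · rw [e, hr]
  · exact absurd (by rw [e, Perm.mul_apply, swap_apply_of_ne_of_ne hq hr]) hq'

lemma IsCube.diamond (h : IsCube f) {S : Finset ι} {k l : ι} {j : α} (hkl : k ≠ l)
    (h1 : f (symmDiff S {k}) j = f S j) (h2 : f (symmDiff S {l}) j = f S j) :
    f (symmDiff (symmDiff S {k}) {l}) j = f S j := by
  by_contra hne
  obtain ⟨r, -, e⟩ := h.edge' (S := symmDiff S {k}) (k := l) (j := j) (by rwa [h1])
  obtain ⟨r', -, e'⟩ := h.edge' (S := symmDiff S {l}) (k := k) (j := j)
    (by rwa [h2, symmDiff_right_comm])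
  rw [symmDiff_right_comm] at e'
  have a1 : f (symmDiff (symmDiff S {k}) {l}) r = f S j := by
    rw [e, Perm.mul_apply, swap_apply_right, h1]
  have a2 : f (symmDiff (symmDiff S {k}) {l}) r' = f S j := by
    rw [e', Perm.mul_apply, swap_apply_right, h2]
  obtain rfl : r = r' := (f _).injective (a1.trans a2.symm)
  have := h.inj (mul_right_cancel (e.symm.trans e'))
  exact hkl (singleton_injective (sd_inj this))

lemma IsCube.face (h : IsCube f) (q : α) (L : Finset ι) : ∀ S : Finset ι,
    (∀ k ∈ L, f (symmDiff S {k}) q = f S q) → f (symmDiff S L) q = f S q := by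
  induction L using Finset.induction_on with
  | empty => intro S _; rw [show symmDiff S ∅ = S by simp]
  | insert k L hk ih =>
    intro S hS
    have h1 := hS k (mem_insert_self _ _)
    rw [← sd_erase S (mem_insert_self k L), erase_insert hk, ih, h1]
    intro l hl
    rw [h1]
    exact h.diamond (by rintro rfl; exact hk hl) h1 (hS l (mem_insert_of_mem hl))

lemma IsCube.fibre (h : IsCube f) (j : α) (L : Finset ι) : ∀ S : Finset ι,
    f (symmDiff S L) j = f S j → ∀ k ∈ L, f (symmDiff S {k}) j = f S j := by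
  induction L using Finset.strongInduction with
  | H L ih =>
    intro S hS k hk
    by_cases h0 : ∃ k0 ∈ L, f (symmDiff S {k0}) j = f S j
    · obtain ⟨k0, hk0, e0⟩ := h0
      by_cases hkk : k = k0
      · rw [hkk, e0]
      have h1 := ih _ (erase_ssubset hk0) (symmDiff S {k0}) (by rw [sd_erase S hk0, hS, e0]) k
        (mem_erase.2 ⟨hkk, hk⟩)
      have h2 := h.diamond (S := symmDiff S {k0}) (Ne.symm hkk)
        (by rw [symmDiff_symmDiff_cancel_right, e0]) h1
      rwa [symmDiff_symmDiff_cancel_right, e0] at h2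
    exfalso
    push Not at h0
    have hall : f (symmDiff S L) = f (symmDiff S ∅) := by
      ext q
      rw [show symmDiff S ∅ = S by simp]
      by_cases hq : q = j
      · rw [hq, hS]
      by_cases h1 : ∀ l ∈ L, f (symmDiff S {l}) q = f S q
      · exact h.face q L S h1
      push Not at h1
      obtain ⟨l, hl, hlq⟩ := h1
      have e1 := h.edge2 hq (h0 l hl) hlq
      have e2 : f (symmDiff S (L.erase l)) q = f S q := by
        refine h.face q _ S fun l' hl' => ?_
        by_contra hc
        have e3 := h.edge2 hq (h0 l' (mem_of_mem_erase hl')) hc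
        exact ne_of_mem_erase hl' (singleton_injective (sd_inj (h.inj (e3.trans e1.symm))))
      by_contra hc
      obtain ⟨r, -, e4⟩ := h.edge' (S := symmDiff S (L.erase l)) (k := l) (j := q)
        (by rwa [sd_erase' S hl, e2])
      rw [sd_erase' S hl] at e4
      by_cases hr : j = r
      · subst hr
        have : f S j = f S q := by rw [← hS, e4, Perm.mul_apply, swap_apply_right, e2]
        exact hq ((f S).injective this).symm
      have e5 : f (symmDiff S (L.erase l)) j = f S j := by
        rw [← hS, e4, Perm.mul_apply, swap_apply_of_ne_of_ne (Ne.symm hq) hr]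
      rcases (L.erase l).eq_empty_or_nonempty with h6 | ⟨l', hl'⟩
      · have h7 := sd_erase' S hl
        rw [h6, show symmDiff S ∅ = S by simp] at h7
        exact h0 l hl (by rw [h7, hS])
      · exact h0 l' (mem_of_mem_erase hl') (ih _ (erase_ssubset hl) S e5 l' hl')
    have := sd_inj (h.inj hall)
    rw [this] at hk
    exact notMem_empty _ hk

variable [Fintype ι] [Fintype α]

/-- The directions that move the position `j` at the vertex `S`. -/
def dirs (f : Finset ι → Perm α) (j : α) (S : Finset ι) : Finset ι :=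
  univ.filter fun k => f (symmDiff S {k}) j ≠ f S j

omit [Fintype α] in
lemma IsCube.fibre_le (h : IsCube f) (j : α) (S : Finset ι) :
    (univ.filter fun T => f T j = f S j).card * 2 ^ (dirs f j S).card ≤ 2 ^ Fintype.card ι := by
  rw [← card_powerset, ← card_product, ← Fintype.card_finset, ← card_univ]
  have key : ∀ T, f T j = f S j → ∀ k ∈ dirs f j S, (k ∈ T ↔ k ∈ S) := by
    intro T hT k hk
    have h1 := h.fibre j (symmDiff S T) S (by rwa [symmDiff_symmDiff_cancel_left]) k
    have h2 : k ∉ symmDiff S T := fun hc => (mem_filter.1 hk).2 (h1 hc)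
    rw [mem_symmDiff] at h2
    tauto
  refine card_le_card_of_injOn (fun x => symmDiff x.1 x.2) (fun _ _ => mem_coe.2 (mem_univ _)) ?_
  rintro ⟨T, E⟩ hx ⟨T', E'⟩ hx' e
  simp only [coe_product, Set.mem_prod, mem_coe, mem_filter, mem_univ, true_and,
    mem_powerset] at hx hx' e
  obtain rfl : E = E' := by
    ext k
    have a1 := key T hx.1 k
    have a2 := key T' hx'.1 k
    have a3 := @hx.2 k
    have a4 := @hx'.2 k
    have a5 : k ∈ symmDiff T E ↔ k ∈ symmDiff T' E' := by rw [e]
    rw [mem_symmDiff, mem_symmDiff] at a5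
    tauto
  rw [symmDiff_left_injective E e]

lemma IsCube.sum_le (h : IsCube f) (j : α) :
    ∑ S, 2 ^ (dirs f j S).card ≤ Fintype.card α * 2 ^ Fintype.card ι := by
  rw [← sum_fiberwise_of_maps_to (s := univ) (t := univ) (g := fun S => f S j)
    (fun _ _ => mem_univ _), ← card_univ, ← smul_eq_mul]
  refine sum_le_card_nsmul _ _ _ fun a _ => ?_
  rcases (univ.filter fun S => f S j = a).eq_empty_or_nonempty with h0 | h0
  · simp [h0]
  refine Nat.le_of_mul_le_mul_left ?_ h0.card_pos
  rw [mul_sum, ← smul_eq_mul (card _) (2 ^ Fintype.card ι)]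
  refine sum_le_card_nsmul _ _ _ fun S hS => ?_
  obtain rfl := (mem_filter.1 hS).2
  exact h.fibre_le j S

lemma IsCube.sum_dirs (h : IsCube f) (S : Finset ι) :
    2 * Fintype.card ι ≤ ∑ j, (dirs f j S).card := by
  simp only [dirs, card_filter]
  rw [sum_comm, mul_comm, ← card_univ, ← smul_eq_mul]
  refine card_nsmul_le_sum _ _ _ fun k _ => ?_
  obtain ⟨a, b, hab, e⟩ := h.edge S k
  rw [← card_filter, ← card_pair hab]
  refine card_le_card fun x hx => mem_filter.2 ⟨mem_univ _, ?_⟩
  rw [e, Perm.mul_apply, (f S).injective.ne_iff]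
  rcases mem_insert.1 hx with rfl | hx
  · rw [swap_apply_left]
    exact hab.symm
  · rw [mem_singleton.1 hx, swap_apply_right]
    exact hab

/-- A cube of dimension `M` among the permutations of `n` points has `4 ^ M ≤ n ^ n`. -/
theorem IsCube.bound (h : IsCube f) :
    4 ^ Fintype.card ι ≤ Fintype.card α ^ Fintype.card α := by
  set n := Fintype.card α with hn
  set M := Fintype.card ι with hM
  rcases Nat.eq_zero_or_pos n with h0 | h0
  · have h1 := h.sum_dirs ∅
    have : IsEmpty α := Fintype.card_eq_zero_iff.1 h0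
    have h2 : M = 0 := by simpa [← hM] using h1
    simp [h0, h2]
  have n0 : (0 : ℝ) < n := by exact_mod_cast h0
  have c0 : 0 < Real.log 2 := Real.log_pos (by norm_num)
  set c := Real.log 2 with hc
  set m : ℝ := 2 * M / n with hm
  have p2 : ∀ d : ℕ, (2 : ℝ) ^ d = Real.exp (d * c) := fun d => by
    rw [Real.exp_nat_mul, hc, Real.exp_log (by norm_num)]
  have t : ∀ d : ℕ, Real.exp (m * c) * (1 + c * (d - m)) ≤ 2 ^ d := fun d => by
    rw [p2, show (d : ℝ) * c = m * c + c * (d - m) by ring, Real.exp_add]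
    exact mul_le_mul_of_nonneg_left (by linarith [Real.add_one_le_exp (c * (d - m))])
      (Real.exp_pos _).le
  have s1 : ∀ S, Real.exp (m * c) * n ≤ ∑ j, (2 : ℝ) ^ (dirs f j S).card := fun S => by
    refine le_trans ?_ (sum_le_sum fun j _ => t _)
    rw [← mul_sum]
    refine mul_le_mul_of_nonneg_left ?_ (Real.exp_pos _).le
    have h1 : (2 * M : ℝ) ≤ ∑ j, ((dirs f j S).card : ℝ) := by exact_mod_cast h.sum_dirs S
    have h2 : (n : ℝ) * m = 2 * M := by rw [hm]; field_simp
    rw [sum_add_distrib, ← mul_sum, sum_sub_distrib]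
    simp only [sum_const, card_univ, nsmul_eq_mul, ← hn, mul_one, h2]
    nlinarith
  have s2 : ∀ j, ∑ S, (2 : ℝ) ^ (dirs f j S).card ≤ n * 2 ^ M := fun j => by
    exact_mod_cast h.sum_le j
  have s3 : (2 : ℝ) ^ M * (Real.exp (m * c) * n) ≤ n * (n * 2 ^ M) := by
    have a1 := sum_le_sum fun S (_ : S ∈ univ) => s1 S
    have a2 := sum_le_sum fun j (_ : j ∈ univ) => s2 j
    rw [sum_comm] at a2
    simp only [sum_const, card_univ, nsmul_eq_mul, Fintype.card_finset, ← hn, ← hM] at a1 a2
    push_cast at a1
    exact a1.trans a2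
  have s4 : Real.exp (m * c) ≤ n := by
    have : (0 : ℝ) < 2 ^ M * n := by positivity
    refine le_of_mul_le_mul_left ?_ this
    nlinarith
  have s5 := pow_le_pow_left₀ (Real.exp_pos _).le s4 n
  rw [← Real.exp_nat_mul, show (n : ℝ) * (m * c) = (2 * M : ℕ) * c by
    rw [hm]; push_cast; field_simp, ← p2, pow_mul] at s5
  norm_num at s5
  exact_mod_cast s5

end Pool.Agent.Lib.MP_0fb7f5_co.Cube
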