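import Mathlib

set_option autoImplicit false

namespace Pool.Agent.Lib.MP_0fb7f5_co

open Finset

/-- The length of a permutation: its number of inversions. -/
def len {n : ℕ} (w : Equiv.Perm (Fin n)) : ℕ :=
  (univ.filter (fun p : Fin n × Fin n => p.1 < p.2 ∧ w p.2 < w p.1)).card

/-- The generating relation of the strong Bruhat order: `z = w t` for a transposition `t`,
and `z` is longer than `w`. -/
def Step {n : ℕ} (w z : Equiv.Perm (Fin n)) : Prop :=
  ∃ t : Equiv.Perm (Fin n), t.IsSwap ∧ z = w * t ∧ len w < len z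

/-- The strong Bruhat order: the reflexive transitive closure of `Step`. -/
def BruhatLE {n : ℕ} (u v : Equiv.Perm (Fin n)) : Prop :=
  Relation.ReflTransGen Step u v

/-- The interval `[u, v]` of the strong Bruhat order is isomorphic, as a poset, to the lattice of
all subsets of a finite set, ordered by inclusion. -/
def IsBooleanInterval {n : ℕ} (u v : Equiv.Perm (Fin n)) : Prop :=
  ∃ (k : ℕ) (φ : {x : Equiv.Perm (Fin n) // BruhatLE u x ∧ BruhatLE x v} ≃ Finset (Fin k)),
    ∀ x y, BruhatLE x.1 y.1 ↔ φ x ⊆ φ y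

/-- The rank matrix of a permutation: the number of positions `a ≤ i` with value `w a ≤ j`. -/
def rk {n : ℕ} (w : Equiv.Perm (Fin n)) (i j : Fin n) : ℕ :=
  (univ.filter (fun a : Fin n => a ≤ i ∧ w a ≤ j)).card

/-- The non-inversions `(a, b)` of `u` such that the rank matrix of `v` is strictly below that
of `u` on the whole rectangle `[a, b) × [u a, u b)`. -/
def upPairs {n : ℕ} (u v : Equiv.Perm (Fin n)) : Finset (Fin n × Fin n) :=
  univ.filter (fun p : Fin n × Fin n => p.1 < p.2 ∧ u p.1 < u p.2 ∧
    ∀ i j : Fin n, p.1 ≤ i → i < p.2 → u p.1 ≤ j → j < u p.2 → rk v i j < rk u i j)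

/-- The inversions `(a, b)` of `v` with no point of `v` strictly inside the rectangle they span,
such that the rank matrix of `v` is strictly below that of `u` on the whole rectangle
`[a, b) × [v b, v a)`. -/
def downPairs {n : ℕ} (u v : Equiv.Perm (Fin n)) : Finset (Fin n × Fin n) :=
  univ.filter (fun p : Fin n × Fin n => p.1 < p.2 ∧ v p.2 < v p.1 ∧
    (∀ c : Fin n, p.1 < c → c < p.2 → ¬ (v p.2 < v c ∧ v c < v p.1)) ∧
    ∀ i j : Fin n, p.1 ≤ i → i < p.2 → v p.2 ≤ j → j < v p.1 → rk v i j < rk u i j)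

end Pool.Agent.Lib.MP_0fb7f5_co
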