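import Pool.Agent.Lib.MP_0fb7f5_co.PatB

/-!
Double cosets with trivial intersection give products of boolean intervals.
-/

set_option autoImplicit false

namespace Pool.Agent.Lib.MP_0fb7f5_co.Grow

open Finset Equiv Pat

variable {n p k q l : ℕ}

/-- The pattern form of a boolean pair. -/
def PB (u v : Perm (Fin n)) : Prop :=
  rle u v ∧ ¬ U21 u v ∧ ¬ U123 u v ∧ ¬ V12 u v ∧ ¬ V321 u v

/-- A family of `p` disjoint intervals of size `k`; the other points are singleton groups. -/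
structure Grp (n p k : ℕ) where
  ι : Fin p × Fin k ↪ Fin n
  g : Fin n → ℕ
  mono : Monotone g
  smono : ∀ i, StrictMono fun s => ι (i, s)
  same : ∀ i s t, g (ι (i, s)) = g (ι (i, t))
  sep : ∀ x y, g x = g y → x = y ∨ ∃ i s t, x = ι (i, s) ∧ y = ι (i, t)

namespace Grp

variable (G : Grp n p k)

/-- The permutation acting inside the groups. -/
noncomputable def S (σ : Fin p → Perm (Fin k)) : Perm (Fin n) :=
  Perm.viaEmbedding (prodCongrRight σ) G.ι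

lemma S_ι (σ : Fin p → Perm (Fin k)) (i : Fin p) (s : Fin k) :
    G.S σ (G.ι (i, s)) = G.ι (i, σ i s) := by
  unfold S
  rw [Perm.viaEmbedding_apply]
  rfl

lemma S_out (σ : Fin p → Perm (Fin k)) {x : Fin n} (hx : x ∉ Set.range G.ι) : G.S σ x = x :=
  Perm.viaEmbedding_apply_of_notMem _ _ _ hx

lemma g_S (σ : Fin p → Perm (Fin k)) (x : Fin n) : G.g (G.S σ x) = G.g x := by
  by_cases hx : x ∈ Set.range G.ι
  · obtain ⟨⟨i, s⟩, rfl⟩ := hx
    rw [S_ι]
    exact G.same _ _ _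
  · rw [G.S_out σ hx]

lemma g_S_inv (σ : Fin p → Perm (Fin k)) (x : Fin n) : G.g ((G.S σ)⁻¹ x) = G.g x := by
  rw [← G.g_S σ ((G.S σ)⁻¹ x)]
  simp

lemma S_inv (σ : Fin p → Perm (Fin k)) : (G.S σ)⁻¹ = G.S fun i => (σ i)⁻¹ := by
  rw [inv_eq_iff_mul_eq_one]
  ext x
  by_cases hx : x ∈ Set.range G.ι
  · obtain ⟨⟨i, s⟩, rfl⟩ := hx
    simp [S_ι]
  · simp [G.S_out _ hx]

/-- The last point of its group. -/
def Bd (y : Fin n) : Prop := ∀ b, b ≤ y ↔ G.g b ≤ G.g y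

lemma lt_of_g {x y : Fin n} (h : G.g x < G.g y) : x < y := by
  by_contra h1
  exact absurd (G.mono (not_lt.1 h1)) (not_le.2 h)

lemma exists_bd (x : Fin n) : ∃ y, G.Bd y ∧ G.g y = G.g x := by
  obtain ⟨y, hy, hm⟩ := exists_max_image (univ.filter fun b => G.g b = G.g x) id ⟨x, by simp⟩
  have hy' : G.g y = G.g x := by simpa using hy
  refine ⟨y, fun b => ⟨fun h => G.mono h, fun h => ?_⟩, hy'⟩
  rcases h.lt_or_eq with h | h
  · exact (G.lt_of_g h).le
  · exact hm b (by simp [h, hy'])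

lemma bd_out {x : Fin n} (hx : x ∉ Set.range G.ι) : G.Bd x := by
  refine fun b => ⟨fun h => G.mono h, fun h => ?_⟩
  rcases h.lt_or_eq with h | h
  · exact (G.lt_of_g h).le
  · rcases G.sep _ _ h with h | ⟨i, s, t, -, h⟩
    · exact h.le
    · exact absurd ⟨_, h.symm⟩ hx

lemma mem_grp {i : Fin p} {s : Fin k} {x : Fin n} (h : G.g x = G.g (G.ι (i, s))) :
    ∃ t, x = G.ι (i, t) := by
  rcases G.sep _ _ h with h | ⟨j, a, b, h1, h2⟩
  · exact ⟨s, h⟩
  · have := G.ι.injective h2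
    obtain rfl : i = j := (Prod.ext_iff.1 this).1
    exact ⟨a, h1⟩

end Grp

lemma rk_inv (w : Perm (Fin n)) (i j : Fin n) : rk w⁻¹ j i = rk w i j := by
  rw [rk_eq_sum, rk_eq_sum, ← Equiv.sum_comp w]
  simp [and_comm]

lemma rle_inv {u v : Perm (Fin n)} (h : rle u⁻¹ v⁻¹) : rle u v := by
  intro i j
  rw [← rk_inv u, ← rk_inv v]
  exact h j i

lemma region_inv {u v : Perm (Fin n)} {a b c d : Fin n} (h : Region u v a b c d) :
    Region u⁻¹ v⁻¹ c d a b := by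
  intro i j h1 h2 h3 h4
  rw [rk_inv, rk_inv]
  exact h j i h3 h4 h1 h2

lemma rk_col_bd (G : Grp n p k) (σ : Fin p → Perm (Fin k)) (z : Perm (Fin n)) {x : Fin n}
    (hx : G.Bd x) (y : Fin n) : rk (z * G.S σ) x y = rk z x y := by
  rw [rk_eq_sum, rk_eq_sum, ← Equiv.sum_comp (G.S σ) fun a => if a ≤ x ∧ z a ≤ y then 1 else 0]
  refine sum_congr rfl fun a _ => ?_
  have : G.S σ a ≤ x ↔ a ≤ x := by rw [hx, hx a, G.g_S]
  exact if_congr (and_congr this.symm Iff.rfl) rfl rfl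

lemma rk_row_bd (H : Grp n q l) (τ : Fin q → Perm (Fin l)) (z : Perm (Fin n)) (x : Fin n)
    {y : Fin n} (hy : H.Bd y) : rk ((H.S τ)⁻¹ * z) x y = rk z x y := by
  rw [rk_eq_sum, rk_eq_sum]
  refine sum_congr rfl fun a _ => ?_
  have : (H.S τ)⁻¹ (z a) ≤ y ↔ z a ≤ y := by rw [hy, hy (z a), H.g_S_inv]
  simp only [this, Perm.mul_apply]

lemma rk_col (G : Grp n p k) (σ : Fin p → Perm (Fin k)) (z : Perm (Fin n)) (i : Fin p)
    (s : Fin k) (y : Fin n) : rk (z * G.S σ) (G.ι (i, s)) y =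
      (∑ a, if G.g a < G.g (G.ι (i, s)) ∧ z a ≤ y then 1 else 0) +
        ∑ t, if t ≤ s ∧ z (G.ι (i, σ i t)) ≤ y then 1 else 0 := by
  rw [rk_eq_sum, ← Equiv.sum_comp (G.S σ)
    fun a => if G.g a < G.g (G.ι (i, s)) ∧ z a ≤ y then 1 else 0]
  have e : (∑ t, if t ≤ s ∧ z (G.ι (i, σ i t)) ≤ y then 1 else 0 : ℕ) =
      ∑ a, if G.g a = G.g (G.ι (i, s)) ∧ a ≤ G.ι (i, s) ∧ z (G.S σ a) ≤ y then 1 else 0 := by
    symm
    rw [← sum_subset (subset_univ (univ.image fun t => G.ι (i, t))), sum_image]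
    · refine sum_congr rfl fun t _ => ?_
      simp only [G.same i t s, true_and, G.S_ι, (G.smono i).le_iff_le]
    · intro a _ b _ h
      exact (G.smono i).injective h
    · intro a _ ha
      rw [if_neg]
      rintro ⟨h, -⟩
      obtain ⟨t, rfl⟩ := G.mem_grp h
      exact ha (mem_image.2 ⟨t, mem_univ _, rfl⟩)
  rw [e, ← sum_add_distrib]
  refine sum_congr rfl fun a _ => ?_
  rw [G.g_S, Perm.mul_apply]
  rcases lt_trichotomy (G.g a) (G.g (G.ι (i, s))) with h | h | h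
  · simp [h, h.ne, (G.lt_of_g h).le]
  · simp [h]
  · simp [h.ne', h.not_gt, (G.lt_of_g h).not_ge]

lemma rle_col (G : Grp n p k) {σ σ' : Fin p → Perm (Fin k)} (z : Perm (Fin n))
    (hz : ∀ i, StrictMono fun t => z (G.ι (i, t))) (h : ∀ i, rle (σ i) (σ' i)) :
    rle (z * G.S σ) (z * G.S σ') := by
  intro x y
  by_cases hx : x ∈ Set.range G.ι
  · obtain ⟨⟨i, s⟩, rfl⟩ := hx
    rw [rk_col, rk_col]
    refine Nat.add_le_add_left ?_ _
    by_cases h0 : (univ.filter fun t => z (G.ι (i, t)) ≤ y).Nonempty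
    · obtain ⟨t, ht, hm⟩ := exists_max_image _ id h0
      have ht' : z (G.ι (i, t)) ≤ y := by simpa using ht
      have e : ∀ r, z (G.ι (i, r)) ≤ y ↔ r ≤ t := fun r =>
        ⟨fun h => hm r (by simpa using h), fun h => ((hz i).monotone h).trans ht'⟩
      simp only [e]
      have := h i s t
      rwa [rk_eq_sum, rk_eq_sum] at this
    · have e : ∀ r, ¬ z (G.ι (i, r)) ≤ y := fun r h => h0 ⟨r, by simpa using h⟩
      simp [e]
  · rw [rk_col_bd G _ _ (G.bd_out hx), rk_col_bd G _ _ (G.bd_out hx)]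

/-- Inside every column group the row groups increase. -/
def Srt (G : Grp n p k) (H : Grp n q l) (w : Perm (Fin n)) : Prop :=
  ∀ i, StrictMono fun t => H.g (w (G.ι (i, t)))

/-- The element of the double coset. -/
noncomputable def dc (G : Grp n p k) (H : Grp n q l) (w : Perm (Fin n))
    (σ : Fin p → Perm (Fin k)) (τ : Fin q → Perm (Fin l)) : Perm (Fin n) :=
  (H.S τ)⁻¹ * (w * G.S σ)

lemma dc_inv (G : Grp n p k) (H : Grp n q l) (w : Perm (Fin n))
    (σ : Fin p → Perm (Fin k)) (τ : Fin q → Perm (Fin l)) :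
    (dc G H w σ τ)⁻¹ = dc H G w⁻¹ τ σ := by
  simp [dc, mul_assoc]

lemma g_dc (G : Grp n p k) (H : Grp n q l) (w : Perm (Fin n))
    (σ : Fin p → Perm (Fin k)) (τ : Fin q → Perm (Fin l)) (i : Fin p) (s : Fin k) :
    H.g (dc G H w σ τ (G.ι (i, s))) = H.g (w (G.ι (i, σ i s))) := by
  simp only [dc, Perm.mul_apply, H.g_S_inv, G.S_ι]

variable {G : Grp n p k} {H : Grp n q l} {w : Perm (Fin n)}
  {σ σ' : Fin p → Perm (Fin k)} {τ τ' : Fin q → Perm (Fin l)}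

lemma region_col (hw : Srt G H w) {i : Fin p} {s₁ s₂ t₁ t₂ : Fin k} {c d : Fin n}
    (hc : H.g c = H.g (w (G.ι (i, t₁)))) (hd : H.g d = H.g (w (G.ι (i, t₂))))
    (h : Region (dc G H w σ τ) (dc G H w σ' τ') (G.ι (i, s₁)) (G.ι (i, s₂)) c d) :
    Region (σ i) (σ' i) s₁ s₂ t₁ t₂ := by
  intro s t h1 h2 h3 h4
  obtain ⟨y, hy, hg⟩ := H.exists_bd (w (G.ι (i, t)))
  have e : ∀ r, w (G.ι (i, r)) ≤ y ↔ r ≤ t := fun r => by
    rw [hy, hg]
    exact (hw i).le_iff_le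
  have h5 := h (G.ι (i, s)) y ((G.smono i).monotone h1) (G.smono i h2)
    (by rw [hy, hg, hc]; exact (hw i).monotone h3)
    (H.lt_of_g (by rw [hg, hd]; exact hw i h4))
  unfold dc at h5
  rw [rk_row_bd H _ _ _ hy, rk_row_bd H _ _ _ hy, rk_col, rk_col] at h5
  simp only [e] at h5
  rw [rk_eq_sum, rk_eq_sum]
  exact lt_of_add_lt_add_left h5

lemma corner {a b c d : Fin n} (h1 : G.g a < G.g b) (h2 : H.g c < H.g d) :
    ¬ Region (dc G H w σ τ) (dc G H w σ' τ') a b c d := by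
  intro h
  obtain ⟨x, hx, gx⟩ := G.exists_bd a
  obtain ⟨y, hy, gy⟩ := H.exists_bd c
  have h5 := h x y ((hx a).2 gx.ge) (G.lt_of_g (gx ▸ h1)) ((hy c).2 gy.ge) (H.lt_of_g (gy ▸ h2))
  unfold dc at h5
  rw [rk_row_bd H _ _ _ hy, rk_row_bd H _ _ _ hy, rk_col_bd G _ _ hx, rk_col_bd G _ _ hx] at h5
  exact lt_irrefl _ h5

lemma lt_dc (hw : Srt G H w) {i : Fin p} {s t : Fin k}
    (h : dc G H w σ τ (G.ι (i, s)) < dc G H w σ τ (G.ι (i, t))) : σ i s < σ i t := by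
  have h1 := H.mono h.le
  rw [g_dc, g_dc] at h1
  refine lt_of_le_of_ne ((hw i).le_iff_le.1 h1) fun e => ?_
  obtain rfl := (σ i).injective e
  exact lt_irrefl _ h

lemma two {a b : Fin n} (hab : a < b) (hg : G.g a = G.g b) :
    ∃ i s t, a = G.ι (i, s) ∧ b = G.ι (i, t) ∧ s < t := by
  rcases G.sep _ _ hg with h | ⟨i, s, t, rfl, rfl⟩
  · exact absurd h hab.ne
  · exact ⟨i, s, t, rfl, rfl, (G.smono i).lt_iff_lt.1 hab⟩

lemma three {a c b : Fin n} (hac : a < c) (hcb : c < b) (hg : G.g a = G.g b) :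
    ∃ i s r t, a = G.ι (i, s) ∧ c = G.ι (i, r) ∧ b = G.ι (i, t) ∧ s < r ∧ r < t := by
  obtain ⟨i, s, t, rfl, rfl, -⟩ := two (hac.trans hcb) hg
  obtain ⟨r, rfl⟩ := G.mem_grp (le_antisymm (G.mono hcb.le) (hg ▸ G.mono hac.le))
  exact ⟨i, s, r, t, rfl, rfl, rfl, (G.smono i).lt_iff_lt.1 hac, (G.smono i).lt_iff_lt.1 hcb⟩

lemma half1 (hw : Srt G H w) (h : ∀ i, PB (σ i) (σ' i)) {a b : Fin n} (hab : a < b)
    (hg : G.g a = G.g b) (h1 : dc G H w σ τ b < dc G H w σ τ a) :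
    ¬ Region (dc G H w σ τ) (dc G H w σ' τ') a b (dc G H w σ τ b) (dc G H w σ τ a) := by
  obtain ⟨i, s, t, rfl, rfl, hst⟩ := two hab hg
  exact fun hr => (h i).2.1 ⟨s, t, hst, lt_dc hw h1, region_col hw (g_dc ..) (g_dc ..) hr⟩

lemma half2 (hw : Srt G H w) (h : ∀ i, PB (σ i) (σ' i)) {a c b : Fin n} (hac : a < c)
    (hcb : c < b) (hg : G.g a = G.g b) (h1 : dc G H w σ τ a < dc G H w σ τ c)
    (h2 : dc G H w σ τ c < dc G H w σ τ b) :
    ¬ Region (dc G H w σ τ) (dc G H w σ' τ') a b (dc G H w σ τ a) (dc G H w σ τ b) := by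
  obtain ⟨i, s, r, t, rfl, rfl, rfl, hsr, hrt⟩ := three hac hcb hg
  exact fun hr => (h i).2.2.1 ⟨s, r, t, hsr, hrt, lt_dc hw h1, lt_dc hw h2,
    region_col hw (g_dc ..) (g_dc ..) hr⟩

lemma half3 (hw : Srt G H w) (h : ∀ i, PB (σ i) (σ' i)) {a b : Fin n} (hab : a < b)
    (hg : G.g a = G.g b) (h1 : dc G H w σ' τ' a < dc G H w σ' τ' b) :
    ¬ Region (dc G H w σ τ) (dc G H w σ' τ') a b (dc G H w σ' τ' a) (dc G H w σ' τ' b) := by
  obtain ⟨i, s, t, rfl, rfl, hst⟩ := two hab hg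
  exact fun hr => (h i).2.2.2.1 ⟨s, t, hst, lt_dc hw h1, region_col hw (g_dc ..) (g_dc ..) hr⟩

lemma half4 (hw : Srt G H w) (h : ∀ i, PB (σ i) (σ' i)) {a c b : Fin n} (hac : a < c)
    (hcb : c < b) (hg : G.g a = G.g b) (h1 : dc G H w σ' τ' b < dc G H w σ' τ' c)
    (h2 : dc G H w σ' τ' c < dc G H w σ' τ' a) :
    ¬ Region (dc G H w σ τ) (dc G H w σ' τ') a b (dc G H w σ' τ' b) (dc G H w σ' τ' a) := by
  obtain ⟨i, s, r, t, rfl, rfl, rfl, hsr, hrt⟩ := three hac hcb hg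
  exact fun hr => (h i).2.2.2.2 ⟨s, r, t, hsr, hrt, lt_dc hw h1, lt_dc hw h2,
    region_col hw (g_dc ..) (g_dc ..) hr⟩

lemma rle_half (hw : Srt G H w) (h : ∀ i, PB (σ i) (σ' i)) :
    rle (dc G H w σ τ) (dc G H w σ' τ) := by
  unfold dc
  rw [← mul_assoc, ← mul_assoc]
  refine rle_col G _ (fun i s t hst => H.lt_of_g ?_) fun i => (h i).1
  simp only [Perm.mul_apply, H.g_S_inv]
  exact hw i hst

theorem pb_dc (hw : Srt G H w) (hw' : Srt H G w⁻¹) (h : ∀ i, PB (σ i) (σ' i))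
    (h' : ∀ j, PB (τ j) (τ' j)) : PB (dc G H w σ τ) (dc G H w σ' τ') := by
  have iu := dc_inv G H w σ τ
  have iv := dc_inv G H w σ' τ'
  refine ⟨rle_trans (rle_half hw h) (rle_inv ?_), ?_, ?_, ?_, ?_⟩
  · rw [dc_inv, dc_inv]
    exact rle_half hw' h'
  · rintro ⟨a, b, hab, h1, hr⟩
    rcases (G.mono hab.le).eq_or_lt with e | e
    · exact half1 hw h hab e h1 hr
    rcases (H.mono h1.le).eq_or_lt with f | f
    · refine half1 (τ := σ) (τ' := σ') hw' h' h1 f ?_ ?_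
      · simpa [← iu] using hab
      · simpa [← iu, ← iv] using region_inv hr
    · exact corner e f hr
  · rintro ⟨a, c, b, hac, hcb, h1, h2, hr⟩
    rcases (G.mono (hac.trans hcb).le).eq_or_lt with e | e
    · exact half2 hw h hac hcb e h1 h2 hr
    rcases (H.mono (h1.trans h2).le).eq_or_lt with f | f
    · refine half2 (τ := σ) (τ' := σ') hw' h' h1 h2 f ?_ ?_ ?_
      · simpa [← iu] using hac
      · simpa [← iu] using hcb
      · simpa [← iu, ← iv] using region_inv hr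
    · exact corner e f hr
  · rintro ⟨a, b, hab, h1, hr⟩
    rcases (G.mono hab.le).eq_or_lt with e | e
    · exact half3 hw h hab e h1 hr
    rcases (H.mono h1.le).eq_or_lt with f | f
    · refine half3 (τ := σ) (τ' := σ') hw' h' h1 f ?_ ?_
      · simpa [← iv] using hab
      · simpa [← iu, ← iv] using region_inv hr
    · exact corner e f hr
  · rintro ⟨a, c, b, hac, hcb, h1, h2, hr⟩
    rcases (G.mono (hac.trans hcb).le).eq_or_lt with e | e
    · exact half4 hw h hac hcb e h1 h2 hr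
    rcases (H.mono (h1.trans h2).le).eq_or_lt with f | f
    · refine half4 (τ := σ) (τ' := σ') hw' h' h1 h2 f ?_ ?_ ?_
      · simpa [← iv] using hac
      · simpa [← iv] using hcb
      · simpa [← iu, ← iv] using region_inv hr
    · exact corner e f hr

end Pool.Agent.Lib.MP_0fb7f5_co.Grow
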