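import Pool.Agent.Lib.MP_0fb7f5_co.GrowA

/-!
Lower bounds for the number of boolean pairs.
-/

set_option autoImplicit false

namespace Pool.Agent.Lib.MP_0fb7f5_co.Grow

open Finset Equiv Pat

variable {n p k q l : ℕ}

open Classical in
/-- Boolean pairs. -/
noncomputable def BP (n : ℕ) : Finset (Perm (Fin n) × Perm (Fin n)) :=
  univ.filter fun x => PB x.1 x.2

lemma mem_BP {x : Perm (Fin n) × Perm (Fin n)} : x ∈ BP n ↔ PB x.1 x.2 := by simp [BP]

/-- The number of boolean pairs. -/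
noncomputable def NB (n : ℕ) : ℕ := (BP n).card

open Classical in
/-- Minimal double coset representatives with trivial intersection. -/
noncomputable def W0 (G : Grp n p k) (H : Grp n q l) : Finset (Perm (Fin n)) :=
  univ.filter fun w => Srt G H w ∧ Srt H G w⁻¹

lemma mem_W0 {G : Grp n p k} {H : Grp n q l} {w : Perm (Fin n)} :
    w ∈ W0 G H ↔ Srt G H w ∧ Srt H G w⁻¹ := by simp [W0]

variable {G : Grp n p k} {H : Grp n q l}

lemma dc_uniq {w w' : Perm (Fin n)} {σ σ' : Fin p → Perm (Fin k)} {τ τ' : Fin q → Perm (Fin l)}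
    (hw : Srt G H w) (hw' : Srt G H w') (h : dc G H w σ τ = dc G H w' σ' τ') : σ = σ' := by
  funext i
  have e : ∀ s, H.g (w (G.ι (i, σ i s))) = H.g (w' (G.ι (i, σ' i s))) := fun s => by
    rw [← g_dc G H w σ τ, h, g_dc]
  have m : Monotone (σ' i * (σ i)⁻¹ : Perm (Fin k)) := by
    intro s t hst
    rw [← (hw' i).le_iff_le]
    simp only [Perm.mul_apply, ← e]
    simpa using (hw i).monotone hst
  exact (mul_inv_eq_one.1 ((Perm.monotone_iff _).1 m)).symm

lemma dc_inj {w w' : Perm (Fin n)} {σ σ' : Fin p → Perm (Fin k)} {τ τ' : Fin q → Perm (Fin l)}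
    (hw : w ∈ W0 G H) (hw' : w' ∈ W0 G H) (h : dc G H w σ τ = dc G H w' σ' τ') :
    w = w' ∧ σ = σ' ∧ τ = τ' := by
  rw [mem_W0] at hw hw'
  obtain rfl := dc_uniq hw.1 hw'.1 h
  have h2 := congrArg (·⁻¹) h
  simp only [dc_inv] at h2
  obtain rfl := dc_uniq hw.2 hw'.2 h2
  exact ⟨by simpa [dc] using h, rfl, rfl⟩

theorem prod_le (G : Grp n p k) (H : Grp n q l) :
    (W0 G H).card * (NB k ^ p * NB l ^ q) ≤ NB n := by
  classical
  have e : (W0 G H ×ˢ (Fintype.piFinset fun _ : Fin p => BP k) ×ˢ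
      Fintype.piFinset fun _ : Fin q => BP l).card = (W0 G H).card * (NB k ^ p * NB l ^ q) := by
    simp [NB, Fintype.card_piFinset]
  rw [← e]
  refine card_le_card_of_injOn (fun x => (dc G H x.1 (fun i => (x.2.1 i).1) fun j => (x.2.2 j).1,
    dc G H x.1 (fun i => (x.2.1 i).2) fun j => (x.2.2 j).2)) ?_ ?_
  · rintro ⟨w, a, b⟩ hx
    simp only [coe_product, Set.mem_prod, mem_coe, Fintype.mem_piFinset, mem_BP, mem_W0] at hx ⊢
    exact pb_dc hx.1.1 hx.1.2 hx.2.1 hx.2.2
  · rintro ⟨w, a, b⟩ hx ⟨w', a', b'⟩ hx' h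
    simp only [coe_product, Set.mem_prod, mem_coe] at hx hx'
    obtain ⟨h1, h2⟩ := Prod.ext_iff.1 h
    obtain ⟨e1, e2, e3⟩ := dc_inj hx.1 hx'.1 h1
    obtain ⟨-, e4, e5⟩ := dc_inj hx.1 hx'.1 h2
    refine Prod.ext e1 (Prod.ext (funext fun i => ?_) (funext fun j => ?_))
    · exact Prod.ext (congrFun e2 i) (congrFun e4 i)
    · exact Prod.ext (congrFun e3 j) (congrFun e5 j)

/-- No box contains two points. -/
def Simple (G : Grp n p k) (H : Grp n q l) (u : Perm (Fin n)) : Prop :=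
  ∀ a b, G.g a = G.g b → H.g (u a) = H.g (u b) → a = b

lemma sort_col {u : Perm (Fin n)} (hu : Simple G H u) :
    ∃ σ, Srt G H (u * G.S σ) ∧ Simple H G (u * G.S σ)⁻¹ := by
  refine ⟨fun i => Tuple.sort fun t => H.g (u (G.ι (i, t))), fun i => ?_, fun a b h1 h2 => ?_⟩
  · simp only [Perm.mul_apply, G.S_ι]
    refine (Tuple.monotone_sort fun t => H.g (u (G.ι (i, t)))).strictMono_of_injective ?_
    intro s t hst
    have := hu _ _ (G.same i _ _) hst
    exact (Tuple.sort _).injective ((G.smono i).injective this)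
  · simp only [mul_inv_rev, Perm.mul_apply, G.g_S_inv] at h2
    exact u⁻¹.injective (hu _ _ h2 (by simpa using h1))

lemma dc_surj {u : Perm (Fin n)} (hu : Simple G H u) :
    ∃ w ∈ W0 G H, ∃ σ τ, dc G H w σ τ = u := by
  obtain ⟨σ, h1, h2⟩ := sort_col hu
  obtain ⟨τ, h3, -⟩ := sort_col h2
  refine ⟨(H.S τ)⁻¹ * (u * G.S σ), mem_W0.2 ⟨fun i => ?_, by simpa using h3⟩,
    fun i => (σ i)⁻¹, fun j => (τ j)⁻¹, ?_⟩
  · have := h1 i
    simp only [Perm.mul_apply, H.g_S_inv] at this ⊢
    exact this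
  · simp [dc, ← Grp.S_inv, mul_assoc]

open Classical in
lemma simple_le (G : Grp n p k) (H : Grp n q l) :
    (univ.filter (Simple G H)).card ≤ (W0 G H).card * (k.factorial ^ p * l.factorial ^ q) := by
  have e : (W0 G H ×ˢ (univ : Finset ((Fin p → Perm (Fin k)) × (Fin q → Perm (Fin l))))).card =
      (W0 G H).card * (k.factorial ^ p * l.factorial ^ q) := by
    simp [Fintype.card_perm]
  rw [← e]
  refine card_le_card_of_surjOn (fun x => dc G H x.1 x.2.1 x.2.2) fun u hu => ?_
  obtain ⟨w, hw, σ, τ, h⟩ := dc_surj (G := G) (H := H) (u := u) (by simpa using hu)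
  exact ⟨(w, σ, τ), by simpa using hw, h⟩

lemma fiber_le (G : Grp n p k) (hk : 1 ≤ k) (x : Fin n) :
    (univ.filter fun y => G.g y = G.g x).card ≤ k := by
  by_cases hx : x ∈ Set.range G.ι
  · obtain ⟨⟨i, s⟩, rfl⟩ := hx
    refine (card_le_card (t := univ.image fun t => G.ι (i, t)) fun y hy => ?_).trans
      (card_image_le.trans (by simp))
    obtain ⟨t, rfl⟩ := G.mem_grp (mem_filter.1 hy).2
    exact mem_image.2 ⟨t, mem_univ _, rfl⟩
  · refine le_trans (card_le_one.2 fun a ha b hb => ?_) hk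
    have f : ∀ c, G.g c = G.g x → c = x := fun c hc => by
      rcases G.sep _ _ hc with h | ⟨i, s, t, -, h⟩
      · exact h
      · exact absurd ⟨_, h.symm⟩ hx
    rw [f a (mem_filter.1 ha).2, f b (mem_filter.1 hb).2]

open Classical in
/-- No box in the first `t` columns contains two points. -/
noncomputable def PT (G : Grp n p k) (H : Grp n q l) (t : ℕ) : Finset (Perm (Fin n)) :=
  univ.filter fun u => ∀ a b : Fin n, a.1 < t → b.1 < t → G.g a = G.g b →
    H.g (u a) = H.g (u b) → a = b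

lemma mem_PT {t : ℕ} {u : Perm (Fin n)} : u ∈ PT G H t ↔ ∀ a b : Fin n, a.1 < t → b.1 < t →
    G.g a = G.g b → H.g (u a) = H.g (u b) → a = b := by simp [PT]

lemma PT_step (hk : 1 ≤ k) (hl : 1 ≤ l) (t : Fin n) :
    (PT G H t).card * (n - k * l - t) ≤ (PT G H (t + 1)).card * (n - t) := by
  classical
  set bad : Perm (Fin n) → Finset (Fin n) := fun u =>
    (univ.filter fun a => G.g a = G.g t).biUnion fun a =>
      (univ.filter fun y => H.g y = H.g (u a)).image fun y => u⁻¹ y with hbad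
  have hb : ∀ u, (bad u).card ≤ k * l := fun u =>
    (card_biUnion_le_card_mul _ _ l fun a _ => card_image_le.trans (fiber_le H hl _)).trans
      (Nat.mul_le_mul_right _ (fiber_le G hk t))
  have h1 : (PT G H t).card * (n - k * l - t) ≤
      ((PT G H t).sigma fun u => Ici t \ bad u).card := by
    rw [card_sigma, ← smul_eq_mul]
    refine card_nsmul_le_sum _ _ _ fun u _ => ?_
    have := le_card_sdiff (bad u) (Ici t)
    have := hb u
    rw [Fin.card_Ici] at *
    omega
  refine h1.trans ?_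
  rw [← Fin.card_Ici t, ← card_product]
  refine card_le_card_of_injOn (fun x => (x.1 * swap t x.2, x.2)) ?_ ?_
  · rintro ⟨u, c⟩ hx
    simp only [coe_sigma, Set.mem_sigma_iff, mem_coe, mem_sdiff, mem_Ici, mem_PT] at hx
    simp only [coe_product, Set.mem_prod, mem_coe, mem_Ici, mem_PT]
    obtain ⟨hu, hc, hn⟩ := hx
    refine ⟨?_, hc⟩
    have fix : ∀ a : Fin n, a.1 < t → (u * swap t c) a = u a := fun a ha => by
      have ha' : a < t := ha
      rw [Perm.mul_apply, swap_apply_of_ne_of_ne ha'.ne (ha'.trans_le hc).ne]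
    have key : ∀ a : Fin n, G.g a = G.g t → H.g (u a) ≠ H.g (u c) := fun a h1 h2 =>
      hn (mem_biUnion.2 ⟨a, by simpa using h1, mem_image.2 ⟨u c, by simpa using h2.symm, by simp⟩⟩)
    intro a b ha hb' g1 g2
    rcases Nat.lt_succ_iff_lt_or_eq.1 ha with ha | ha <;>
      rcases Nat.lt_succ_iff_lt_or_eq.1 hb' with hb' | hb'
    · rw [fix a ha, fix b hb'] at g2
      exact hu a b ha hb' g1 g2
    · obtain rfl : b = t := Fin.ext hb'
      rw [fix a ha, Perm.mul_apply, swap_apply_left] at g2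
      exact absurd g2 (key a g1)
    · obtain rfl : a = t := Fin.ext ha
      rw [fix b hb', Perm.mul_apply, swap_apply_left] at g2
      exact absurd g2.symm (key b g1.symm)
    · exact Fin.ext (ha.trans hb'.symm)
  · rintro ⟨u, c⟩ - ⟨u', c'⟩ - h
    obtain ⟨h1, h2⟩ := Prod.ext_iff.1 h
    dsimp only at h1 h2
    subst h2
    rw [mul_right_cancel h1]

lemma PT_ge (hk : 1 ≤ k) (hl : 1 ≤ l) (t : ℕ) (ht : t ≤ n) :
    n.factorial * (n - k * l).descFactorial t ≤ (PT G H t).card * n.descFactorial t := by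
  induction t with
  | zero => simp [PT, Fintype.card_perm]
  | succ t ih =>
    have h1 := ih (by omega)
    have h2 := PT_step (G := G) (H := H) hk hl ⟨t, ht⟩
    rw [Nat.descFactorial_succ, Nat.descFactorial_succ]
    dsimp only at h2
    calc n.factorial * ((n - k * l - t) * (n - k * l).descFactorial t)
        = (n - k * l - t) * (n.factorial * (n - k * l).descFactorial t) := by ring
      _ ≤ (n - k * l - t) * ((PT G H t).card * n.descFactorial t) := Nat.mul_le_mul_left _ h1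
      _ = ((PT G H t).card * (n - k * l - t)) * n.descFactorial t := by ring
      _ ≤ ((PT G H (t + 1)).card * (n - t)) * n.descFactorial t := Nat.mul_le_mul_right _ h2
      _ = _ := by ring

/-- The first `p * k` points in groups of size `k`. -/
def std (n p k : ℕ) (h : p * k ≤ n) : Grp n p k where
  ι := ⟨fun x => ⟨x.1 * k + x.2, by
      have h1 : (x.1.1 + 1) * k ≤ p * k := Nat.mul_le_mul_right _ x.1.2
      have := x.2.2
      rw [Nat.add_mul] at h1
      omega⟩, fun x y hxy => by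
      have h1 : x.1.1 * k + x.2.1 = y.1.1 * k + y.2.1 := congrArg Fin.val hxy
      have h0 : 0 < k := Nat.lt_of_le_of_lt (Nat.zero_le _) x.2.2
      have h2 := congrArg (· / k) h1
      have h3 := congrArg (· % k) h1
      simp only [mul_comm _ k, Nat.mul_add_div h0, Nat.div_eq_of_lt x.2.2, Nat.div_eq_of_lt y.2.2,
        Nat.mul_add_mod, Nat.mod_eq_of_lt x.2.2, Nat.mod_eq_of_lt y.2.2] at h2 h3
      exact Prod.ext (Fin.ext h2) (Fin.ext h3)⟩
  g x := if x.1 < p * k then x.1 / k else x.1 + p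
  mono x y hxy := by
    have h1 : x.1 ≤ y.1 := hxy
    have h2 : x.1 / k ≤ y.1 / k := Nat.div_le_div_right h1
    have h3 : x.1 / k ≤ x.1 := Nat.div_le_self _ _
    dsimp only
    split_ifs <;> omega
  smono i s t hst := by
    change i.1 * k + s.1 < i.1 * k + t.1
    exact Nat.add_lt_add_left hst _
  same i s t := by
    have h1 : (i.1 + 1) * k ≤ p * k := Nat.mul_le_mul_right _ i.2
    have h0 : 0 < k := Nat.lt_of_le_of_lt (Nat.zero_le _) s.2
    have := s.2
    have := t.2
    rw [Nat.add_mul] at h1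
    change (if i.1 * k + s.1 < p * k then (i.1 * k + s.1) / k else _) =
      if i.1 * k + t.1 < p * k then (i.1 * k + t.1) / k else _
    rw [if_pos (by omega), if_pos (by omega)]
    simp only [mul_comm _ k, Nat.mul_add_div h0, Nat.div_eq_of_lt s.2, Nat.div_eq_of_lt t.2]
  sep x y hxy := by
    have f : ∀ z : ℕ, z < p * k → z / k < p := fun z hz =>
      Nat.div_lt_of_lt_mul (by rwa [mul_comm] at hz)
    by_cases hx : x.1 < p * k <;> by_cases hy : y.1 < p * k <;> simp only [hx, hy, if_true, if_false] at hxy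
    · have h0 : 0 < k := Nat.pos_of_ne_zero (by rintro rfl; simp at hx)
      refine Or.inr ⟨⟨x.1 / k, f _ hx⟩, ⟨x.1 % k, Nat.mod_lt _ h0⟩, ⟨y.1 % k, Nat.mod_lt _ h0⟩,
        Fin.ext (Nat.div_add_mod' _ _).symm, Fin.ext ?_⟩
      change y.1 = x.1 / k * k + y.1 % k
      rw [hxy]
      exact (Nat.div_add_mod' _ _).symm
    · have := f _ hx
      omega
    · have := f _ hy
      omega
    · exact Or.inl (Fin.ext (by omega))

lemma std_ι (h : p * k ≤ n) (i : Fin p) (s : Fin k) :
    ((std n p k h).ι (i, s)).1 = i.1 * k + s.1 := rfl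

lemma std_lt (h : p * k ≤ n) (i : Fin p) (s : Fin k) : ((std n p k h).ι (i, s)).1 < p * k := by
  have h1 : (i.1 + 1) * k ≤ p * k := Nat.mul_le_mul_right _ i.2
  have := s.2
  rw [Nat.add_mul] at h1
  rw [std_ι]
  omega

lemma std_g (h : p * k ≤ n) (i : Fin p) (s : Fin k) :
    (std n p k h).g ((std n p k h).ι (i, s)) = i.1 := by
  have h0 : 0 < k := Nat.lt_of_le_of_lt (Nat.zero_le _) s.2
  change (if _ then _ else _) = _
  rw [if_pos (std_lt h i s), std_ι]
  simp only [mul_comm _ k, Nat.mul_add_div h0, Nat.div_eq_of_lt s.2, add_zero]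

lemma std_mem (h : p * k ≤ n) {x : Fin n} (hx : x.1 < p * k) :
    ∃ i s, x = (std n p k h).ι (i, s) := by
  have h0 : 0 < k := Nat.pos_of_ne_zero (by rintro rfl; simp at hx)
  exact ⟨⟨x.1 / k, Nat.div_lt_of_lt_mul (by rwa [mul_comm] at hx)⟩, ⟨x.1 % k, Nat.mod_lt _ h0⟩,
    Fin.ext (Nat.div_add_mod' _ _).symm⟩

lemma grid_srt {a b : ℕ} (h : a * b ≤ n) (h' : b * a ≤ n) (w : Perm (Fin n))
    (hw : ∀ i s, w ((std n a b h).ι (i, s)) = (std n b a h').ι (s, i)) :
    Srt (std n a b h) (std n b a h') w := by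
  intro i s t hst
  simp only [hw, std_g]
  exact hst

/-- Supermultiplicativity. -/
theorem grid_le {a b : ℕ} (h : a * b ≤ n) : NB b ^ a * NB a ^ b ≤ NB n := by
  have h' : b * a ≤ n := by rwa [mul_comm]
  obtain ⟨w, hw⟩ := Equiv.Perm.exists_extending_pair _ _ (std n a b h).ι.injective
    ((std n b a h').ι.injective.comp Prod.swap_injective)
  have h1 : w ∈ W0 (std n a b h) (std n b a h') := by
    refine mem_W0.2 ⟨grid_srt h h' w fun i s => hw (i, s), grid_srt h' h _ fun i s => ?_⟩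
    rw [Perm.inv_eq_iff_eq]
    exact (hw (s, i)).symm
  exact le_trans (Nat.le_mul_of_pos_left _ (card_pos.2 ⟨w, h1⟩)) (prod_le _ _)

/-- The doubling inequality. -/
theorem double_le (hk : 1 ≤ k) (p : ℕ) :
    (p * k).factorial * NB k ^ (2 * p + k) ≤ NB ((p + k) * k) * k.factorial ^ (2 * p + k) := by
  classical
  have h : p * k ≤ (p + k) * k := Nat.mul_le_mul_right _ (by omega)
  set G := std _ p k h
  set H := std _ (p + k) k le_rfl
  have h1 := PT_ge (G := G) (H := H) hk hk (p * k) h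
  have e : (p + k) * k - k * k = p * k := by rw [Nat.add_mul]; omega
  rw [e, Nat.descFactorial_self] at h1
  have h2 : (p * k).factorial ≤ (PT G H (p * k)).card := by
    have h3 : ((p + k) * k).descFactorial (p * k) ≤ ((p + k) * k).factorial := by
      rw [← Nat.factorial_mul_descFactorial h]
      exact Nat.le_mul_of_pos_left _ (Nat.factorial_pos _)
    have h4 := h1.trans (Nat.mul_le_mul_left _ h3)
    rw [mul_comm] at h4
    exact Nat.le_of_mul_le_mul_right h4 (Nat.factorial_pos _)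
  have h5 : (PT G H (p * k)).card ≤ (univ.filter (Simple G H)).card := by
    refine card_le_card fun u hu => mem_filter.2 ⟨mem_univ _, fun a b g1 g2 => ?_⟩
    rcases G.sep _ _ g1 with h6 | ⟨i, s, t, rfl, rfl⟩
    · exact h6
    · exact mem_PT.1 hu _ _ (std_lt h i s) (std_lt h i t) g1 g2
  have h6 := h2.trans (h5.trans (simple_le G H))
  have h7 := prod_le G H
  rw [← pow_add, show p + (p + k) = 2 * p + k by ring] at h6 h7
  calc (p * k).factorial * NB k ^ (2 * p + k)
      ≤ (W0 G H).card * k.factorial ^ (2 * p + k) * NB k ^ (2 * p + k) :=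
        Nat.mul_le_mul_right _ h6
    _ = (W0 G H).card * NB k ^ (2 * p + k) * k.factorial ^ (2 * p + k) := by ring
    _ ≤ _ := Nat.mul_le_mul_right _ h7

lemma pb_self (u : Perm (Fin n)) : PB u u := by
  refine ⟨rle_refl u, ?_, ?_, ?_, ?_⟩
  · rintro ⟨a, b, h1, h2, h⟩
    exact lt_irrefl _ (h a (u b) le_rfl h1 le_rfl h2)
  · rintro ⟨a, c, b, h1, h2, h3, h4, h⟩
    exact lt_irrefl _ (h a (u a) le_rfl (h1.trans h2) le_rfl (h3.trans h4))
  · rintro ⟨a, b, h1, h2, h⟩
    exact lt_irrefl _ (h a (u a) le_rfl h1 le_rfl h2)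
  · rintro ⟨a, c, b, h1, h2, h3, h4, h⟩
    exact lt_irrefl _ (h a (u b) le_rfl (h1.trans h2) le_rfl (h3.trans h4))

lemma NB_pos (n : ℕ) : 1 ≤ NB n := card_pos.2 ⟨(1, 1), mem_BP.2 (pb_self _)⟩

lemma NB_le (n : ℕ) : NB n ≤ n.factorial ^ 2 := by
  refine (card_le_univ _).trans ?_
  simp [Fintype.card_perm, sq]

lemma NB_two : 3 ≤ NB 2 := by
  have h : PB (1 : Perm (Fin 2)) (swap 0 1) := by
    refine ⟨?_, ?_, ?_, ?_, ?_⟩
    · unfold rle
      decide
    · rintro ⟨a, b, h1, h2, -⟩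
      revert a b
      decide
    · rintro ⟨a, c, b, h1, h2, -⟩
      revert a c b
      decide
    · rintro ⟨a, b, h1, h2, -⟩
      revert a b
      decide
    · rintro ⟨a, c, b, h1, h2, -⟩
      revert a c b
      decide
  have e : ({(1, 1), (swap 0 1, swap 0 1), (1, swap 0 1)} :
    Finset (Perm (Fin 2) × Perm (Fin 2))).card = 3 := by decide
  rw [← e]
  refine card_le_card fun x hx => mem_BP.2 ?_
  simp only [mem_insert, mem_singleton] at hx
  rcases hx with rfl | rfl | rfl
  exacts [pb_self _, pb_self _, h]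

end Pool.Agent.Lib.MP_0fb7f5_co.Grow
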