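import Pool.Agent.Lib.MP_0fb7f5_co.GrowB

/-!
Upper bound for the number of boolean pairs.
-/

set_option autoImplicit false

namespace Pool.Agent.Lib.MP_0fb7f5_co.Grow

open Finset Equiv Pat

open Classical in
lemma avoid_le {X T : Type} [Fintype X] (φ : X → Fin 6) (D : T → Finset X) (S : Finset T)
    (hd : ∀ s ∈ S, ∀ t ∈ S, s ≠ t → Disjoint (D s) (D t)) (hM : ∀ s ∈ S, (D s).card ≤ 16) :
    ((univ.filter fun f : X → Fin 6 => ∀ s ∈ S, ∃ x ∈ D s, f x ≠ φ x).card : ℝ) ≤
      6 ^ Fintype.card X * (1 - 1 / 6 ^ 16) ^ S.card := by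
  induction S using Finset.induction_on with
  | empty => simp
  | insert t S ht ih =>
    have ih' := ih (fun a ha b hb => hd a (mem_insert_of_mem ha) b (mem_insert_of_mem hb))
      fun a ha => hM a (mem_insert_of_mem ha)
    set A := univ.filter fun f : X → Fin 6 => ∀ s ∈ S, ∃ x ∈ D s, f x ≠ φ x with hA
    have e : (univ.filter fun f : X → Fin 6 => ∀ s ∈ insert t S, ∃ x ∈ D s, f x ≠ φ x) =
        A.filter fun f => ¬ ∀ x ∈ D t, f x = φ x := by
      ext f
      simp [hA, and_comm]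
    have h1 := card_filter_add_card_filter_not (s := A) fun f => ∀ x ∈ D t, f x = φ x
    have h2 : A.card ≤ ((A.filter fun f => ∀ x ∈ D t, f x = φ x) ×ˢ
        (univ : Finset (D t → Fin 6))).card := by
      refine card_le_card_of_injOn
        (fun f => (fun x => if x ∈ D t then φ x else f x, fun x => f x)) ?_ ?_
      · intro f hf
        simp only [hA, coe_product, Set.mem_prod, mem_coe, mem_filter, mem_univ, true_and,
          and_true] at hf ⊢
        refine ⟨fun s hs => ?_, fun x hx => if_pos hx⟩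
        obtain ⟨x, hx, h⟩ := hf s hs
        have : x ∉ D t := fun hx' => disjoint_left.1 (hd s (mem_insert_of_mem hs) t
          (mem_insert_self _ _) (by rintro rfl; exact ht hs)) hx hx'
        exact ⟨x, hx, by rwa [if_neg this]⟩
      · intro f _ g _ h
        obtain ⟨h3, h4⟩ := Prod.ext_iff.1 h
        funext x
        by_cases hx : x ∈ D t
        · exact congrFun h4 ⟨x, hx⟩
        · simpa [hx] using congrFun h3 x
    rw [card_product, card_univ, Fintype.card_fun, Fintype.card_fin, Fintype.card_coe] at h2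
    have h3 := h2.trans (Nat.mul_le_mul_left _
      (Nat.pow_le_pow_right (by norm_num) (hM t (mem_insert_self _ _))))
    rw [e, card_insert_of_notMem ht, pow_succ, ← mul_assoc]
    refine le_trans ?_ (mul_le_mul_of_nonneg_right ih' (by norm_num))
    have h4 : (A.card : ℝ) ≤ (A.filter fun f => ∀ x ∈ D t, f x = φ x).card * 6 ^ 16 := by
      exact_mod_cast h3
    have h5 : ((A.filter fun f => ∀ x ∈ D t, f x = φ x).card : ℝ) +
        (A.filter fun f => ¬ ∀ x ∈ D t, f x = φ x).card = A.card := by exact_mod_cast h1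
    norm_num at h4 h5 ⊢
    linarith

variable {n N : ℕ}

lemma ias (w : Perm (Fin n)) (x : Fin n) : w⁻¹ (w x) = x := w.symm_apply_apply x

lemma ais (w : Perm (Fin n)) (x : Fin n) : w (w⁻¹ x) = x := w.apply_symm_apply x

/-- The box of an increasing sequence of five points of `U` contains a point of `V`. -/
def Star (U V : Fin N → ℕ) : Prop :=
  ∀ a : Fin 5 → Fin N, StrictMono a → StrictMono (U ∘ a) →
    ∃ b, a 0 < b ∧ b < a 4 ∧ U (a 0) < V b ∧ V b < U (a 4)

lemma rk_box (w : Perm (Fin n)) {i₁ i₂ j₁ j₂ : Fin n} (hi : i₁ ≤ i₂) (hj : j₁ ≤ j₂) :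
    rk w i₂ j₂ + rk w i₁ j₁ = rk w i₁ j₂ + rk w i₂ j₁ +
      ∑ a, if i₁ < a ∧ a ≤ i₂ ∧ j₁ < w a ∧ w a ≤ j₂ then 1 else 0 := by
  simp only [rk_eq_sum, ← sum_add_distrib]
  refine sum_congr rfl fun a _ => ?_
  simp only [Fin.le_def, Fin.lt_def] at *
  split_ifs <;> omega

lemma star_of_pb {u v : Perm (Fin n)} (h : PB u v) :
    Star (fun a => (u a).1) fun a => (v a).1 := by
  intro a ha hu
  have hu' : StrictMono fun r => u (a r) := fun r s hrs => hu hrs
  have z : ∀ r s t : Fin 5, r < s → s < t → ∃ i j, a r ≤ i ∧ i < a t ∧ u (a r) ≤ j ∧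
      j < u (a t) ∧ rk u i j ≤ rk v i j := by
    intro r s t h1 h2
    by_contra hc
    refine h.2.2.1 ⟨a r, a s, a t, ha h1, ha h2, hu' h1, hu' h2, fun i j b1 b2 b3 b4 => ?_⟩
    by_contra h5
    exact hc ⟨i, j, b1, b2, b3, b4, not_lt.1 h5⟩
  obtain ⟨i₁, j₁, a1, a2, a3, a4, a5⟩ := z 0 1 2 (by decide) (by decide)
  obtain ⟨i₂, j₂, b1, b2, b3, b4, b5⟩ := z 2 3 4 (by decide) (by decide)
  have e1 := rk_box u (a2.le.trans b1) (a4.le.trans b3)
  have e2 := rk_box v (a2.le.trans b1) (a4.le.trans b3)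
  have r1 := h.1 i₁ j₂
  have r2 := h.1 i₂ j₁
  have p1 : 1 ≤ ∑ a, if i₁ < a ∧ a ≤ i₂ ∧ j₁ < u a ∧ u a ≤ j₂ then 1 else 0 := by
    refine le_trans ?_ (single_le_sum (fun _ _ => Nat.zero_le _) (mem_univ (a 2)))
    rw [if_pos ⟨a2, b1, a4, b3⟩]
  have p2 : (∑ a, if i₁ < a ∧ a ≤ i₂ ∧ j₁ < v a ∧ v a ≤ j₂ then 1 else 0) ≠ 0 := by omega
  obtain ⟨b, -, hb⟩ := exists_ne_zero_of_sum_ne_zero p2
  have hb' : i₁ < b ∧ b ≤ i₂ ∧ j₁ < v b ∧ v b ≤ j₂ := by
    by_contra hc
    exact hb (if_neg hc)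
  exact ⟨b, a1.trans_lt hb'.1, hb'.2.1.trans_lt b2, a3.trans_lt hb'.2.2.1, hb'.2.2.2.trans_lt b4⟩

open Classical in
/-- Pairs of arrangements of two given sets of values with the box property. -/
noncomputable def SP (e e' : Fin N → ℕ) : Finset (Perm (Fin N) × Perm (Fin N)) :=
  univ.filter fun x => Star (e ∘ x.1) (e' ∘ x.2)

lemma mem_SP {e e' : Fin N → ℕ} {x : Perm (Fin N) × Perm (Fin N)} :
    x ∈ SP e e' ↔ Star (e ∘ x.1) (e' ∘ x.2) := by simp [SP]

/-- Six groups of columns. -/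
def G6 (N : ℕ) : Grp (6 * N) 6 N := std (6 * N) 6 N le_rfl

lemma G6_mem (x : Fin (6 * N)) : ∃ i s, x = (G6 N).ι (i, s) := std_mem le_rfl x.2

lemma G6_g (i : Fin 6) (s : Fin N) : (G6 N).g ((G6 N).ι (i, s)) = i.1 := std_g le_rfl i s

lemma G6_lt (x : Fin (6 * N)) : (G6 N).g x < 6 := by
  obtain ⟨i, s, rfl⟩ := G6_mem x
  rw [G6_g]
  exact i.2

/-- The group of the column of a given row. -/
def lab (w : Perm (Fin (6 * N))) (y : Fin (6 * N)) : Fin 6 := ⟨(G6 N).g (w⁻¹ y), G6_lt _⟩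

/-- Increasing inside every group. -/
def Inc (w : Perm (Fin (6 * N))) : Prop := ∀ i, StrictMono fun t => w ((G6 N).ι (i, t))

lemma lab_inj {w w' : Perm (Fin (6 * N))} (hw : Inc w) (hw' : Inc w') (h : lab w = lab w') :
    w = w' := by
  have key : ∀ (a b : Perm (Fin (6 * N))), lab a = lab b → ∀ i,
      Set.range (fun t => a ((G6 N).ι (i, t))) ⊆ Set.range fun t => b ((G6 N).ι (i, t)) := by
    rintro a b hab i _ ⟨t, rfl⟩
    have h1 : (G6 N).g (a⁻¹ (a ((G6 N).ι (i, t)))) = (G6 N).g (b⁻¹ (a ((G6 N).ι (i, t)))) :=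
      congrArg Fin.val (congrFun hab _)
    rw [ias] at h1
    obtain ⟨s, hs⟩ := (G6 N).mem_grp h1.symm
    exact ⟨s, by simp [← hs]⟩
  ext x
  obtain ⟨i, s, rfl⟩ := G6_mem x
  have := ((hw i).range_inj (hw' i)).1 ((key _ _ h i).antisymm (key _ _ h.symm i))
  exact congrArg Fin.val (congrFun this s)

lemma inc_sort (u : Perm (Fin (6 * N))) : ∃ w σ, Inc w ∧ w * (G6 N).S σ = u := by
  refine ⟨u * (G6 N).S fun i => Tuple.sort fun t => u ((G6 N).ι (i, t)),
    fun i => (Tuple.sort fun t => u ((G6 N).ι (i, t)))⁻¹, fun i => ?_, ?_⟩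
  · simp only [Perm.mul_apply, Grp.S_ι]
    refine (Tuple.monotone_sort fun t => u ((G6 N).ι (i, t))).strictMono_of_injective ?_
    intro s t hst
    exact (Tuple.sort _).injective (((G6 N).smono i).injective (u.injective hst))
  · simp [← Grp.S_inv]

/-- Rows in blocks of five. -/
def blk (k : Fin N) (r : Fin 5) : Fin (6 * N) := ⟨5 * k + r, by omega⟩

open Classical in
/-- Admissible pairs of coset representatives. -/
noncomputable def Adm (e e' : Fin (6 * N) → ℕ) : Finset (Perm (Fin (6 * N)) × Perm (Fin (6 * N))) :=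
  univ.filter fun x => Inc x.1 ∧ Inc x.2 ∧
    ∃ σ σ', Star (e ∘ (x.1 * (G6 N).S σ :)) (e' ∘ (x.2 * (G6 N).S σ' :))

lemma adm_le {e e' : Fin (6 * N) → ℕ} (he : StrictMono e) :
    ((Adm e e').card : ℝ) ≤ (6 ^ 12 * (1 - 1 / 6 ^ 17)) ^ N := by
  classical
  set W : Fin N → Finset (Fin (6 * N)) := fun k =>
    univ.filter fun y => e (blk k 0) < e' y ∧ e' y < e (blk k 4) with hW
  have dW : ∀ s t, s ≠ t → Disjoint (W s) (W t) := by
    have : ∀ s t, s < t → Disjoint (W s) (W t) := fun s t hst => disjoint_left.2 fun y h1 h2 => by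
      have h3 : e (blk s 4) < e (blk t 0) := he (by
        change 5 * s.1 + 4 < 5 * t.1 + 0
        have : s.1 < t.1 := hst
        omega)
      simp only [hW, mem_filter] at h1 h2
      omega
    intro s t hst
    rcases lt_or_gt_of_ne hst with h | h
    exacts [this s t h, (this t s h).symm]
  set S := univ.filter fun k => (W k).card ≤ 11 with hS
  have hN : N ≤ 2 * S.card := by
    have h1 := card_filter_add_card_filter_not (s := univ) fun k => (W k).card ≤ 11
    have h2 : (univ.filter fun k => ¬ (W k).card ≤ 11).card • 12 ≤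
        ∑ k ∈ univ.filter fun k => ¬ (W k).card ≤ 11, (W k).card :=
      card_nsmul_le_sum _ _ _ fun k hk => by
        have := (mem_filter.1 hk).2
        omega
    rw [← card_biUnion fun s _ t _ h => dW s t h] at h2
    have h3 := h2.trans (card_le_univ _)
    simp only [Fintype.card_fin, smul_eq_mul, card_univ] at h1 h3
    rw [← hS] at h1
    omega
  have hb : ∀ (k : Fin N) (r : Fin 5) (k' : Fin N) (r' : Fin 5), blk k r = blk k' r' → k = k' := by
    intro k r k' r' h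
    have h1 : 5 * k.1 + r.1 = 5 * k'.1 + r'.1 := congrArg Fin.val h
    exact Fin.ext (by omega)
  have main := avoid_le
    (Sum.elim (fun y : Fin (6 * N) => (⟨y.1 % 5, by omega⟩ : Fin 6)) fun _ : Fin (6 * N) => 5)
    (fun k => (univ.image (blk k)).disjSum (W k)) S
    (fun s _ t _ hst => disjoint_left.2 fun x h1 h2 => by
      rcases x with x | x
      · simp only [inl_mem_disjSum, mem_image] at h1 h2
        obtain ⟨r, -, rfl⟩ := h1
        obtain ⟨r', -, h3⟩ := h2
        exact hst (hb _ _ _ _ h3).symm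
      · simp only [inr_mem_disjSum] at h1 h2
        exact disjoint_left.1 (dW s t hst) h1 h2)
    (fun s hs => by
      have h1 := (mem_filter.1 hs).2
      have h2 : (univ.image (blk s)).card ≤ 5 := card_image_le.trans (by simp)
      rw [card_disjSum]
      omega)
  refine le_trans (Nat.cast_le.2 (card_le_card_of_injOn
    (fun x => Sum.elim (lab x.1) (lab x.2)) ?_ ?_)) (main.trans ?_)
  · rintro ⟨w, w'⟩ hx
    simp only [Adm, mem_coe, mem_filter, mem_univ, true_and] at hx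
    obtain ⟨-, -, σ, σ', hs⟩ := hx
    simp only [mem_coe, mem_filter, mem_univ, true_and]
    intro k _
    by_contra hc
    push Not at hc
    have g1 : ∀ r : Fin 5, (G6 N).g ((w * (G6 N).S σ)⁻¹ (blk k r)) = r.1 := fun r => by
      have h1 := congrArg Fin.val (hc (Sum.inl (blk k r)) (by simp))
      rw [mul_inv_rev, Perm.mul_apply, Grp.g_S_inv]
      refine h1.trans ?_
      change (5 * k.1 + r.1) % 5 = r.1
      omega
    obtain ⟨b, -, b2, b3, b4⟩ := hs (fun r => (w * (G6 N).S σ)⁻¹ (blk k r))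
      (fun r s hrs => (G6 N).lt_of_g (by rw [g1, g1]; exact hrs))
      (fun r s hrs => by
        simp only [Function.comp, ais]
        refine he ?_
        change 5 * k.1 + r.1 < 5 * k.1 + s.1
        exact Nat.add_lt_add_left hrs _)
    simp only [Function.comp, ais] at b3 b4
    have h1 := congrArg Fin.val (hc (Sum.inr ((w' * (G6 N).S σ') b))
      (inr_mem_disjSum.2 (mem_filter.2 ⟨mem_univ _, b3, b4⟩)))
    have h2 := (G6 N).mono b2.le
    rw [g1] at h2
    change (G6 N).g (w'⁻¹ (w' ((G6 N).S σ' b))) = 5 at h1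
    rw [ias, Grp.g_S] at h1
    change _ ≤ 4 at h2
    omega
  · rintro ⟨w, w'⟩ hx ⟨z, z'⟩ hz h
    simp only [Adm, mem_coe, mem_filter, mem_univ, true_and] at hx hz
    exact Prod.ext (lab_inj hx.1 hz.1 (funext fun y => congrFun h (Sum.inl y)))
      (lab_inj hx.2.1 hz.2.1 (funext fun y => congrFun h (Sum.inr y)))
  · rw [mul_pow, ← pow_mul, Fintype.card_sum, Fintype.card_fin,
      show 6 * N + 6 * N = 12 * N by ring]
    refine mul_le_mul_of_nonneg_left ?_ (by positivity)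
    calc ((1 : ℝ) - 1 / 6 ^ 16) ^ S.card ≤ ((1 - 1 / 6 ^ 17) ^ 2) ^ S.card :=
          pow_le_pow_left₀ (by norm_num) (by norm_num) _
      _ ≤ _ := by
          rw [← pow_mul]
          exact pow_le_pow_of_le_one (by norm_num) (by norm_num) hN

lemma SP_step (M : ℝ)
    (hM : ∀ e e' : Fin N → ℕ, StrictMono e → StrictMono e' → ((SP e e').card : ℝ) ≤ M)
    {e e' : Fin (6 * N) → ℕ} (he : StrictMono e) (he' : StrictMono e') :
    ((SP e e').card : ℝ) ≤ (6 ^ 12 * (1 - 1 / 6 ^ 17)) ^ N * M ^ 6 := by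
  classical
  have h1 : (SP e e').card ≤ ((Adm e e').sigma fun x => Fintype.piFinset fun i : Fin 6 =>
      SP (fun t => e (x.1 ((G6 N).ι (i, t)))) fun t => e' (x.2 ((G6 N).ι (i, t)))).card := by
    refine card_le_card_of_surjOn (fun y => (y.1.1 * (G6 N).S fun i => (y.2 i).1,
      y.1.2 * (G6 N).S fun i => (y.2 i).2)) ?_
    rintro ⟨u, v⟩ hx
    have hs := mem_SP.1 hx
    obtain ⟨w, σ, hw, rfl⟩ := inc_sort u
    obtain ⟨w', σ', hw', rfl⟩ := inc_sort v
    refine ⟨⟨(w, w'), fun i => (σ i, σ' i)⟩, ?_, rfl⟩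
    simp only [coe_sigma, Set.mem_sigma_iff, mem_coe, Fintype.mem_piFinset, mem_SP]
    refine ⟨mem_filter.2 ⟨mem_univ _, hw, hw', σ, σ', hs⟩, fun i a ha hu => ?_⟩
    obtain ⟨b, b1, b2, b3, b4⟩ := hs (fun r => (G6 N).ι (i, a r)) (((G6 N).smono i).comp ha)
      (by simpa [Function.comp_def, Grp.S_ι] using hu)
    obtain ⟨t, rfl⟩ := (G6 N).mem_grp (le_antisymm ((G6 N).mono b2.le)
      (((G6 N).same i _ _).le.trans ((G6 N).mono b1.le)))
    refine ⟨t, ((G6 N).smono i).lt_iff_lt.1 b1, ((G6 N).smono i).lt_iff_lt.1 b2, ?_, ?_⟩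
    · simpa [Grp.S_ι] using b3
    · simpa [Grp.S_ι] using b4
  refine (Nat.cast_le.2 h1).trans ?_
  rw [card_sigma, Nat.cast_sum]
  refine (sum_le_card_nsmul _ _ (M ^ 6) fun x hx => ?_).trans ?_
  · have hx' := (mem_filter.1 hx).2
    rw [Fintype.card_piFinset, Nat.cast_prod]
    refine (prod_le_prod (g := fun _ => M) (fun _ _ => Nat.cast_nonneg _) fun i _ =>
      hM _ _ (he.comp (hx'.1 i)) (he'.comp (hx'.2.1 i))).trans ?_
    simp
  · rw [nsmul_eq_mul]
    exact mul_le_mul_of_nonneg_right (adm_le he) (by positivity)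

lemma SP_le (m : ℕ) : ∃ M : ℝ, 0 ≤ M ∧ M ^ 6 = (6 ^ 12 * (1 - 1 / 6 ^ 17)) ^ (m * 6 ^ m) ∧
    ∀ N, N = 6 ^ m → ∀ e e' : Fin N → ℕ, StrictMono e → StrictMono e' →
      ((SP e e').card : ℝ) ≤ M := by
  induction m with
  | zero =>
    refine ⟨1, zero_le_one, by simp, ?_⟩
    rintro N rfl e e' - -
    exact_mod_cast (card_le_univ (SP e e')).trans (by simp)
  | succ m ih =>
    obtain ⟨M, h0, h1, h2⟩ := ih
    refine ⟨(6 ^ 12 * (1 - 1 / 6 ^ 17)) ^ (6 ^ m) * M ^ 6, by positivity, ?_, fun N hN => ?_⟩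
    · rw [h1, ← pow_add, ← pow_mul]
      congr 1
      ring
    · obtain rfl : N = 6 * 6 ^ m := by rw [hN]; ring
      exact fun e e' he he' => SP_step M (h2 _ rfl) he he'

theorem NB_pow_le (m : ℕ) :
    (NB (6 ^ m) : ℝ) ^ 6 ≤ (6 ^ 12 * (1 - 1 / 6 ^ 17)) ^ (m * 6 ^ m) := by
  obtain ⟨M, -, h1, h2⟩ := SP_le m
  rw [← h1]
  refine pow_le_pow_left₀ (Nat.cast_nonneg _) (le_trans (Nat.cast_le.2 (card_le_card ?_))
    (h2 _ rfl Fin.val Fin.val Fin.val_strictMono Fin.val_strictMono)) _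
  exact fun x hx => mem_SP.2 (star_of_pb (mem_BP.1 hx))

end Pool.Agent.Lib.MP_0fb7f5_co.Grow
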