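import Pool.Agent.Lib.MP_0fb7f5_co.GrowC

/-!
The growth exponent of the number of boolean intervals.
-/

set_option autoImplicit false

namespace Pool.Agent.Lib.MP_0fb7f5_co.Grow

open Finset Equiv Pat Filter Topology

/-- The logarithm of the count. -/
noncomputable def F (n : ℕ) : ℝ := Real.log (NB n)

/-- The normalised logarithm. -/
noncomputable def A (n : ℕ) : ℝ := F n / (n * Real.log n)

lemma NB_pos' (n : ℕ) : (0 : ℝ) < NB n := by exact_mod_cast NB_pos n

lemma F_nonneg (n : ℕ) : 0 ≤ F n := Real.log_natCast_nonneg _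

lemma A_nonneg (n : ℕ) : 0 ≤ A n :=
  div_nonneg (F_nonneg n) (mul_nonneg (Nat.cast_nonneg _) (Real.log_natCast_nonneg _))

lemma den_pos {n : ℕ} (hn : 2 ≤ n) : 0 < (n : ℝ) * Real.log n :=
  mul_pos (by exact_mod_cast (by omega : 0 < n))
    (Real.log_pos (by exact_mod_cast (by omega : 1 < n)))

lemma A_small {n : ℕ} (hn : n < 2) : A n = 0 := by
  interval_cases n <;> simp [A]

lemma A_le (n : ℕ) : A n ≤ 2 := by
  rcases lt_or_ge n 2 with hn | hn
  · rw [A_small hn]
    norm_num
  · rw [A, div_le_iff₀ (den_pos hn)]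
    have h : (NB n : ℝ) ≤ ((n : ℝ) ^ n) ^ 2 := by
      exact_mod_cast (NB_le n).trans (Nat.pow_le_pow_left (Nat.factorial_le_pow n) 2)
    have := Real.log_le_log (NB_pos' n) h
    rw [Real.log_pow, Real.log_pow] at this
    exact_mod_cast this

lemma F_grid {a b n : ℕ} (h : a * b ≤ n) : a * F b + b * F a ≤ F n := by
  have h1 : (NB b : ℝ) ^ a * (NB a : ℝ) ^ b ≤ NB n := by exact_mod_cast grid_le h
  have h2 := NB_pos' a
  have h3 := NB_pos' b
  have := Real.log_le_log (by positivity) h1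
  rwa [Real.log_mul (by positivity) (by positivity), Real.log_pow, Real.log_pow] at this

lemma F_pow (b j : ℕ) : j * (b : ℝ) ^ j * F b ≤ b * F (b ^ j) := by
  induction j with
  | zero => simpa using mul_nonneg (Nat.cast_nonneg b) (F_nonneg 1)
  | succ j ih =>
    have h := F_grid (a := b ^ j) (b := b) (n := b ^ (j + 1)) (pow_succ b j).ge
    have h0 : (0 : ℝ) ≤ b := Nat.cast_nonneg b
    have h1 := mul_le_mul_of_nonneg_left h h0
    have h2 := mul_le_mul_of_nonneg_left ih h0
    push_cast at *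
    rw [pow_succ]
    nlinarith

lemma A_ge {b L n : ℕ} (hb : 2 ≤ b) (hL : 1 ≤ L) (hn : L ≤ n) (hn2 : 2 ≤ n) :
    (1 - 1 / (L : ℝ)) * A b * (1 - Real.log (L * b) / Real.log n) ≤ A n := by
  set j := Nat.log b (n / L) with hj
  have h0 : n / L ≠ 0 := (Nat.div_pos hn hL).ne'
  have h1 : b ^ j * L ≤ n := (Nat.le_div_iff_mul_le hL).1 (Nat.pow_log_le_self b h0)
  have h2 : n < b ^ (j + 1) * L :=
    (Nat.div_lt_iff_lt_mul hL).1 (Nat.lt_pow_succ_log_self (by omega) _)
  have hp : 0 < b ^ j := by positivity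
  set q := n / b ^ j with hq
  have h3 : q * b ^ j ≤ n := Nat.div_mul_le_self _ _
  have h4 : n < q * b ^ j + b ^ j := Nat.lt_div_mul_add hp
  have hbR : (0 : ℝ) < b := by exact_mod_cast (by omega : 0 < b)
  have hLR : (0 : ℝ) < L := by exact_mod_cast hL
  have hnR : (0 : ℝ) < n := by exact_mod_cast (by omega : 0 < n)
  have lb : 0 < Real.log b := Real.log_pos (by exact_mod_cast (by omega : 1 < b))
  have ln : 0 < Real.log n := Real.log_pos (by exact_mod_cast (by omega : 1 < n))
  have e1 : (1 - 1 / (L : ℝ)) * n ≤ q * (b : ℝ) ^ j := by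
    have a1 : (b : ℝ) ^ j * L ≤ n := by exact_mod_cast h1
    have a2 : (n : ℝ) ≤ q * (b : ℝ) ^ j + (b : ℝ) ^ j := by exact_mod_cast h4.le
    have a3 : (b : ℝ) ^ j ≤ n / L := (le_div_iff₀ hLR).2 a1
    have a4 : (1 - 1 / (L : ℝ)) * n = n - n / L := by ring
    linarith
  have e2 : Real.log n - Real.log (L * b) ≤ j * Real.log b := by
    have a1 : (n : ℝ) ≤ (b : ℝ) ^ j * (L * b) := by
      have : (n : ℝ) ≤ (b : ℝ) ^ (j + 1) * L := by exact_mod_cast h2.le
      rwa [pow_succ, mul_assoc, mul_comm (b : ℝ)] at this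
    have a2 := Real.log_le_log hnR a1
    rw [Real.log_mul (by positivity) (by positivity), Real.log_pow] at a2
    linarith
  have e3 : F b = A b * (b * Real.log b) := by
    rw [A, div_mul_cancel₀ _ (den_pos hb).ne']
  have e4 : q * (b : ℝ) ^ j * (A b * (j * Real.log b)) ≤ F n := by
    have a1 := F_grid h3
    have a2 := F_pow b j
    have a3 := mul_nonneg (Nat.cast_nonneg (b ^ j)) (F_nonneg q)
    rw [e3] at a2
    have a4 : (b : ℝ) ^ j * (A b * (j * Real.log b)) ≤ F (b ^ j) :=
      le_of_mul_le_mul_left (by linarith) hbR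
    have a5 := mul_le_mul_of_nonneg_left a4 (Nat.cast_nonneg q)
    linarith
  have e5 : 0 ≤ 1 - 1 / (L : ℝ) := by
    rw [sub_nonneg, div_le_one hLR]
    exact_mod_cast hL
  have hA := A_nonneg b
  rw [A, A, le_div_iff₀ (den_pos hn2), ← A]
  calc (1 - 1 / (L : ℝ)) * A b * (1 - Real.log (L * b) / Real.log n) * (n * Real.log n)
      = (1 - 1 / (L : ℝ)) * n * (A b * (Real.log n - Real.log (L * b))) := by field_simp
    _ ≤ (1 - 1 / (L : ℝ)) * n * (A b * (j * Real.log b)) :=
        mul_le_mul_of_nonneg_left (mul_le_mul_of_nonneg_left e2 hA) (by positivity)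
    _ ≤ q * (b : ℝ) ^ j * (A b * (j * Real.log b)) :=
        mul_le_mul_of_nonneg_right e1 (by positivity)
    _ ≤ _ := e4

lemma A_bdd : BddAbove (Set.range A) := ⟨2, by rintro _ ⟨n, rfl⟩; exact A_le n⟩

theorem A_tendsto : Tendsto A atTop (𝓝 (⨆ n, A n)) := by
  refine tendsto_order.2 ⟨fun x hx => ?_,
    fun x hx => Eventually.of_forall fun n => (le_ciSup A_bdd n).trans_lt hx⟩
  obtain ⟨b, hb⟩ := (lt_ciSup_iff A_bdd).1 hx
  rcases lt_or_ge b 2 with h2 | h2
  · exact Eventually.of_forall fun n => (A_small h2 ▸ hb).trans_le (A_nonneg n)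
  have t1 : Tendsto (fun L : ℕ => (1 - 1 / (L : ℝ)) * A b) atTop (𝓝 ((1 - 0) * A b)) :=
    (tendsto_const_nhds.sub tendsto_one_div_atTop_nhds_zero_nat).mul_const _
  rw [sub_zero, one_mul] at t1
  obtain ⟨L, hL, hL1⟩ := ((t1.eventually_const_lt hb).and (eventually_ge_atTop 1)).exists
  have t2 : Tendsto (fun n : ℕ => (1 - 1 / (L : ℝ)) * A b * (1 - Real.log (L * b) / Real.log n))
      atTop (𝓝 ((1 - 1 / (L : ℝ)) * A b * (1 - 0))) :=
    (tendsto_const_nhds.sub (tendsto_const_nhds.div_atTop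
      (Real.tendsto_log_atTop.comp tendsto_natCast_atTop_atTop))).const_mul _
  rw [sub_zero, mul_one] at t2
  filter_upwards [t2.eventually_const_lt hL, eventually_ge_atTop L, eventually_ge_atTop 2]
    with n a1 a2 a3
  exact a1.trans_le (A_ge h2 hL1 a2 a3)

theorem sup_lt_two : ⨆ n, A n < 2 := by
  set K : ℝ := 6 ^ 12 * (1 - 1 / 6 ^ 17) with hK
  have l6 : 0 < Real.log 6 := Real.log_pos (by norm_num)
  have h1 : Real.log K / (6 * Real.log 6) < 2 := by
    rw [div_lt_iff₀ (by positivity)]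
    have := Real.log_lt_log (x := K) (y := 6 ^ 12) (by norm_num [hK]) (by norm_num [hK])
    rw [Real.log_pow] at this
    push_cast at this
    linarith
  refine lt_of_le_of_lt (le_of_tendsto (A_tendsto.comp
    (tendsto_pow_atTop_atTop_of_one_lt (by norm_num : 1 < 6))) ?_) h1
  filter_upwards [eventually_ge_atTop 1] with m hm
  have h2 : 2 ≤ 6 ^ m := le_trans (by norm_num) (Nat.pow_le_pow_right (by norm_num) hm)
  have h3 := Real.log_le_log (pow_pos (NB_pos' _) 6) (NB_pow_le m)
  rw [Real.log_pow, Real.log_pow, ← hK] at h3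
  change F (6 ^ m) / _ ≤ _
  rw [div_le_div_iff₀ (den_pos h2) (by positivity)]
  push_cast at h3 ⊢
  rw [Real.log_pow]
  have := mul_le_mul_of_nonneg_right h3 l6.le
  unfold F
  linarith

lemma halve (s : ℝ) (hs : ∀ n, 1 ≤ n → F n - Real.log n.factorial ≤ s * n) (k : ℕ) (hk : 1 ≤ k) :
    F k - Real.log k.factorial ≤ s / 2 * k := by
  by_contra hc
  have hkR : (1 : ℝ) ≤ k := by exact_mod_cast hk
  set β := F k - Real.log k.factorial with hβ
  have hδ : 0 < 2 * β - s * k := by linarith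
  obtain ⟨t, ht, ht1⟩ := (((tendsto_natCast_atTop_atTop (R := ℝ)).eventually_gt_atTop
    ((2 * k ^ 2 + |β|) / (2 * β - s * k))).and (eventually_ge_atTop 1)).exists
  have htR : (1 : ℝ) ≤ t := by exact_mod_cast ht1
  obtain ⟨p, hp⟩ : ∃ p, p + k = t ^ 2 * k :=
    ⟨t ^ 2 * k - k, Nat.sub_add_cancel (Nat.le_mul_of_pos_left _ (by positivity))⟩
  have h1 := double_le hk p
  have hle : k * k ≤ (p + k) * k := Nat.mul_le_mul_right _ (by omega)
  have h2 : ((p + k) * k).factorial ≤ (p * k).factorial * ((p + k) * k) ^ (k * k) := by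
    have e : (p + k) * k - k * k = p * k := by rw [Nat.add_mul]; omega
    rw [← Nat.factorial_mul_descFactorial hle, e]
    exact Nat.mul_le_mul_left _ (Nat.descFactorial_le_pow _ _)
  have hn : 1 ≤ (p + k) * k := le_trans (Nat.mul_pos hk hk) hle
  have h3 := hs _ hn
  have f1 : (0 : ℝ) < (p * k).factorial := by exact_mod_cast Nat.factorial_pos _
  have f2 : (0 : ℝ) < k.factorial := by exact_mod_cast Nat.factorial_pos _
  have f3 : (0 : ℝ) < ((p + k) * k).factorial := by exact_mod_cast Nat.factorial_pos _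
  have f4 := NB_pos' k
  have f5 := NB_pos' ((p + k) * k)
  have f6 : (0 : ℝ) < ((p + k) * k : ℕ) := by exact_mod_cast hn
  have h4 := Real.log_le_log (by positivity) (show ((p * k).factorial : ℝ) * (NB k : ℝ) ^
    (2 * p + k) ≤ NB ((p + k) * k) * (k.factorial : ℝ) ^ (2 * p + k) by exact_mod_cast h1)
  have h5 := Real.log_le_log f3 (show (((p + k) * k).factorial : ℝ) ≤ (p * k).factorial *
    (((p + k) * k : ℕ) : ℝ) ^ (k * k) by exact_mod_cast h2)
  rw [Real.log_mul f1.ne' (by positivity), Real.log_mul f5.ne' (by positivity), Real.log_pow,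
    Real.log_pow] at h4
  rw [Real.log_mul f1.ne' (by positivity), Real.log_pow] at h5
  have h6 : Real.log ((p + k) * k : ℕ) ≤ 2 * (t * k) := by
    have e : (((p + k) * k : ℕ) : ℝ) = ((t : ℝ) * k) ^ 2 := by
      rw [hp]
      push_cast
      ring
    rw [e, Real.log_pow]
    have := Real.log_le_sub_one_of_pos (show (0 : ℝ) < t * k by positivity)
    push_cast
    linarith
  have hpR : (p : ℝ) = t ^ 2 * k - k := by
    have : (p : ℝ) + k = t ^ 2 * k := by exact_mod_cast hp
    linarith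
  have h7 := mul_le_mul_of_nonneg_left h6 (show (0 : ℝ) ≤ (k * k : ℕ) by positivity)
  have h8 : (2 * (p : ℝ) + k) * β ≤ k * k * (2 * (t * k)) + s * ((p + k) * k) := by
    unfold F at h3 hβ
    push_cast at h3 h4 h5 h7
    rw [hβ]
    linarith
  rw [hpR] at h8
  have h9 : (t : ℝ) ^ 2 * (2 * β - s * k) ≤ 2 * k ^ 2 * t + β :=
    le_of_mul_le_mul_left (a := (k : ℝ)) (by linarith) (by linarith)
  rw [div_lt_iff₀ hδ] at ht
  have h10 := mul_lt_mul_of_pos_left ht (show (0 : ℝ) < t by linarith)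
  have h11 := mul_le_mul_of_nonneg_right htR (abs_nonneg β)
  have h12 := le_abs_self β
  linarith

theorem one_lt_sup : 1 < ⨆ n, A n := by
  by_contra hc
  have h1 : ∀ n, 1 ≤ n → F n - Real.log n.factorial ≤ 1 * n := by
    intro n hn
    have f : (0 : ℝ) < n.factorial := by exact_mod_cast Nat.factorial_pos _
    have hnR : (0 : ℝ) < n := by exact_mod_cast hn
    have h2 : F n ≤ n * Real.log n := by
      rcases hn.eq_or_lt with rfl | h
      · have : (NB 1 : ℝ) ≤ 1 := by exact_mod_cast NB_le 1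
        simpa [F] using Real.log_nonpos (NB_pos' 1).le this
      · have := (le_ciSup A_bdd n).trans (not_lt.1 hc)
        rwa [A, div_le_one (den_pos h)] at this
    have h3 := Real.log_le_log (by positivity) (Real.pow_div_factorial_le_exp (n : ℝ) hnR.le n)
    rw [Real.log_div (by positivity) f.ne', Real.log_pow, Real.log_exp] at h3
    linarith
  have h2 := halve _ (halve _ (halve _ h1)) 2 (by norm_num)
  have h3 : Real.log 3 ≤ F 2 := Real.log_le_log (by norm_num) (by exact_mod_cast NB_two)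
  have h4 := Real.one_sub_inv_le_log_of_pos (show (0 : ℝ) < 3 / 2 by norm_num)
  rw [Real.log_div (by norm_num) (by norm_num)] at h4
  norm_num [Nat.factorial] at h2 h4
  linarith

lemma card_eq (n : ℕ) : Nat.card {x : Perm (Fin n) × Perm (Fin n) //
    BruhatLE x.1 x.2 ∧ IsBooleanInterval x.1 x.2} = NB n := by
  rw [NB, ← Nat.card_eq_finsetCard]
  exact Nat.card_congr (Equiv.subtypeEquivRight fun x => (pattern_iff x.1 x.2).trans mem_BP.symm)

end Pool.Agent.Lib.MP_0fb7f5_co.Grow
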