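import Pool.Agent.Lib.MP_0fb7f5_co.GrowB
import Pool.Agent.Lib.MP_0fb7f5_co.Cube

/-!
The largest rank of a boolean interval.
-/

set_option autoImplicit false

namespace Pool.Agent.Lib.MP_0fb7f5_co.Grow

open Finset Equiv Pat

variable {n p k q l : ℕ}

open Classical in
/-- The elements of an interval. -/
noncomputable def Itv (u v : Perm (Fin n)) : Finset (Perm (Fin n)) :=
  univ.filter fun x => rle u x ∧ rle x v

lemma mem_Itv {u v x : Perm (Fin n)} : x ∈ Itv u v ↔ rle u x ∧ rle x v := by simp [Itv]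

lemma cube_of_boolean {u v : Perm (Fin n)} (huv : rle u v) (h : IsBooleanInterval u v) :
    ∃ (k : ℕ) (f : Finset (Fin k) → Perm (Fin n)), Cube.IsCube f ∧ len v = len u + k ∧
      (Itv u v).card = 2 ^ k := by
  classical
  obtain ⟨k, φ, hφ⟩ := h
  have hφ' : ∀ x y, rle x.1 y.1 ↔ φ x ⊆ φ y := fun x y => bruhatLE_iff.symm.trans (hφ x y)
  let mk : ∀ x : Perm (Fin n), rle u x → rle x v →
      {x : Perm (Fin n) // BruhatLE u x ∧ BruhatLE x v} :=
    fun x h1 h2 => ⟨x, h1.bruhatLE, h2.bruhatLE⟩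
  have hlo : ∀ S, rle u (φ.symm S).1 := fun S => (φ.symm S).2.1.rle
  have hhi : ∀ S, rle (φ.symm S).1 v := fun S => (φ.symm S).2.2.rle
  have hsy : ∀ S T, rle (φ.symm S).1 (φ.symm T).1 ↔ S ⊆ T := by
    intro S T; rw [hφ']; simp
  have hinj : Function.Injective fun S => (φ.symm S).1 :=
    fun S T e => φ.symm.injective (Subtype.ext e)
  have hne : ∀ i T, i ∉ T → (φ.symm T).1 ≠ (φ.symm (insert i T)).1 := fun i T hi he =>
    hi (hinj he ▸ mem_insert_self i T)
  have hcov : ∀ i T, i ∉ T → len (φ.symm (insert i T)).1 = len (φ.symm T).1 + 1 := by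
    intro i T hi
    apply len_cover ((hsy _ _).mpr (subset_insert i T)) (hne i T hi)
    intro z h1 h2
    set z' := mk z (rle_trans (hlo _) h1) (rle_trans h2 (hhi _)) with hz'
    have h3 : T ⊆ φ z' := by
      have := (hφ' (φ.symm T) z').mp h1
      simpa using this
    have h4 : φ z' ⊆ insert i T := by
      have := (hφ' z' (φ.symm (insert i T))).mp h2
      simpa using this
    have h5 : φ z' = T ∨ φ z' = insert i T := by
      by_cases h6 : i ∈ φ z'
      · right
        exact subset_antisymm h4 (insert_subset h6 h3)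
      · left
        exact subset_antisymm ((subset_insert_iff_of_notMem h6).mp h4) h3
    rcases h5 with h5 | h5
    · left; rw [← h5]; simp [hz', mk]
    · right; rw [← h5]; simp [hz', mk]
  have hlen : ∀ S : Finset (Fin k), len (φ.symm S).1 = len u + S.card := by
    intro S
    induction S using Finset.induction_on with
    | empty =>
      have h1 : rle (φ.symm ∅).1 (mk u (rle_refl u) huv).1 := by
        rw [hφ']; simp
      have h2 : (φ.symm ∅).1 = u := h1.antisymm (hlo ∅)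
      rw [h2]; simp
    | insert i T hi ih => rw [card_insert_of_notMem hi, ← add_assoc, ← ih, hcov i T hi]
  have hsw : ∀ i T, i ∉ T → ∃ a b, a ≠ b ∧ (φ.symm (insert i T)).1 = (φ.symm T).1 * swap a b := by
    intro i T hi
    obtain ⟨z, h1, h2⟩ := exists_step_rle ((hsy _ _).mpr (subset_insert i T)) (hne i T hi)
    have h3 := h1.len_lt
    have h4 := hcov i T hi
    have h5 := h2.eq_of_len_le (by omega)
    obtain ⟨a, b, hab, -, e⟩ := step_iff.mp h1
    exact ⟨a, b, hab.ne, h5.symm.trans e⟩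
  refine ⟨k, fun S => (φ.symm S).1, ⟨hinj, fun S i => ?_⟩, ?_, ?_⟩
  · by_cases hi : i ∈ S
    · obtain ⟨a, b, hab, e⟩ := hsw i (S.erase i) (notMem_erase i S)
      have e1 : symmDiff S {i} = S.erase i := by
        ext x
        by_cases hx : x = i <;> simp [mem_symmDiff, hx, hi]
      rw [insert_erase hi] at e
      exact ⟨a, b, hab, by rw [e1, e, swap_swap_cancel]⟩
    · have e1 : symmDiff S {i} = insert i S := by
        ext x
        by_cases hx : x = i <;> simp [mem_symmDiff, hx, hi]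
      rw [e1]
      exact hsw i S hi
  · have h1 : rle (φ.symm univ).1 v := hhi _
    have h2 : rle (mk v huv (rle_refl v)).1 (φ.symm univ).1 := by
      rw [hφ']; simp
    have h3 := hlen univ
    rw [h1.antisymm h2] at h3
    simpa using h3
  · have e : Itv u v = univ.image fun S => (φ.symm S).1 := by
      ext x
      rw [mem_Itv, mem_image]
      exact ⟨fun h => ⟨φ (mk x h.1 h.2), mem_univ _, by simp [mk]⟩,
        by rintro ⟨S, -, rfl⟩; exact ⟨hlo S, hhi S⟩⟩
    rw [e, card_image_of_injective _ hinj]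
    simp

theorem rank_le {u v : Perm (Fin n)} (huv : rle u v) (h : IsBooleanInterval u v) :
    4 ^ (len v - len u) ≤ n ^ n := by
  obtain ⟨k, f, hf, e, -⟩ := cube_of_boolean huv h
  simpa [e] using hf.bound

variable {G : Grp n p k} {H : Grp n q l} {w : Perm (Fin n)}
  {σ σ' : Fin p → Perm (Fin k)} {τ τ' : Fin q → Perm (Fin l)}

lemma rle_half' (hw : Srt G H w) (h : ∀ i, rle (σ i) (σ' i)) :
    rle (dc G H w σ τ) (dc G H w σ' τ) := by
  unfold dc
  rw [← mul_assoc, ← mul_assoc]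
  refine rle_col G _ (fun i s t hst => H.lt_of_g ?_) h
  simp only [Perm.mul_apply, H.g_S_inv]
  exact hw i hst

lemma rle_dc (hw : w ∈ W0 G H) (h : ∀ i, rle (σ i) (σ' i)) (h' : ∀ j, rle (τ j) (τ' j)) :
    rle (dc G H w σ τ) (dc G H w σ' τ') := by
  rw [mem_W0] at hw
  refine rle_trans (rle_half' hw.1 h) (rle_inv ?_)
  rw [dc_inv, dc_inv]
  exact rle_half' hw.2 h'

lemma itv_dc (hw : w ∈ W0 G H) :
    (∏ i, (Itv (σ i) (σ' i)).card) * ∏ j, (Itv (τ j) (τ' j)).card ≤
      (Itv (dc G H w σ τ) (dc G H w σ' τ')).card := by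
  classical
  rw [← Fintype.card_piFinset, ← Fintype.card_piFinset, ← card_product]
  refine card_le_card_of_injOn (fun x => dc G H w x.1 x.2) ?_ ?_
  · rintro ⟨a, b⟩ hx
    simp only [coe_product, Set.mem_prod, mem_coe, Fintype.mem_piFinset, mem_Itv] at hx ⊢
    exact ⟨rle_dc hw (fun i => (hx.1 i).1) fun j => (hx.2 j).1,
      rle_dc hw (fun i => (hx.1 i).2) fun j => (hx.2 j).2⟩
  · rintro ⟨a, b⟩ - ⟨a', b'⟩ - h
    obtain ⟨-, e2, e3⟩ := dc_inj hw hw h
    exact Prod.ext e2 e3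

lemma pb_two : PB (1 : Perm (Fin 2)) (swap 0 1) := by
  refine ⟨?_, ?_, ?_, ?_, ?_⟩
  · unfold rle
    decide
  · rintro ⟨a, b, h1, h2, -⟩
    revert a b
    decide
  · rintro ⟨a, c, b, h1, h2, -⟩
    revert a c b
    decide
  · rintro ⟨a, b, h1, h2, -⟩
    revert a b
    decide
  · rintro ⟨a, c, b, h1, h2, -⟩
    revert a c b
    decide

lemma itv_two : 2 ≤ (Itv (1 : Perm (Fin 2)) (swap 0 1)).card :=
  one_lt_card.2 ⟨1, mem_Itv.2 ⟨rle_refl _, pb_two.1⟩, swap 0 1, mem_Itv.2 ⟨pb_two.1, rle_refl _⟩,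
    by decide⟩

lemma exists_big (k : ℕ) : ∃ u v : Perm (Fin (2 ^ k)), PB u v ∧
    2 ^ (k * 2 ^ k) ≤ (Itv u v).card ^ 2 := by
  induction k with
  | zero =>
    refine ⟨1, 1, pb_self _, ?_⟩
    have : 0 < (Itv (1 : Perm (Fin (2 ^ 0))) 1).card :=
      card_pos.2 ⟨1, mem_Itv.2 ⟨rle_refl _, rle_refl _⟩⟩
    simpa using Nat.one_le_pow 2 _ this
  | succ k ih =>
    obtain ⟨u, v, h1, h2⟩ := ih
    have h : 2 * 2 ^ k ≤ 2 ^ (k + 1) := by rw [pow_succ, mul_comm]
    have h' : 2 ^ k * 2 ≤ 2 ^ (k + 1) := by rw [pow_succ]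
    obtain ⟨w, hw⟩ := Equiv.Perm.exists_extending_pair _ _ (std _ 2 (2 ^ k) h).ι.injective
      ((std _ (2 ^ k) 2 h').ι.injective.comp Prod.swap_injective)
    have h3 : w ∈ W0 (std _ 2 (2 ^ k) h) (std _ (2 ^ k) 2 h') := by
      refine mem_W0.2 ⟨grid_srt h h' w fun i s => hw (i, s), grid_srt h' h _ fun i s => ?_⟩
      rw [Perm.inv_eq_iff_eq]
      exact (hw (s, i)).symm
    refine ⟨dc _ _ w (fun _ => u) fun _ => 1, dc _ _ w (fun _ => v) fun _ => swap 0 1,
      pb_dc (mem_W0.1 h3).1 (mem_W0.1 h3).2 (fun _ => h1) fun _ => pb_two, ?_⟩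
    refine le_trans ?_ (Nat.pow_le_pow_left (itv_dc h3) 2)
    simp only [prod_const, card_univ, Fintype.card_fin]
    have h4 := Nat.mul_le_mul h2 (Nat.pow_le_pow_left itv_two (2 ^ k))
    refine le_trans (le_of_eq ?_) (Nat.pow_le_pow_left h4 2)
    rw [← pow_add, ← pow_mul]
    congr 1
    ring

theorem exists_max (k : ℕ) : ∃ u v : Perm (Fin (2 ^ k)), BruhatLE u v ∧ IsBooleanInterval u v ∧
    2 * (len v - len u) = k * 2 ^ k := by
  obtain ⟨u, v, h1, h2⟩ := exists_big k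
  obtain ⟨h3, h4⟩ := (pattern_iff u v).2 h1
  refine ⟨u, v, h3, h4, ?_⟩
  have h5 := rank_le h1.1 h4
  obtain ⟨m, f, -, e, hc⟩ := cube_of_boolean h1.1 h4
  rw [hc, ← pow_mul] at h2
  rw [show 4 = 2 ^ 2 by norm_num, ← pow_mul, ← pow_mul] at h5
  have a := (Nat.pow_le_pow_iff_right (by norm_num)).1 h2
  have b := (Nat.pow_le_pow_iff_right (by norm_num)).1 h5
  omega

end Pool.Agent.Lib.MP_0fb7f5_co.Grow
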