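import Pool.Agent.Lib.MP_0fb7f5_co.Basic

set_option autoImplicit false

namespace Pool.Agent.Lib.MP_0fb7f5_co

open Finset Equiv

variable {n : ℕ}

/-- contribution of three points to a rank matrix -/
def L3 (a b c α β γ i j : ℕ) : ℕ :=
  (if a ≤ i ∧ α ≤ j then 1 else 0) + (if b ≤ i ∧ β ≤ j then 1 else 0)
    + (if c ≤ i ∧ γ ≤ j then 1 else 0)

lemma L3_cl1 {a b c α β γ : ℕ} (hab : a < b) (h : α < β) (h1 : c ≠ a) (h2 : c ≠ b)
    (h3 : γ ≠ α) (h4 : γ ≠ β) :
    (∀ i j, min (L3 a b c β α γ i j) (L3 a b c γ α β i j) ≤ L3 a b c γ β α i j) ∨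
    (∀ i j, min (L3 a b c β α γ i j) (L3 a b c γ α β i j) ≤ L3 a b c α γ β i j) := by
  unfold L3
  rcases lt_or_gt_of_ne h1 with c1 | c1 <;> rcases lt_or_gt_of_ne h2 with c2 | c2 <;>
    rcases lt_or_gt_of_ne h3 with c3 | c3 <;> rcases lt_or_gt_of_ne h4 with c4 | c4 <;>
    first
      | (exfalso; omega)
      | (left; intro i j
         by_cases e1 : a ≤ i <;> by_cases e2 : b ≤ i <;> by_cases e3 : c ≤ i <;>
         by_cases e4 : α ≤ j <;> by_cases e5 : β ≤ j <;> by_cases e6 : γ ≤ j <;>
         first | (exfalso; omega) | (simp [e1, e2, e3, e4, e5, e6]; done))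
      | (right; intro i j
         by_cases e1 : a ≤ i <;> by_cases e2 : b ≤ i <;> by_cases e3 : c ≤ i <;>
         by_cases e4 : α ≤ j <;> by_cases e5 : β ≤ j <;> by_cases e6 : γ ≤ j <;>
         first | (exfalso; omega) | (simp [e1, e2, e3, e4, e5, e6]; done))

lemma L3_cl2 {a b c α β γ : ℕ} (hab : a < b) (h : α < β) (h1 : c ≠ a) (h2 : c ≠ b)
    (h3 : γ ≠ α) (h4 : γ ≠ β) :
    (∀ i j, min (L3 a b c β α γ i j) (L3 a b c β γ α i j) ≤ L3 a b c γ β α i j) ∨
    (∀ i j, min (L3 a b c β α γ i j) (L3 a b c β γ α i j) ≤ L3 a b c α γ β i j) := by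
  unfold L3
  rcases lt_or_gt_of_ne h1 with c1 | c1 <;> rcases lt_or_gt_of_ne h2 with c2 | c2 <;>
    rcases lt_or_gt_of_ne h3 with c3 | c3 <;> rcases lt_or_gt_of_ne h4 with c4 | c4 <;>
    first
      | (exfalso; omega)
      | (left; intro i j
         by_cases e1 : a ≤ i <;> by_cases e2 : b ≤ i <;> by_cases e3 : c ≤ i <;>
         by_cases e4 : α ≤ j <;> by_cases e5 : β ≤ j <;> by_cases e6 : γ ≤ j <;>
         first | (exfalso; omega) | (simp [e1, e2, e3, e4, e5, e6]; done))
      | (right; intro i j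
         by_cases e1 : a ≤ i <;> by_cases e2 : b ≤ i <;> by_cases e3 : c ≤ i <;>
         by_cases e4 : α ≤ j <;> by_cases e5 : β ≤ j <;> by_cases e6 : γ ≤ j <;>
         first | (exfalso; omega) | (simp [e1, e2, e3, e4, e5, e6]; done))

lemma L3_cl3 {a b c α β γ : ℕ} (hab : a < b) (h : α < β) (i j : ℕ) :
    min (L3 a b c β α γ i j) (min (L3 a b c γ α β i j) (L3 a b c β γ α i j)) ≤ L3 a b c γ β α i j ∧
    min (L3 a b c β α γ i j) (min (L3 a b c γ α β i j) (L3 a b c β γ α i j))
      ≤ L3 a b c α γ β i j := by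
  unfold L3
  by_cases e1 : a ≤ i <;> by_cases e2 : b ≤ i <;> by_cases e3 : c ≤ i <;>
    by_cases e4 : α ≤ j <;> by_cases e5 : β ≤ j <;> by_cases e6 : γ ≤ j <;>
    first | (exfalso; omega) | simp [e1, e2, e3, e4, e5, e6]

/-- contribution of the remaining points -/
def R3 (x : Perm (Fin n)) (a b c i j : Fin n) : ℕ :=
  ∑ p ∈ ((univ.erase a).erase b).erase c, if p ≤ i ∧ x p ≤ j then 1 else 0

lemma rk_split3 (x z : Perm (Fin n)) {a b c : Fin n} (hab : a ≠ b) (hca : c ≠ a) (hcb : c ≠ b)
    (hz : ∀ p, p ≠ a → p ≠ b → p ≠ c → z p = x p) (i j : Fin n) :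
    rk z i j = R3 x a b c i j + L3 a b c (z a) (z b) (z c) i j := by
  rw [rk_eq_sum, sum_split2 _ hab,
    ← Finset.add_sum_erase ((univ.erase a).erase b) _ (a := c) (by simp [hca, hcb])]
  unfold R3 L3
  have : ∑ p ∈ ((univ.erase a).erase b).erase c, (if p ≤ i ∧ z p ≤ j then 1 else 0)
      = ∑ p ∈ ((univ.erase a).erase b).erase c, (if p ≤ i ∧ x p ≤ j then 1 else 0) := by
    refine Finset.sum_congr rfl fun p hp => ?_
    simp only [mem_erase, mem_univ, and_true] at hp
    rw [hz p hp.2.2 hp.2.1 hp.1]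
  rw [this]
  simp only [Fin.le_def]
  omega

open Classical in
lemma local3 (x v : Perm (Fin n)) {a b c : Fin n} (hab : a < b) (h : x a < x b) (hca : c ≠ a)
    (hcb : c ≠ b) (hy : rle (x * swap a b) v) :
    (if rle (x * swap a b * swap a c) v then 1 else 0)
      + (if rle (x * swap a b * swap b c) v then 1 else 0)
      ≤ (if rle (x * swap a c) v then 1 else 0) + (if rle (x * swap b c) v then 1 else 0) := by
  have hne := hab.ne
  have hac := hca.symm
  have hbc := hcb.symm
  have hba := hne.symm
  have k0 := rk_split3 x (x * swap a b) hne hca hcb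
    (fun p h1 h2 _ => by simp [swap_apply_of_ne_of_ne h1 h2])
  have k1 := rk_split3 x (x * swap a b * swap a c) hne hca hcb
    (fun p h1 h2 h3 => by simp [swap_apply_of_ne_of_ne h1 h2, swap_apply_of_ne_of_ne h1 h3])
  have k2 := rk_split3 x (x * swap a b * swap b c) hne hca hcb
    (fun p h1 h2 h3 => by simp [swap_apply_of_ne_of_ne h1 h2, swap_apply_of_ne_of_ne h2 h3])
  have k3 := rk_split3 x (x * swap a c) hne hca hcb
    (fun p h1 _ h3 => by simp [swap_apply_of_ne_of_ne h1 h3])
  have k4 := rk_split3 x (x * swap b c) hne hca hcb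
    (fun p _ h2 h3 => by simp [swap_apply_of_ne_of_ne h2 h3])
  simp only [Perm.mul_apply, swap_apply_left, swap_apply_right, swap_apply_of_ne_of_ne hca hcb,
    swap_apply_of_ne_of_ne hba hbc, swap_apply_of_ne_of_ne hne hac] at k0 k1 k2 k3 k4
  have g3 : (x c : ℕ) ≠ x a := fun e => hca (x.injective (Fin.ext e))
  have g4 : (x c : ℕ) ≠ x b := fun e => hcb (x.injective (Fin.ext e))
  have g1 : (c : ℕ) ≠ a := fun e => hca (Fin.ext e)
  have g2 : (c : ℕ) ≠ b := fun e => hcb (Fin.ext e)
  have c1 : rle (x * swap a b * swap a c) v → rle (x * swap a c) v ∨ rle (x * swap b c) v := by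
    intro h1
    rcases L3_cl1 (Fin.lt_def.mp hab) (Fin.lt_def.mp h) g1 g2 g3 g4 with hh | hh
    · left; intro i j
      have := hh i j; have := hy i j; have := h1 i j
      have := k0 i j; have := k1 i j; have := k3 i j; omega
    · right; intro i j
      have := hh i j; have := hy i j; have := h1 i j
      have := k0 i j; have := k1 i j; have := k4 i j; omega
  have c2 : rle (x * swap a b * swap b c) v → rle (x * swap a c) v ∨ rle (x * swap b c) v := by
    intro h1
    rcases L3_cl2 (Fin.lt_def.mp hab) (Fin.lt_def.mp h) g1 g2 g3 g4 with hh | hh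
    · left; intro i j
      have := hh i j; have := hy i j; have := h1 i j
      have := k0 i j; have := k2 i j; have := k3 i j; omega
    · right; intro i j
      have := hh i j; have := hy i j; have := h1 i j
      have := k0 i j; have := k2 i j; have := k4 i j; omega
  have c3 : rle (x * swap a b * swap a c) v → rle (x * swap a b * swap b c) v →
      rle (x * swap a c) v ∧ rle (x * swap b c) v := by
    intro h1 h2
    constructor
    · intro i j
      have := (L3_cl3 (c := c) (γ := x c) (Fin.lt_def.mp hab) (Fin.lt_def.mp h) i j).1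
      have := hy i j; have := h1 i j; have := h2 i j
      have := k0 i j; have := k1 i j; have := k2 i j; have := k3 i j; omega
    · intro i j
      have := (L3_cl3 (c := c) (γ := x c) (Fin.lt_def.mp hab) (Fin.lt_def.mp h) i j).2
      have := hy i j; have := h1 i j; have := h2 i j
      have := k0 i j; have := k1 i j; have := k2 i j; have := k4 i j; omega
  by_cases p1 : rle (x * swap a b * swap a c) v <;> by_cases p2 : rle (x * swap a b * swap b c) v <;>
    by_cases p3 : rle (x * swap a c) v <;> by_cases p4 : rle (x * swap b c) v <;>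
    simp_all

open Classical in
/-- twice the number of transpositions `t` with `z t ≤ v`, plus the diagonal terms -/
noncomputable def N2 (z v : Perm (Fin n)) : ℕ :=
  ∑ p : Fin n, ∑ q : Fin n, if rle (z * swap p q) v then 1 else 0

open Classical in
lemma N2_step (x v : Perm (Fin n)) {a b : Fin n} (hab : a < b) (h : x a < x b)
    (hy : rle (x * swap a b) v) : N2 (x * swap a b) v ≤ N2 x v := by
  have hne := hab.ne
  have hx : rle x v := rle_trans (rle_swap x hab h) hy
  unfold N2
  simp only [sum_split2 _ hne]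
  simp only [Finset.sum_add_distrib]
  set S := (univ.erase a).erase b with hS
  have hmem : ∀ p ∈ S, p ≠ a ∧ p ≠ b := by
    intro p hp
    simp only [hS, mem_erase, mem_univ, and_true] at hp
    exact ⟨hp.2, hp.1⟩
  have h1 : ∑ p ∈ S, ∑ q ∈ S, (if rle (x * swap a b * swap p q) v then 1 else 0)
      ≤ ∑ p ∈ S, ∑ q ∈ S, (if rle (x * swap p q) v then 1 else 0) := by
    refine Finset.sum_le_sum fun p hp => Finset.sum_le_sum fun q hq => ?_
    obtain ⟨p1, p2⟩ := hmem p hp
    obtain ⟨q1, q2⟩ := hmem q hq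
    by_cases hh : rle (x * swap a b * swap p q) v
    · have e : x * swap a b * swap p q = x * swap p q * swap a b := by
        rw [mul_assoc, mul_assoc]
        congr 1
        have := mul_swap_eq_swap_mul (swap a b) p q
        rw [this, swap_apply_of_ne_of_ne p1 p2, swap_apply_of_ne_of_ne q1 q2]
      have h2 : rle (x * swap p q) (x * swap p q * swap a b) := by
        apply rle_swap _ hab
        simpa [swap_apply_of_ne_of_ne p1.symm q1.symm, swap_apply_of_ne_of_ne p2.symm q2.symm]
          using h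
      rw [if_pos hh, if_pos (rle_trans h2 (e ▸ hh))]
    · rw [if_neg hh]; omega
  have h2 : ∑ c ∈ S, (if rle (x * swap a b * swap a c) v then 1 else 0)
      + ∑ c ∈ S, (if rle (x * swap a b * swap b c) v then 1 else 0)
      ≤ ∑ c ∈ S, (if rle (x * swap a c) v then 1 else 0)
      + ∑ c ∈ S, (if rle (x * swap b c) v then 1 else 0) := by
    rw [← Finset.sum_add_distrib, ← Finset.sum_add_distrib]
    exact Finset.sum_le_sum fun c hc => local3 x v hab h (hmem c hc).1 (hmem c hc).2 hy
  have s1 : ∀ (w : Perm (Fin n)) (d : Fin n),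
      ∑ c ∈ S, (if rle (w * swap c d) v then 1 else 0)
        = ∑ c ∈ S, (if rle (w * swap d c) v then 1 else 0) := fun w d =>
    Finset.sum_congr rfl fun c _ => by rw [swap_comm]
  rw [s1 _ a, s1 _ b, s1 _ a, s1 _ b]
  have e1 : ∀ w : Perm (Fin n), w * Equiv.refl (Fin n) = w := fun w => rfl
  simp only [swap_self, swap_comm b a, swap_swap_cancel, e1, if_pos hx, if_pos hy]
  omega

lemma N2_mono {x y v : Perm (Fin n)} (hxy : rle x y) (hy : rle y v) : N2 y v ≤ N2 x v := by
  have h := hxy.bruhatLE
  induction h with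
  | refl => exact le_rfl
  | @tail w z hw hs ih =>
    obtain ⟨a, b, hab, h', rfl⟩ := step_iff.mp hs
    exact (N2_step w v hab h' hy).trans (ih (BruhatLE.rle hw) (rle_trans hs.rle hy))

open Classical in
/-- upward edges of the Bruhat graph from `x` that stay below `v` -/
noncomputable def outE (x v : Perm (Fin n)) : Finset (Perm (Fin n)) :=
  univ.filter (fun z => Step x z ∧ rle z v)

lemma mem_upPairs {u v : Perm (Fin n)} (huv : rle u v) {p : Fin n × Fin n} :
    p ∈ upPairs u v ↔ p.1 < p.2 ∧ u p.1 < u p.2 ∧ rle (u * swap p.1 p.2) v := by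
  unfold upPairs
  simp only [mem_filter, mem_univ, true_and]
  refine and_congr_right fun hab => and_congr_right fun h => ?_
  constructor
  · intro hh i j
    have h1 := rk_swap u hab h i j
    by_cases hc : p.1 ≤ i ∧ i < p.2 ∧ u p.1 ≤ j ∧ j < u p.2
    · rw [if_pos hc] at h1
      have := hh i j hc.1 hc.2.1 hc.2.2.1 hc.2.2.2
      omega
    · rw [if_neg hc] at h1
      have := huv i j
      omega
  · intro hh i j c1 c2 c3 c4
    have h1 := rk_swap u hab h i j
    rw [if_pos ⟨c1, c2, c3, c4⟩] at h1
    have := hh i j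
    omega

lemma swap_pair_inj {p q : Fin n × Fin n} (hp : p.1 < p.2) (hq : q.1 < q.2) {w : Perm (Fin n)}
    (h : w * swap p.1 p.2 = w * swap q.1 q.2) : p = q := by
  have h1 : swap p.1 p.2 = swap q.1 q.2 := mul_left_cancel h
  have h2 := congrArg (fun f : Perm (Fin n) => f p.1) h1
  simp only [swap_apply_left, swap_apply_def] at h2
  have h3 := congrArg (fun f : Perm (Fin n) => f p.2) h1
  simp only [swap_apply_right, swap_apply_def] at h3
  obtain ⟨p1, p2⟩ := p
  obtain ⟨q1, q2⟩ := q
  simp only [Prod.mk.injEq, Fin.lt_def, Fin.ext_iff] at *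
  split_ifs at h2 h3 <;> omega

lemma card_outE {u v : Perm (Fin n)} (huv : rle u v) : (outE u v).card = (upPairs u v).card := by
  classical
  symm
  refine Finset.card_bij (fun p _ => u * swap p.1 p.2) ?_ ?_ ?_
  · intro p hp
    obtain ⟨h1, h2, h3⟩ := (mem_upPairs huv).mp hp
    simp only [outE, mem_filter, mem_univ, true_and]
    exact ⟨step_swap u h1 h2, h3⟩
  · intro p hp q hq h
    exact swap_pair_inj ((mem_upPairs huv).mp hp).1 ((mem_upPairs huv).mp hq).1 h
  · intro z hz
    simp only [outE, mem_filter, mem_univ, true_and] at hz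
    obtain ⟨a, b, hab, h, rfl⟩ := step_iff.mp hz.1
    exact ⟨(a, b), (mem_upPairs huv).mpr ⟨hab, h, hz.2⟩, rfl⟩

lemma N2_eq {x v : Perm (Fin n)} (hx : rle x v) :
    N2 x v = n + 2 * (len x + (outE x v).card) := by
  classical
  rw [card_outE hx]
  have hup : (upPairs x v).card = ∑ p : Fin n, ∑ q : Fin n,
      if p < q ∧ x p < x q ∧ rle (x * swap p q) v then 1 else 0 := by
    rw [← Fintype.sum_prod_type', ← Finset.card_filter]
    congr 1
    ext p
    rw [mem_upPairs hx]; simp
  have hsym : ∑ p : Fin n, ∑ q : Fin n, (if q < p ∧ rle (x * swap p q) v then 1 else 0)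
      = ∑ p : Fin n, ∑ q : Fin n, (if p < q ∧ rle (x * swap p q) v then 1 else 0) := by
    rw [Finset.sum_comm]
    refine Finset.sum_congr rfl fun p _ => Finset.sum_congr rfl fun q _ => ?_
    rw [swap_comm]
  have hdiag : ∑ p : Fin n, ∑ q : Fin n, (if p = q then 1 else 0) = n := by simp
  have hlow : ∑ p : Fin n, ∑ q : Fin n, (if p < q ∧ rle (x * swap p q) v then 1 else 0)
      = len x + (upPairs x v).card := by
    rw [hup, len_eq_sum, ← Finset.sum_add_distrib]
    refine Finset.sum_congr rfl fun p _ => ?_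
    rw [← Finset.sum_add_distrib]
    refine Finset.sum_congr rfl fun q _ => ?_
    by_cases hpq : p < q
    · rcases lt_trichotomy (x p) (x q) with h | h | h
      · simp [hpq, h, not_lt.mpr h.le]
      · exact absurd (x.injective h) hpq.ne
      · have : rle (x * swap p q) v := by
          have h1 := rle_swap (x * swap p q) hpq (by simpa using h)
          rw [swap_swap_cancel] at h1
          exact rle_trans h1 hx
        simp [hpq, h, not_lt.mpr h.le, this]
    · simp [hpq]
  have hsplit : N2 x v = ∑ p : Fin n, ∑ q : Fin n, (if p = q then 1 else 0)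
      + ∑ p : Fin n, ∑ q : Fin n, (if p < q ∧ rle (x * swap p q) v then 1 else 0)
      + ∑ p : Fin n, ∑ q : Fin n, (if q < p ∧ rle (x * swap p q) v then 1 else 0) := by
    unfold N2
    simp only [← Finset.sum_add_distrib]
    refine Finset.sum_congr rfl fun p _ => Finset.sum_congr rfl fun q _ => ?_
    rcases lt_trichotomy p q with h | h | h
    · simp [h, h.ne, not_lt.mpr h.le]
    · subst h
      have e1 : x * Equiv.refl (Fin n) = x := rfl
      simp [e1, hx]
    · simp [h, h.ne', not_lt.mpr h.le]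
  rw [hsplit, hsym, hdiag, hlow]
  omega

lemma outE_self (v : Perm (Fin n)) : (outE v v).card = 0 := by
  classical
  rw [Finset.card_eq_zero, outE, Finset.filter_eq_empty_iff]
  rintro z _ ⟨h1, h2⟩
  have := h1.len_lt
  have := h2.len_le
  omega

/-- Deodhar's inequality -/
lemma deodhar {x v : Perm (Fin n)} (hx : rle x v) : len v ≤ len x + (outE x v).card := by
  have h1 := N2_mono hx (rle_refl v)
  rw [N2_eq hx, N2_eq (rle_refl v), outE_self] at h1
  omega

/-- equality in Deodhar's inequality propagates upwards -/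
lemma deodhar_hered {u x v : Perm (Fin n)} (hu : rle u x) (hx : rle x v)
    (h : len u + (outE u v).card = len v) : len x + (outE x v).card = len v := by
  have h1 := N2_mono hu hx
  rw [N2_eq hx, N2_eq (rle_trans hu hx)] at h1
  have := deodhar hx
  omega

end Pool.Agent.Lib.MP_0fb7f5_co
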