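import Pool.Agent.Lib.MP_0fb7f5_co.Count

set_option autoImplicit false

namespace Pool.Agent.Lib.MP_0fb7f5_co

open Finset Equiv

variable {n : ℕ}

lemma inside_eq_zero {w : Perm (Fin n)} {a b : Fin n} :
    inside w a b = 0 ↔ ∀ c : Fin n, ¬ (a < c ∧ c < b ∧ w a < w c ∧ w c < w b) := by
  unfold inside
  rw [Finset.sum_eq_zero_iff]
  simp only [mem_univ, true_imp_iff, ite_eq_right_iff, one_ne_zero, imp_false]

lemma len_cover {x y : Perm (Fin n)} (h : rle x y) (hne : x ≠ y)
    (hc : ∀ z, rle x z → rle z y → z = x ∨ z = y) : len y = len x + 1 := by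
  obtain ⟨z, h1, h2⟩ := exists_step_rle h hne
  have h3 := h1.len_lt
  rcases hc z h1.rle h2 with rfl | rfl
  · omega
  obtain ⟨a, b, hab, h4, rfl⟩ := step_iff.mp h1
  have h5 : inside x a b = 0 := by
    rw [inside_eq_zero]
    rintro c ⟨c1, c2, c3, c4⟩
    have h6 : rle (x * swap a c) (x * swap a b) := by
      intro i j
      have e1 := rk_swap x hab h4 i j
      have e2 := rk_swap x c1 c3 i j
      simp only [Fin.le_def, Fin.lt_def] at *
      split_ifs at e1 e2 <;> omega
    rcases hc _ (rle_swap x c1 c3) h6 with h7 | h7
    · have := (step_swap x c1 c3).len_lt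
      rw [h7] at this
      omega
    · have := swap_pair_inj (p := (a, c)) (q := (a, b)) c1 hab h7
      simp only [Prod.mk.injEq, true_and] at this
      exact c2.ne this
  rw [len_swap x hab h4, h5]

lemma L3_hex {a b c α β γ : ℕ} (h1 : a < c) (h2 : c < b) (h3 : α < γ) (h4 : γ < β) (i j : ℕ) :
    L3 a b c γ α β i j ≤ L3 a b c γ β α i j ∧ L3 a b c β γ α i j ≤ L3 a b c γ β α i j ∧
    L3 a b c γ α β i j ≤ L3 a b c α γ β i j ∧ L3 a b c β γ α i j ≤ L3 a b c α γ β i j ∧
    L3 a b c β α γ i j ≤ L3 a b c γ α β i j ∧ L3 a b c β α γ i j ≤ L3 a b c β γ α i j ∧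
    L3 a b c α β γ i j ≤ max (L3 a b c γ β α i j) (L3 a b c α γ β i j) ∧
    min (L3 a b c γ α β i j) (L3 a b c β γ α i j) ≤ L3 a b c β α γ i j := by
  unfold L3
  by_cases e1 : a ≤ i <;> by_cases e2 : b ≤ i <;> by_cases e3 : c ≤ i <;>
    by_cases e4 : α ≤ j <;> by_cases e5 : β ≤ j <;> by_cases e6 : γ ≤ j <;>
    first | (exfalso; omega) | simp [e1, e2, e3, e4, e5, e6]

lemma counts_of_boolean {u v : Perm (Fin n)} (huv : rle u v) (h : IsBooleanInterval u v) :
    len u + (outE u v).card = len v ∧ len u + (coat u v).card = len v := by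
  classical
  obtain ⟨k, φ, hφ⟩ := h
  have hφ' : ∀ x y, rle x.1 y.1 ↔ φ x ⊆ φ y := fun x y => bruhatLE_iff.symm.trans (hφ x y)
  let mk : ∀ x : Perm (Fin n), rle u x → rle x v →
      {x : Perm (Fin n) // BruhatLE u x ∧ BruhatLE x v} :=
    fun x h1 h2 => ⟨x, h1.bruhatLE, h2.bruhatLE⟩
  have hlo : ∀ S, rle u (φ.symm S).1 := fun S => (φ.symm S).2.1.rle
  have hhi : ∀ S, rle (φ.symm S).1 v := fun S => (φ.symm S).2.2.rle
  have hsy : ∀ S T, rle (φ.symm S).1 (φ.symm T).1 ↔ S ⊆ T := by
    intro S T; rw [hφ']; simp
  have hlen : ∀ S : Finset (Fin k), len (φ.symm S).1 = len u + S.card := by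
    intro S
    induction S using Finset.induction_on with
    | empty =>
      have h1 : rle (φ.symm ∅).1 (mk u (rle_refl u) huv).1 := by
        rw [hφ']; simp
      have h2 : (φ.symm ∅).1 = u := h1.antisymm (hlo ∅)
      rw [h2]; simp
    | insert i T hi ih =>
      rw [card_insert_of_notMem hi, ← add_assoc, ← ih]
      apply len_cover ((hsy _ _).mpr (subset_insert i T))
      · intro he
        have h1 := φ.symm.injective (Subtype.ext he)
        exact hi (h1 ▸ mem_insert_self i T)
      · intro z h1 h2
        set z' := mk z (rle_trans (hlo _) h1) (rle_trans h2 (hhi _)) with hz'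
        have h3 : T ⊆ φ z' := by
          have := (hφ' (φ.symm T) z').mp h1
          simpa using this
        have h4 : φ z' ⊆ insert i T := by
          have := (hφ' z' (φ.symm (insert i T))).mp h2
          simpa using this
        have h5 : φ z' = T ∨ φ z' = insert i T := by
          by_cases h6 : i ∈ φ z'
          · right
            exact subset_antisymm h4 (insert_subset h6 h3)
          · left
            exact subset_antisymm ((subset_insert_iff_of_notMem h6).mp h4) h3
        rcases h5 with h5 | h5
        · left; rw [← h5]; simp [hz', mk]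
        · right; rw [← h5]; simp [hz', mk]
  have hlen' : ∀ x h1 h2, len x = len u + (φ (mk x h1 h2)).card := by
    intro x h1 h2
    have := hlen (φ (mk x h1 h2))
    simpa [mk] using this
  have hv : len v = len u + k := by
    have h1 : rle (φ.symm univ).1 v := hhi _
    have h2 : rle (mk v huv (rle_refl v)).1 (φ.symm univ).1 := by
      rw [hφ']; simp
    have h3 := hlen univ
    rw [h1.antisymm h2] at h3
    simpa using h3
  constructor
  · -- no long edges
    have hshort : ∀ z ∈ outE u v, len z = len u + 1 := by
      intro z hz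
      obtain ⟨h1, h2⟩ := mem_outE.mp hz
      obtain ⟨a, b, hab, h3, rfl⟩ := step_iff.mp h1
      rw [len_swap u hab h3]
      by_contra hcon
      have h4 : ∃ c : Fin n, a < c ∧ c < b ∧ u a < u c ∧ u c < u b := by
        by_contra h5
        have : inside u a b = 0 := inside_eq_zero.mpr fun c hc => h5 ⟨c, hc⟩
        omega
      obtain ⟨c, ⟨c1, c2, c3, c4⟩, hmin⟩ :=
        (measure (fun c : Fin n => (u c : ℕ))).wf.has_min
          {c : Fin n | a < c ∧ c < b ∧ u a < u c ∧ u c < u b} h4
      have hmin' : ∀ p : Fin n, a < p → p < b → u a < u p → ¬ u p < u c :=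
        fun p p1 p2 p3 p4 => hmin p ⟨p1, p2, p3, p4.trans c4⟩ p4
      have hne := hab.ne
      have hca := c1.ne'
      have hcb := c2.ne
      have hac := c1.ne
      have hbc := c2.ne'
      have hba := hab.ne'
      have k0 := rk_split3 u u hne hca hcb (fun p _ _ _ => rfl)
      have k1 := rk_split3 u (u * swap a c) hne hca hcb
        (fun p h1 _ h3 => by simp [swap_apply_of_ne_of_ne h1 h3])
      have k2 := rk_split3 u (u * swap c b) hne hca hcb
        (fun p _ h2 h3 => by simp [swap_apply_of_ne_of_ne h3 h2])
      have k3 := rk_split3 u (u * swap c b * swap a b) hne hca hcb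
        (fun p h1 h2 h3 => by simp [swap_apply_of_ne_of_ne h1 h2, swap_apply_of_ne_of_ne h3 h2])
      have k4 := rk_split3 u (u * swap a c * swap a b) hne hca hcb
        (fun p h1 h2 h3 => by simp [swap_apply_of_ne_of_ne h1 h2, swap_apply_of_ne_of_ne h1 h3])
      have k5 := rk_split3 u (u * swap a b) hne hca hcb
        (fun p h1 h2 _ => by simp [swap_apply_of_ne_of_ne h1 h2])
      simp only [Perm.mul_apply, swap_apply_left, swap_apply_right, swap_apply_of_ne_of_ne hca hcb,
        swap_apply_of_ne_of_ne hba hbc, swap_apply_of_ne_of_ne hac hne] at k1 k2 k3 k4 k5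
      have hx := L3_hex (Fin.lt_def.mp c1) (Fin.lt_def.mp c2) (Fin.lt_def.mp c3)
        (Fin.lt_def.mp c4)
      have r11 : rle (u * swap a c) (u * swap c b * swap a b) := fun i j => by
        have := hx i j; have := k1 i j; have := k3 i j; omega
      have r12 : rle (u * swap a c) (u * swap a c * swap a b) := fun i j => by
        have := hx i j; have := k1 i j; have := k4 i j; omega
      have r21 : rle (u * swap c b) (u * swap c b * swap a b) := fun i j => by
        have := hx i j; have := k2 i j; have := k3 i j; omega
      have r22 : rle (u * swap c b) (u * swap a c * swap a b) := fun i j => by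
        have := hx i j; have := k2 i j; have := k4 i j; omega
      have r1w : rle (u * swap c b * swap a b) (u * swap a b) := fun i j => by
        have := hx i j; have := k3 i j; have := k5 i j; omega
      have r2w : rle (u * swap a c * swap a b) (u * swap a b) := fun i j => by
        have := hx i j; have := k4 i j; have := k5 i j; omega
      have ru1 := rle_swap u c1 c3
      have ru2 := rle_swap u c2 c4
      -- lengths
      have l1 : len (u * swap a c) = len u + 1 := by
        rw [len_swap u c1 c3, inside_eq_zero.mpr]
        rintro p ⟨p1, p2, p3, p4⟩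
        exact hmin' p p1 (p2.trans c2) p3 p4
      have l2 : len (u * swap c b * swap a b) = len (u * swap c b) + 1 := by
        rw [len_swap (u * swap c b) hab (by simpa [swap_apply_of_ne_of_ne hac hne] using c3),
          inside_eq_zero.mpr]
        rintro p ⟨p1, p2, p3, p4⟩
        by_cases hpc : p = c
        · subst hpc
          simp only [Perm.mul_apply, swap_apply_left, swap_apply_right] at p4
          exact absurd p4 (not_lt.mpr c4.le)
        · simp only [Perm.mul_apply, swap_apply_right, swap_apply_of_ne_of_ne hac hne,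
            swap_apply_of_ne_of_ne hpc p2.ne] at p3 p4
          exact hmin' p p1 p2 p3 p4
      have l3 : len (u * swap a b) = len (u * swap a c * swap a b) + 1 := by
        have e : u * swap a b = u * swap a c * swap a b * swap c b := by
          ext p
          by_cases p1 : p = a
          · subst p1
            simp [swap_apply_of_ne_of_ne hac hne, swap_apply_of_ne_of_ne hba hbc]
          by_cases p2 : p = b
          · subst p2
            simp [swap_apply_of_ne_of_ne hca hcb]
          by_cases p3 : p = c
          · subst p3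
            simp [swap_apply_of_ne_of_ne hca hcb]
          simp [swap_apply_of_ne_of_ne p1 p2, swap_apply_of_ne_of_ne p1 p3,
            swap_apply_of_ne_of_ne p3 p2]
        rw [e, len_swap (u * swap a c * swap a b) c2
          (by simpa [swap_apply_of_ne_of_ne hca hcb] using c3), inside_eq_zero.mpr]
        rintro p ⟨p1, p2, p3, p4⟩
        have p0 : a < p := c1.trans p1
        simp only [Perm.mul_apply, swap_apply_left, swap_apply_right,
          swap_apply_of_ne_of_ne hca hcb, swap_apply_of_ne_of_ne p0.ne' p2.ne,
          swap_apply_of_ne_of_ne p0.ne' p1.ne'] at p3 p4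
        exact hmin' p p0 p2 p3 p4
      have ry1 := rle_trans r1w h2
      have ry2 := rle_trans r2w h2
      set s1 := mk _ ru1 (rle_trans r11 ry1) with hs1
      set s2 := mk _ ru2 (rle_trans r21 ry1) with hs2
      set y1 := mk _ (rle_trans ru1 r11) ry1 with hy1
      set y2 := mk _ (rle_trans ru1 r12) ry2 with hy2
      set w := mk _ h1.rle h2 with hw
      have n1 := hlen' _ ru1 (rle_trans r11 ry1)
      have n2 := hlen' _ ru2 (rle_trans r21 ry1)
      have n3 := hlen' _ (rle_trans ru1 r11) ry1
      have n4 := hlen' _ (rle_trans ru1 r12) ry2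
      have n5 := hlen' _ h1.rle h2
      rw [← hs1] at n1
      rw [← hs2] at n2
      rw [← hy1] at n3
      rw [← hy2] at n4
      rw [← hw] at n5
      have m1 : (φ s1 ∩ φ s2).card = 0 := by
        have q1 : rle (φ.symm (φ s1 ∩ φ s2)).1 s1.1 := by rw [hφ']; simp
        have q2 : rle (φ.symm (φ s1 ∩ φ s2)).1 s2.1 := by rw [hφ']; simp
        have q3 : rle (φ.symm (φ s1 ∩ φ s2)).1 u := fun i j => by
          have := q1 i j; have := q2 i j
          have := hx i j; have := k0 i j; have := k1 i j; have := k2 i j
          simp only [hs1, hs2, mk] at *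
          omega
        have := q3.len_le
        have := hlen (φ s1 ∩ φ s2)
        omega
      have m2 : (φ w).card ≤ (φ y1 ∪ φ y2).card := by
        have q1 : rle y1.1 (φ.symm (φ y1 ∪ φ y2)).1 := by rw [hφ']; simp
        have q2 : rle y2.1 (φ.symm (φ y1 ∪ φ y2)).1 := by rw [hφ']; simp
        have q3 : rle w.1 (φ.symm (φ y1 ∪ φ y2)).1 := fun i j => by
          have := q1 i j; have := q2 i j
          have := hx i j; have := k3 i j; have := k4 i j; have := k5 i j
          simp only [hy1, hy2, hw, mk] at *
          omega
        rw [hφ'] at q3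
        simp only [apply_symm_apply] at q3
        exact card_le_card q3
      have m3 : (φ s1 ∪ φ s2).card ≤ (φ y1 ∩ φ y2).card := by
        apply card_le_card
        refine union_subset (subset_inter ?_ ?_) (subset_inter ?_ ?_)
        · exact (hφ' s1 y1).mp r11
        · exact (hφ' s1 y2).mp r12
        · exact (hφ' s2 y1).mp r21
        · exact (hφ' s2 y2).mp r22
      have m4 := card_union_add_card_inter (φ s1) (φ s2)
      have m5 := card_union_add_card_inter (φ y1) (φ y2)
      omega
    have hcard : (outE u v).card = k := by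
      symm
      rw [← Fintype.card_fin k, ← card_univ]
      refine Finset.card_bij (fun i _ => (φ.symm {i}).1) ?_ ?_ ?_
      · intro i _
        have h1 := hlen {i}
        rw [card_singleton] at h1
        obtain ⟨z, h2, h3⟩ := exists_step_rle (hlo {i}) (by intro h; rw [← h] at h1; omega)
        have h4 := h2.len_lt
        have h5 : z = (φ.symm {i}).1 := h3.eq_of_len_le (by omega)
        exact mem_outE.mpr ⟨h5 ▸ h2, hhi _⟩
      · intro i _ j _ h
        have := φ.symm.injective (Subtype.ext h)
        simpa using this
      · intro z hz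
        have h1 := hshort z hz
        obtain ⟨h2, h3⟩ := mem_outE.mp hz
        have h4 := hlen' z h2.rle h3
        obtain ⟨i, hi⟩ := Finset.card_eq_one.mp (show (φ (mk z h2.rle h3)).card = 1 by omega)
        exact ⟨i, mem_univ _, by rw [← hi]; simp [mk]⟩
    omega
  · have hcard : (coat u v).card = k := by
      symm
      rw [← Fintype.card_fin k, ← card_univ]
      refine Finset.card_bij (fun i _ => (φ.symm {i}ᶜ).1) ?_ ?_ ?_
      · intro i _
        have h1 := hlen {i}ᶜ
        rw [card_compl, card_singleton, Fintype.card_fin] at h1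
        have := i.pos
        exact mem_coat.mpr ⟨hlo _, hhi _, by omega⟩
      · intro i _ j _ h
        have := φ.symm.injective (Subtype.ext h)
        simpa using this
      · intro y hy
        obtain ⟨h1, h2, h3⟩ := mem_coat.mp hy
        have h4 := hlen' y h1 h2
        have h5 : (φ (mk y h1 h2))ᶜ.card = 1 := by
          rw [card_compl, Fintype.card_fin]; omega
        obtain ⟨i, hi⟩ := Finset.card_eq_one.mp h5
        exact ⟨i, mem_univ _, by rw [← hi]; simp [mk]⟩
    omega

theorem boolean_iff (u v : Perm (Fin n)) :
    (BruhatLE u v ∧ IsBooleanInterval u v) ↔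
      ((∀ i j : Fin n, rk v i j ≤ rk u i j) ∧
        len u + (upPairs u v).card = len v ∧ len u + (downPairs u v).card = len v) := by
  constructor
  · rintro ⟨h1, h2⟩
    have h3 := counts_of_boolean h1.rle h2
    rw [card_outE h1.rle, card_coat h1.rle] at h3
    exact ⟨h1.rle, h3⟩
  · rintro ⟨h1, h2, h3⟩
    have h1' : rle u v := h1
    rw [← card_outE h1'] at h2
    rw [← card_coat h1'] at h3
    have := h1'.len_le
    exact ⟨h1'.bruhatLE, boolean_of_boolCo
      ((main_count v (len v - len u) u h1' h2 (by omega)).2 (by omega))⟩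

end Pool.Agent.Lib.MP_0fb7f5_co
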