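import Mathlib

/-!
Height functions whose mixed differences are carried by two point configurations.
-/

set_option autoImplicit false

namespace Pool.Agent.Lib.MP_0fb7f5_co.Pat

open Finset

variable {ι : Type} [Fintype ι]

/-- Number of points in a box. -/
def cnt (x y : ι → ℤ) (i₁ i₂ j₁ j₂ : ℤ) : ℤ :=
  ∑ a, if i₁ ≤ x a ∧ x a < i₂ ∧ j₁ ≤ y a ∧ y a < j₂ then 1 else 0

/-- The height is positive on a box of vertices. -/
def Rc (r : ℤ → ℤ → ℤ) (x₁ x₂ y₁ y₂ : ℤ) : Prop :=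
  ∀ i j, x₁ < i → i ≤ x₂ → y₁ < j → j ≤ y₂ → 0 < r i j

lemma Rc.mono {r : ℤ → ℤ → ℤ} {x₁ x₂ y₁ y₂ a₁ a₂ b₁ b₂ : ℤ} (h : Rc r x₁ x₂ y₁ y₂)
    (h1 : x₁ ≤ a₁) (h2 : a₂ ≤ x₂) (h3 : y₁ ≤ b₁) (h4 : b₂ ≤ y₂) : Rc r a₁ a₂ b₁ b₂ :=
  fun i j _ _ _ _ => h i j (by omega) (by omega) (by omega) (by omega)

/-- The standing assumptions. -/
structure OK (r : ℤ → ℤ → ℤ) (ux uy vx vy : ι → ℤ) (N : ℤ) : Prop where
  box : ∀ i₁ i₂ j₁ j₂, i₁ ≤ i₂ → j₁ ≤ j₂ →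
    r i₂ j₂ + r i₁ j₁ - r i₁ j₂ - r i₂ j₁ = cnt ux uy i₁ i₂ j₁ j₂ - cnt vx vy i₁ i₂ j₁ j₂
  nn : ∀ i j, 0 ≤ r i j
  zero : ∀ i j, (i ≤ -N ∨ j ≤ -N ∨ N ≤ i ∨ N ≤ j) → r i j = 0
  ru : ∀ a, -N ≤ ux a ∧ ux a < N ∧ -N ≤ uy a ∧ uy a < N
  rv : ∀ a, -N ≤ vx a ∧ vx a < N ∧ -N ≤ vy a ∧ vy a < N
  ix : Function.Injective ux
  iy : Function.Injective uy

lemma cnt_nonneg (x y : ι → ℤ) (i₁ i₂ j₁ j₂ : ℤ) : 0 ≤ cnt x y i₁ i₂ j₁ j₂ :=
  sum_nonneg fun _ _ => by split_ifs <;> norm_num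

lemma cnt_pos (x y : ι → ℤ) {i₁ i₂ j₁ j₂ : ℤ} (a : ι)
    (h : i₁ ≤ x a ∧ x a < i₂ ∧ j₁ ≤ y a ∧ y a < j₂) : 1 ≤ cnt x y i₁ i₂ j₁ j₂ := by
  have := single_le_sum (f := fun a => if i₁ ≤ x a ∧ x a < i₂ ∧ j₁ ≤ y a ∧ y a < j₂ then (1 : ℤ)
    else 0) (fun _ _ => by split_ifs <;> norm_num) (mem_univ a)
  simp only [if_pos h] at this
  exact this

lemma cnt_eq_card (x y : ι → ℤ) (i₁ i₂ j₁ j₂ : ℤ) : cnt x y i₁ i₂ j₁ j₂ =
    ((univ.filter fun a => i₁ ≤ x a ∧ x a < i₂ ∧ j₁ ≤ y a ∧ y a < j₂).card : ℤ) := by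
  rw [cnt, card_filter]; push_cast; rfl

lemma exists_of_cnt {x y : ι → ℤ} {i₁ i₂ j₁ j₂ : ℤ} (h : 1 ≤ cnt x y i₁ i₂ j₁ j₂) :
    ∃ a, i₁ ≤ x a ∧ x a < i₂ ∧ j₁ ≤ y a ∧ y a < j₂ := by
  rw [cnt_eq_card] at h
  obtain ⟨a, ha⟩ := card_pos.1 (show 0 < (univ.filter fun a =>
    i₁ ≤ x a ∧ x a < i₂ ∧ j₁ ≤ y a ∧ y a < j₂).card by omega)
  exact ⟨a, (mem_filter.1 ha).2⟩

lemma exists_two_of_cnt {x y : ι → ℤ} {i₁ i₂ j₁ j₂ : ℤ} (h : 2 ≤ cnt x y i₁ i₂ j₁ j₂) :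
    ∃ a b, a ≠ b ∧ (i₁ ≤ x a ∧ x a < i₂ ∧ j₁ ≤ y a ∧ y a < j₂) ∧
      (i₁ ≤ x b ∧ x b < i₂ ∧ j₁ ≤ y b ∧ y b < j₂) := by
  rw [cnt_eq_card] at h
  obtain ⟨a, ha, b, hb, hab⟩ := one_lt_card.1 (show 1 < (univ.filter fun a =>
    i₁ ≤ x a ∧ x a < i₂ ∧ j₁ ≤ y a ∧ y a < j₂).card by omega)
  exact ⟨a, b, hab, (mem_filter.1 ha).2, (mem_filter.1 hb).2⟩

open Classical in
/-- Number of points left of the column `t` that are visible from the vertex `(X, Y)`. -/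
noncomputable def vis (r : ℤ → ℤ → ℤ) (x y : ι → ℤ) (X Y t : ℤ) : ℤ :=
  ∑ a, if x a < t ∧ y a < Y ∧ Rc r (x a) X (y a) Y then 1 else 0

/-- Two points of the first family lie in a positive rectangle with top corner `(X, Y)`. -/
def Two (r : ℤ → ℤ → ℤ) (x y : ι → ℤ) (X Y : ℤ) : Prop :=
  ∃ a b x₀ y₀, a ≠ b ∧ (x₀ ≤ x a ∧ x a < X ∧ y₀ ≤ y a ∧ y a < Y) ∧
    (x₀ ≤ x b ∧ x b < X ∧ y₀ ≤ y b ∧ y b < Y) ∧ Rc r x₀ X y₀ Y

variable {r : ℤ → ℤ → ℤ} {ux uy vx vy : ι → ℤ} {N : ℤ}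

open Classical in
lemma vis_succ (x y : ι → ℤ) {X Y t g : ℤ} (hg : g ≤ Y) (h1 : Rc r t X g Y)
    (h2 : ∃ i, t < i ∧ i ≤ X ∧ r i g = 0) :
    vis r x y X Y (t + 1) = vis r x y X Y t + cnt x y t (t + 1) g Y := by
  rw [vis, vis, cnt, ← sum_add_distrib]
  refine sum_congr rfl fun a _ => ?_
  by_cases e : x a = t
  · have e1 : ¬ (x a < t ∧ y a < Y ∧ Rc r (x a) X (y a) Y) := fun h => by omega
    rw [if_neg e1, zero_add]
    refine if_congr ⟨fun ⟨_, p2, p3⟩ => ⟨by omega, by omega, ?_, p2⟩,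
      fun ⟨_, _, p3, p4⟩ => ⟨by omega, p4, h1.mono (by omega) le_rfl p3 le_rfl⟩⟩ rfl rfl
    by_contra hc
    obtain ⟨i, i1, i2, i3⟩ := h2
    have := p3 i g (by omega) i2 (by omega) hg
    omega
  · have e1 : ¬ (t ≤ x a ∧ x a < t + 1 ∧ g ≤ y a ∧ y a < Y) := fun h => by omega
    rw [if_neg e1, add_zero]
    exact if_congr ⟨fun ⟨p1, p2⟩ => ⟨by omega, p2⟩, fun ⟨p1, p2⟩ => ⟨by omega, p2⟩⟩ rfl rfl

/-- The count of visible points. -/
lemma OK.vis_ge (h : OK r ux uy vx vy N) {X Y : ℤ} (hX : -N ≤ X) :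
    vis r vx vy X Y X + r X Y ≤ vis r ux uy X Y X ∧
      (¬ Two r ux uy X Y → vis r ux uy X Y X = vis r vx vy X Y X + r X Y) := by
  have hex : ∀ t, t ≤ X → ∃ g, (g ≤ Y ∧ ∃ i, t ≤ i ∧ i ≤ X ∧ r i g = 0) ∧
      ∀ j, (j ≤ Y ∧ ∃ i, t ≤ i ∧ i ≤ X ∧ r i j = 0) → j ≤ g := fun t ht =>
    Int.exists_greatest_of_bdd ⟨Y, fun z hz => hz.1⟩
      ⟨min Y (-N), min_le_left _ _, X, ht, le_rfl, h.zero _ _ (by omega)⟩
  choose! g hg1 hg2 using hex
  have key : ∀ t, -N ≤ t → t ≤ X →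
      vis r vx vy X Y t + r t Y ≤ vis r ux uy X Y t + r t (g t) ∧
      (¬ Two r ux uy X Y → vis r ux uy X Y t + r t (g t) = vis r vx vy X Y t + r t Y) := by
    intro t ht
    induction t, ht using Int.leInduction with
    | base =>
      intro _
      have e1 : vis r ux uy X Y (-N) = 0 :=
        sum_eq_zero fun a _ => if_neg fun e => by have := h.ru a; omega
      have e2 : vis r vx vy X Y (-N) = 0 :=
        sum_eq_zero fun a _ => if_neg fun e => by have := h.rv a; omega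
      rw [e1, e2, h.zero _ _ (Or.inl le_rfl), h.zero _ _ (Or.inl le_rfl)]
      exact ⟨le_rfl, fun _ => rfl⟩
    | succ t ht ih =>
      intro ht'
      obtain ⟨ih1, ih2⟩ := ih (by omega)
      obtain ⟨p1, i, p2, p3, p4⟩ := hg1 (t + 1) ht'
      obtain ⟨q1, i', q2, q3, q4⟩ := hg1 t (by omega)
      have hR : Rc r t X (g (t + 1)) Y := fun a b a1 a2 b1 b2 => by
        have := h.nn a b
        by_contra hc
        have := hg2 (t + 1) ht' b ⟨b2, a, by omega, a2, by omega⟩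
        omega
      have hle : g (t + 1) ≤ g t := hg2 t (by omega) _ ⟨p1, i, by omega, p3, p4⟩
      have hb := h.box t (t + 1) (g (t + 1)) Y (by omega) p1
      rw [vis_succ ux uy p1 hR ⟨i, by omega, p3, p4⟩,
        vis_succ vx vy p1 hR ⟨i, by omega, p3, p4⟩]
      rcases hle.eq_or_lt with e | e
      · rw [← e] at ih1 ih2
        exact ⟨by omega, fun hn => by have := ih2 hn; omega⟩
      · have e1 : i' = t := by
          by_contra hc
          have := hR i' (g t) (by omega) q3 e q1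
          omega
        subst e1
        have := h.nn i' (g (i' + 1))
        refine ⟨by omega, fun hn => ?_⟩
        have := ih2 hn
        by_contra hc
        have hb' := h.box i' i (g (i' + 1)) (g i') (by omega) hle
        have := hR i (g i') (by omega) p3 e q1
        have := cnt_nonneg vx vy i' i (g (i' + 1)) (g i')
        obtain ⟨a, b, hab, ha, hb⟩ := exists_two_of_cnt (x := ux) (y := uy) (i₁ := i') (i₂ := i)
          (j₁ := g (i' + 1)) (j₂ := g i') (by omega)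
        exact hn ⟨a, b, i', g (i' + 1), hab, by omega, by omega, hR⟩
  obtain ⟨k1, k2⟩ := key X hX le_rfl
  obtain ⟨-, i, p2, p3, p4⟩ := hg1 X le_rfl
  obtain rfl : i = X := le_antisymm p3 p2
  rw [p4, add_zero] at k1 k2
  exact ⟨k1, k2⟩

/-- No decreasing pair in a positive rectangle. -/
def NoDec (r : ℤ → ℤ → ℤ) (x y : ι → ℤ) : Prop :=
  ∀ a b, x a < x b → y b < y a → ¬ Rc r (x a) (x b) (y b) (y a)

/-- No increasing triple in a positive rectangle. -/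
def NoTri (r : ℤ → ℤ → ℤ) (x y : ι → ℤ) : Prop :=
  ∀ a c b, x a < x c → x c < x b → y a < y c → y c < y b → ¬ Rc r (x a) (x b) (y a) (y b)

lemma OK.incr (h : OK r ux uy vx vy N) (hd : NoDec r ux uy) {a b : ι} {x₀ X y₀ Y : ℤ}
    (hab : a ≠ b) (ha : x₀ ≤ ux a ∧ ux a ≤ X ∧ y₀ ≤ uy a ∧ uy a ≤ Y)
    (hb : x₀ ≤ ux b ∧ ux b ≤ X ∧ y₀ ≤ uy b ∧ uy b ≤ Y) (hR : Rc r x₀ X y₀ Y) :
    (ux a < ux b ∧ uy a < uy b) ∨ (ux b < ux a ∧ uy b < uy a) := by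
  have h1 : ux a ≠ ux b := fun e => hab (h.ix e)
  have h2 : uy a ≠ uy b := fun e => hab (h.iy e)
  by_contra hc
  rcases lt_or_gt_of_ne h1 with e | e
  · exact hd a b e (by omega) (hR.mono ha.1 hb.2.1 hb.2.2.1 ha.2.2.2)
  · exact hd b a e (by omega) (hR.mono hb.1 ha.2.1 ha.2.2.1 hb.2.2.2)

lemma OK.not_two_u (h : OK r ux uy vx vy N) (hd : NoDec r ux uy) (ht : NoTri r ux uy) (p : ι) :
    ¬ Two r ux uy (ux p) (uy p) := by
  rintro ⟨a, b, x₀, y₀, hab, ha, hb, hR⟩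
  rcases h.incr hd hab (by omega) (by omega) hR with e | e
  · exact ht a b p e.1 hb.2.1 e.2 hb.2.2.2 (hR.mono ha.1 le_rfl ha.2.2.1 le_rfl)
  · exact ht b a p e.1 ha.2.1 e.2 ha.2.2.2 (hR.mono hb.1 le_rfl hb.2.2.1 le_rfl)

lemma OK.chain (h : OK r ux uy vx vy N) (hd : NoDec r ux uy) (ht : NoTri r ux uy) {p q g : ι}
    (h1 : ux p < ux q) (h2 : uy p < uy q) (h3 : ux q < vx g) (h4 : uy q < vy g)
    (hR : Rc r (ux p) (vx g) (uy p) (vy g)) : False := by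
  obtain ⟨X, ⟨X1, X2⟩, X3⟩ := Int.exists_greatest_of_bdd
    (P := fun x => vx g ≤ x ∧ Rc r (ux p) x (uy p) (vy g))
    ⟨N, fun z hz => by
      by_contra hc
      have := hz.2 z (vy g) (by omega) le_rfl (by omega) le_rfl
      have := h.zero z (vy g) (by omega)
      omega⟩ ⟨vx g, le_rfl, hR⟩
  obtain ⟨Y, ⟨Y1, Y2⟩, Y3⟩ := Int.exists_greatest_of_bdd
    (P := fun y => vy g ≤ y ∧ Rc r (ux p) X (uy p) y)
    ⟨N, fun z hz => by
      by_contra hc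
      have := hz.2 X z (by omega) le_rfl (by omega) le_rfl
      have := h.zero X z (by omega)
      omega⟩ ⟨vy g, le_rfl, X2⟩
  have e1 : ∃ j, uy p < j ∧ j ≤ vy g ∧ r (X + 1) j = 0 := by
    by_contra hc
    have := X3 (X + 1) ⟨by omega, fun i j i1 i2 j1 j2 => by
      rcases i2.eq_or_lt with rfl | e
      · have := h.nn (X + 1) j
        by_contra hc'
        exact hc ⟨j, j1, j2, by omega⟩
      · exact X2 i j i1 (by omega) j1 j2⟩
    omega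
  have e2 : ∃ i, ux p < i ∧ i ≤ X ∧ r i (Y + 1) = 0 := by
    by_contra hc
    have := Y3 (Y + 1) ⟨by omega, fun i j i1 i2 j1 j2 => by
      rcases j2.eq_or_lt with rfl | e
      · have := h.nn i (Y + 1)
        by_contra hc'
        exact hc ⟨i, i1, i2, by omega⟩
      · exact Y2 i j i1 i2 j1 (by omega)⟩
    omega
  obtain ⟨j, j1, j2, j3⟩ := e1
  obtain ⟨i, i1, i2, i3⟩ := e2
  have hb := h.box i (X + 1) j (Y + 1) (by omega) (by omega)
  have := h.nn (X + 1) (Y + 1)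
  have := Y2 i j i1 i2 j1 (by omega)
  have := cnt_nonneg vx vy i (X + 1) j (Y + 1)
  have uniq : ∀ m, (i ≤ ux m ∧ ux m < X + 1 ∧ j ≤ uy m ∧ uy m < Y + 1) → m = q := by
    intro m hm
    by_contra hc
    rcases h.incr hd hc (by omega) (by omega) Y2 with e | e
    · exact ht p m q (by omega) e.1 (by omega) e.2 (Y2.mono le_rfl (by omega) le_rfl (by omega))
    · exact ht p q m h1 e.1 h2 e.2 (Y2.mono le_rfl (by omega) le_rfl (by omega))
  obtain ⟨m, hm⟩ := exists_of_cnt (x := ux) (y := uy) (i₁ := i) (i₂ := X + 1) (j₁ := j)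
    (j₂ := Y + 1) (by omega)
  obtain rfl := uniq m hm
  have := cnt_pos vx vy (i₁ := i) (i₂ := X + 1) (j₁ := j) (j₂ := Y + 1) g (by omega)
  obtain ⟨a, b, hab, ha, hb⟩ := exists_two_of_cnt (x := ux) (y := uy) (i₁ := i) (i₂ := X + 1)
    (j₁ := j) (j₂ := Y + 1) (by omega)
  exact hab ((uniq a ha).trans (uniq b hb).symm)

lemma OK.not_two_v (h : OK r ux uy vx vy N) (hd : NoDec r ux uy) (ht : NoTri r ux uy) (g : ι) :
    ¬ Two r ux uy (vx g) (vy g) := by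
  rintro ⟨a, b, x₀, y₀, hab, ha, hb, hR⟩
  rcases h.incr hd hab (by omega) (by omega) hR with e | e
  · exact h.chain hd ht e.1 e.2 hb.2.1 hb.2.2.2 (hR.mono ha.1 le_rfl ha.2.2.1 le_rfl)
  · exact h.chain hd ht e.1 e.2 ha.2.1 ha.2.2.2 (hR.mono hb.1 le_rfl hb.2.2.1 le_rfl)

open Classical in
/-- Increasing pairs spanning a positive rectangle. -/
noncomputable def EE (r : ℤ → ℤ → ℤ) (x y x' y' : ι → ℤ) : ℤ :=
  ∑ b, ∑ a, if x a < x' b ∧ y a < y' b ∧ Rc r (x a) (x' b) (y a) (y' b) then 1 else 0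

/-- Increasing pairs. -/
def SS (x y x' y' : ι → ℤ) : ℤ := ∑ b, ∑ a, if x a < x' b ∧ y a < y' b then 1 else 0

lemma OK.sum_r (h : OK r ux uy vx vy N) (x y : ι → ℤ) (hx : ∀ a, -N ≤ x a ∧ -N ≤ y a) :
    ∑ b, r (x b) (y b) = SS ux uy x y - SS vx vy x y := by
  rw [SS, SS, ← sum_sub_distrib]
  refine sum_congr rfl fun b _ => ?_
  have hb := h.box (-N) (x b) (-N) (y b) (hx b).1 (hx b).2
  rw [h.zero (-N) _ (Or.inl le_rfl), h.zero (-N) _ (Or.inl le_rfl),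
    h.zero _ (-N) (Or.inr (Or.inl le_rfl))] at hb
  have e1 : cnt ux uy (-N) (x b) (-N) (y b) =
      ∑ a, if ux a < x b ∧ uy a < y b then (1 : ℤ) else 0 :=
    sum_congr rfl fun a _ => if_congr (by have := h.ru a; omega) rfl rfl
  have e2 : cnt vx vy (-N) (x b) (-N) (y b) =
      ∑ a, if vx a < x b ∧ vy a < y b then (1 : ℤ) else 0 :=
    sum_congr rfl fun a _ => if_congr (by have := h.rv a; omega) rfl rfl
  omega

lemma OK.EE_ge (h : OK r ux uy vx vy N) (x y : ι → ℤ) (hx : ∀ a, -N ≤ x a ∧ -N ≤ y a) :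
    EE r vx vy x y + (SS ux uy x y - SS vx vy x y) ≤ EE r ux uy x y ∧
      ((∀ b, ¬ Two r ux uy (x b) (y b)) →
        EE r ux uy x y = EE r vx vy x y + (SS ux uy x y - SS vx vy x y)) := by
  rw [← h.sum_r x y hx, EE, EE, ← sum_add_distrib]
  exact ⟨sum_le_sum fun b _ => (h.vis_ge (hx b).1).1,
    fun hn => sum_congr rfl fun b _ => (h.vis_ge (hx b).1).2 (hn b)⟩

/-- Rotation of the coordinates. -/
def ro (x : ι → ℤ) : ι → ℤ := fun a => -x a - 1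

/-- Rotation of the height function. -/
def rr (r : ℤ → ℤ → ℤ) : ℤ → ℤ → ℤ := fun i j => r (-i) (-j)

lemma Rc_rr (a b c d : ℤ) :
    Rc (rr r) (-b - 1) (-a - 1) (-d - 1) (-c - 1) ↔ Rc r a b c d := by
  refine ⟨fun h i j i1 i2 j1 j2 => ?_, fun h i j i1 i2 j1 j2 => ?_⟩
  · have := h (-i) (-j) (by omega) (by omega) (by omega) (by omega)
    simpa [rr] using this
  · exact h (-i) (-j) (by omega) (by omega) (by omega) (by omega)

lemma cnt_ro (x y : ι → ℤ) (i₁ i₂ j₁ j₂ : ℤ) :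
    cnt (ro x) (ro y) i₁ i₂ j₁ j₂ = cnt x y (-i₂) (-i₁) (-j₂) (-j₁) :=
  sum_congr rfl fun a _ => if_congr (by simp only [ro]; omega) rfl rfl

omit [Fintype ι] in
lemma ro_inj {x : ι → ℤ} (h : Function.Injective x) : Function.Injective (ro x) :=
  fun a b e => h (by simp only [ro] at e; omega)

lemma OK.rot (h : OK r ux uy vx vy N) : OK (rr r) (ro ux) (ro uy) (ro vx) (ro vy) N where
  box i₁ i₂ j₁ j₂ h1 h2 := by
    have := h.box (-i₂) (-i₁) (-j₂) (-j₁) (by omega) (by omega)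
    rw [cnt_ro, cnt_ro]
    simp only [rr]
    omega
  nn i j := h.nn _ _
  zero i j e := h.zero _ _ (by omega)
  ru a := by have := h.ru a; simp only [ro]; omega
  rv a := by have := h.rv a; simp only [ro]; omega
  ix := ro_inj h.ix
  iy := ro_inj h.iy

open Classical in
lemma EE_ro (x y x' y' : ι → ℤ) :
    EE (rr r) (ro x) (ro y) (ro x') (ro y') = EE r x' y' x y := by
  rw [EE, EE, sum_comm]
  refine sum_congr rfl fun a _ => sum_congr rfl fun b _ => if_congr ?_ rfl rfl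
  simp only [ro]
  rw [Rc_rr]
  exact and_congr (by omega) (and_congr (by omega) Iff.rfl)

lemma SS_ro (x y x' y' : ι → ℤ) : SS (ro x) (ro y) (ro x') (ro y') = SS x' y' x y := by
  rw [SS, SS, sum_comm]
  exact sum_congr rfl fun a _ => sum_congr rfl fun b _ =>
    if_congr (by simp only [ro]; omega) rfl rfl

omit [Fintype ι] in
lemma NoDec.rot {x y : ι → ℤ} (h : NoDec r x y) : NoDec (rr r) (ro x) (ro y) := by
  intro a b h1 h2
  simp only [ro] at h1 h2 ⊢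
  rw [Rc_rr]
  exact h b a (by omega) (by omega)

omit [Fintype ι] in
lemma NoTri.rot {x y : ι → ℤ} (h : NoTri r x y) : NoTri (rr r) (ro x) (ro y) := by
  intro a c b h1 h2 h3 h4
  simp only [ro] at h1 h2 h3 h4 ⊢
  rw [Rc_rr]
  exact h b c a (by omega) (by omega) (by omega) (by omega)

/-- The defect formula. -/
theorem OK.defect (h : OK r ux uy vx vy N) :
    SS ux uy ux uy - SS vx vy vx vy + EE r vx vy vx vy ≤ EE r ux uy ux uy ∧
      (NoDec r ux uy → NoTri r ux uy →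
        EE r ux uy ux uy = SS ux uy ux uy - SS vx vy vx vy + EE r vx vy vx vy) := by
  obtain ⟨a1, a2⟩ := h.EE_ge ux uy fun a => by have := h.ru a; omega
  obtain ⟨b1, b2⟩ := h.rot.EE_ge (ro vx) (ro vy) fun a => by have := h.rot.rv a; omega
  simp only [EE_ro, SS_ro] at b1 b2
  refine ⟨by omega, fun hd ht => ?_⟩
  have := a2 (h.not_two_u hd ht)
  have := b2 (h.rot.not_two_v hd.rot ht.rot)
  omega

end Pool.Agent.Lib.MP_0fb7f5_co.Pat
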