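import Pool.Agent.Lib.MP_0fb7f5_co.Defs

set_option autoImplicit false

namespace Pool.Agent.Lib.MP_0fb7f5_co

/-- The rank matrix of `v` is strictly below that of `u` on the whole rectangle
`[a, b) × [c, d)`. -/
def Region {n : ℕ} (u v : Equiv.Perm (Fin n)) (a b c d : Fin n) : Prop :=
  ∀ i j : Fin n, a ≤ i → i < b → c ≤ j → j < d → rk v i j < rk u i j

end Pool.Agent.Lib.MP_0fb7f5_co
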