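import Pool.Agent.Lib.MP_0fb7f5_co.Nec
import Pool.Agent.Lib.MP_0fb7f5_co.PatA
import Pool.Agent.Lib.MP_0fb7f5_co.PatDefs

/-!
The four pattern criterion for boolean intervals.
-/

set_option autoImplicit false

namespace Pool.Agent.Lib.MP_0fb7f5_co.Pat

open Finset Equiv

variable {n : ℕ}

/-- The rank function on integer vertices. -/
def RK (w : Perm (Fin n)) (i j : ℤ) : ℤ :=
  ∑ a : Fin n, if ((a : ℕ) : ℤ) < i ∧ ((w a : ℕ) : ℤ) < j then 1 else 0

/-- The height function of a pair. -/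
def hg (u v : Perm (Fin n)) (i j : ℤ) : ℤ := RK u i j - RK v i j

/-- Positions. -/
def px (n : ℕ) : Fin n → ℤ := fun a => ((a : ℕ) : ℤ)

/-- Values. -/
def py (w : Perm (Fin n)) : Fin n → ℤ := fun a => ((w a : ℕ) : ℤ)

lemma RK_rk (w : Perm (Fin n)) (i j : Fin n) :
    RK w (((i : ℕ) : ℤ) + 1) (((j : ℕ) : ℤ) + 1) = rk w i j := by
  rw [rk_eq_sum, RK]
  push_cast
  exact sum_congr rfl fun a _ => if_congr (by simp only [Fin.le_def]; omega) rfl rfl

lemma RK_box (w : Perm (Fin n)) {i₁ i₂ j₁ j₂ : ℤ} (h1 : i₁ ≤ i₂) (h2 : j₁ ≤ j₂) :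
    RK w i₂ j₂ + RK w i₁ j₁ - RK w i₁ j₂ - RK w i₂ j₁ = cnt (px n) (py w) i₁ i₂ j₁ j₂ := by
  rw [RK, RK, RK, RK, cnt, ← sum_add_distrib, ← sum_sub_distrib, ← sum_sub_distrib]
  refine sum_congr rfl fun a _ => ?_
  simp only [px, py]
  split_ifs <;> omega

/-- Number of values below `j`. -/
def col (n : ℕ) (j : ℤ) : ℤ := ∑ a : Fin n, if ((a : ℕ) : ℤ) < j then 1 else 0

lemma RK_rev (w : Perm (Fin n)) (i j : ℤ) :
    RK (w * Fin.revPerm) i j = col n j - RK w (n - i) j := by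
  rw [RK, RK, col, ← Equiv.sum_comp w fun a => if ((a : ℕ) : ℤ) < j then (1 : ℤ) else 0,
    ← sum_sub_distrib, ← Equiv.sum_comp Fin.revPerm]
  refine sum_congr rfl fun a _ => ?_
  have := a.2
  simp only [Perm.mul_apply, Fin.revPerm_apply, Fin.rev_rev, Fin.val_rev]
  split_ifs <;> omega

lemma hg_rev (u v : Perm (Fin n)) (i j : ℤ) :
    hg (v * Fin.revPerm) (u * Fin.revPerm) i j = hg u v (n - i) j := by
  rw [hg, hg, RK_rev, RK_rev]; ring

lemma hg_zero (u v : Perm (Fin n)) {i j : ℤ} (h : i ≤ 0 ∨ j ≤ 0 ∨ n ≤ i ∨ n ≤ j) :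
    hg u v i j = 0 := by
  rw [hg, sub_eq_zero]
  have e1 : ∀ w : Perm (Fin n), i ≤ 0 ∨ j ≤ 0 → RK w i j = 0 := fun w h =>
    sum_eq_zero fun a _ => if_neg (by omega)
  have e2 : ∀ w : Perm (Fin n), (n : ℤ) ≤ i → RK w i j = col n j := fun w h => by
    rw [RK, col, ← Equiv.sum_comp w fun a => if ((a : ℕ) : ℤ) < j then (1 : ℤ) else 0]
    exact sum_congr rfl fun a _ => if_congr (by have := a.2; omega) rfl rfl
  have e3 : ∀ w : Perm (Fin n), (n : ℤ) ≤ j → RK w i j = col n i := fun w h =>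
    sum_congr rfl fun a _ => if_congr (by have := (w a).2; omega) rfl rfl
  rcases h with h | h | h | h
  · rw [e1 u (Or.inl h), e1 v (Or.inl h)]
  · rw [e1 u (Or.inr h), e1 v (Or.inr h)]
  · rw [e2 u h, e2 v h]
  · rw [e3 u h, e3 v h]

lemma exists_fin {i : ℤ} (h1 : 0 < i) (h2 : i ≤ n) : ∃ a : Fin n, i = ((a : ℕ) : ℤ) + 1 :=
  ⟨⟨(i - 1).toNat, by omega⟩, by simp only; omega⟩

lemma rle_iff (u v : Perm (Fin n)) : rle u v ↔ ∀ i j, 0 ≤ hg u v i j := by
  refine ⟨fun h i j => ?_, fun h i j => ?_⟩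
  · by_cases e : i ≤ 0 ∨ j ≤ 0 ∨ n ≤ i ∨ n ≤ j
    · rw [hg_zero u v e]
    · obtain ⟨a, rfl⟩ := exists_fin (n := n) (i := i) (by omega) (by omega)
      obtain ⟨b, rfl⟩ := exists_fin (n := n) (i := j) (by omega) (by omega)
      have := h a b
      rw [hg, RK_rk, RK_rk]
      omega
  · have := h (((i : ℕ) : ℤ) + 1) (((j : ℕ) : ℤ) + 1)
    rw [hg, RK_rk, RK_rk] at this
    omega

lemma region_iff (u v : Perm (Fin n)) (a b c d : Fin n) : Region u v a b c d ↔
    Rc (hg u v) ((a : ℕ) : ℤ) ((b : ℕ) : ℤ) ((c : ℕ) : ℤ) ((d : ℕ) : ℤ) := by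
  refine ⟨fun h i j i1 i2 j1 j2 => ?_, fun h i j i1 i2 j1 j2 => ?_⟩
  · have := b.2
    have := d.2
    obtain ⟨x, rfl⟩ := exists_fin (n := n) (i := i) (by omega) (by omega)
    obtain ⟨y, rfl⟩ := exists_fin (n := n) (i := j) (by omega) (by omega)
    have := h x y (by rw [Fin.le_def]; omega) (by rw [Fin.lt_def]; omega)
      (by rw [Fin.le_def]; omega) (by rw [Fin.lt_def]; omega)
    rw [hg, RK_rk, RK_rk]
    omega
  · rw [Fin.le_def] at i1 j1
    rw [Fin.lt_def] at i2 j2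
    have := h (((i : ℕ) : ℤ) + 1) (((j : ℕ) : ℤ) + 1) (by omega) (by omega) (by omega) (by omega)
    rw [hg, RK_rk, RK_rk] at this
    omega

lemma rle_rev {u v : Perm (Fin n)} (h : rle u v) : rle (v * Fin.revPerm) (u * Fin.revPerm) := by
  rw [rle_iff] at h ⊢
  intro i j
  rw [hg_rev]
  exact h _ _

lemma rev_rev (w : Perm (Fin n)) : w * Fin.revPerm * Fin.revPerm = w := by
  ext a; simp

lemma region_rev (u v : Perm (Fin n)) (a b c d : Fin n) :
    Region (v * Fin.revPerm) (u * Fin.revPerm) a b c d ↔ Region u v b.rev a.rev c d := by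
  rw [region_iff, region_iff]
  have := a.2
  have := b.2
  refine ⟨fun h i j i1 i2 j1 j2 => ?_, fun h i j i1 i2 j1 j2 => ?_⟩
  · rw [Fin.val_rev] at i1 i2
    have := h (n - i) j (by omega) (by omega) j1 j2
    rw [hg_rev] at this
    simpa using this
  · rw [hg_rev]
    exact h _ j (by rw [Fin.val_rev]; omega) (by rw [Fin.val_rev]; omega) j1 j2

lemma ok {u v : Perm (Fin n)} (h : rle u v) :
    OK (hg u v) (px n) (py u) (px n) (py v) n where
  box i₁ i₂ j₁ j₂ h1 h2 := by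
    rw [← RK_box u h1 h2, ← RK_box v h1 h2]
    simp only [hg]
    ring
  nn := (rle_iff u v).1 h
  zero i j e := hg_zero u v (by omega)
  ru a := by have := a.2; have := (u a).2; simp only [px, py]; omega
  rv a := by have := a.2; have := (v a).2; simp only [px, py]; omega
  ix a b e := Fin.ext (by simp only [px] at e; omega)
  iy a b e := u.injective (Fin.ext (by simp only [py] at e; omega))

open Classical in
/-- Increasing pairs of `w` spanning a rectangle of the region. -/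
noncomputable def incP (u v w : Perm (Fin n)) : Finset (Fin n × Fin n) :=
  univ.filter fun p => p.1 < p.2 ∧ w p.1 < w p.2 ∧ Region u v p.1 p.2 (w p.1) (w p.2)

open Classical in
lemma EE_eq (u v w : Perm (Fin n)) :
    EE (hg u v) (px n) (py w) (px n) (py w) = (incP u v w).card := by
  rw [EE, incP, card_filter, Fintype.sum_prod_type, sum_comm]
  push_cast
  refine sum_congr rfl fun a _ => sum_congr rfl fun b _ => if_congr ?_ rfl rfl
  rw [region_iff]
  simp only [px, py, Fin.lt_def, Nat.cast_lt]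

lemma incP_self (u v : Perm (Fin n)) : incP u v u = upPairs u v := by
  ext p
  simp only [incP, upPairs, mem_filter, Region]

lemma SS_eq (w : Perm (Fin n)) : SS (px n) (py w) (px n) (py w) + len w =
    ∑ a : Fin n, ∑ b : Fin n, if a < b then (1 : ℤ) else 0 := by
  rw [SS, sum_comm, len_eq_sum]
  push_cast
  rw [← sum_add_distrib]
  refine sum_congr rfl fun a _ => ?_
  rw [← sum_add_distrib]
  refine sum_congr rfl fun b _ => ?_
  have : (a : ℕ) ≠ b → (w a : ℕ) ≠ w b := fun h e => h (congrArg Fin.val (w.injective (Fin.ext e)))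
  simp only [px, py, Fin.lt_def, Nat.cast_lt]
  split_ifs <;> omega

lemma SS_rev (w : Perm (Fin n)) : SS (px n) (py w) (px n) (py w) = len (w * Fin.revPerm) := by
  rw [SS, len_eq_sum, ← Equiv.sum_comp Fin.revPerm]
  push_cast
  refine sum_congr rfl fun a _ => ?_
  rw [← Equiv.sum_comp Fin.revPerm]
  refine sum_congr rfl fun b _ => if_congr ?_ rfl rfl
  have := a.2
  have := b.2
  simp only [px, py, Fin.lt_def, Nat.cast_lt, Function.comp_apply, Fin.revPerm_apply, Fin.val_rev]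
  omega

lemma len_rev (u v : Perm (Fin n)) :
    len (u * Fin.revPerm) + len u = len (v * Fin.revPerm) + len v := by
  have h1 := SS_eq u
  have h2 := SS_eq v
  rw [SS_rev] at h1 h2
  omega

/-- Pattern `21` of the lower permutation. -/
def U21 (u v : Perm (Fin n)) : Prop := ∃ a b, a < b ∧ u b < u a ∧ Region u v a b (u b) (u a)

/-- Pattern `123` of the lower permutation. -/
def U123 (u v : Perm (Fin n)) : Prop :=
  ∃ a c b, a < c ∧ c < b ∧ u a < u c ∧ u c < u b ∧ Region u v a b (u a) (u b)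

/-- Pattern `12` of the upper permutation. -/
def V12 (u v : Perm (Fin n)) : Prop := ∃ a b, a < b ∧ v a < v b ∧ Region u v a b (v a) (v b)

/-- Pattern `321` of the upper permutation. -/
def V321 (u v : Perm (Fin n)) : Prop :=
  ∃ a c b, a < c ∧ c < b ∧ v b < v c ∧ v c < v a ∧ Region u v a b (v b) (v a)

open Classical in
lemma incP_card (u v : Perm (Fin n)) : (incP u v v).card = 0 ↔ ¬ V12 u v := by
  rw [card_eq_zero, incP, filter_eq_empty_iff]
  exact ⟨fun h ⟨a, b, e⟩ => h (mem_univ (a, b)) e, fun h p _ e => h ⟨p.1, p.2, e⟩⟩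

lemma up_ge {u v : Perm (Fin n)} (h : rle u v) :
    len v + (incP u v v).card ≤ len u + (upPairs u v).card ∧
      (¬ U21 u v → ¬ U123 u v → len u + (upPairs u v).card = len v + (incP u v v).card) := by
  obtain ⟨h1, h2⟩ := (ok h).defect
  have e1 := SS_eq u
  have e2 := SS_eq v
  rw [EE_eq, EE_eq, incP_self] at h1 h2
  refine ⟨by omega, fun a1 a2 => ?_⟩
  have := h2 (fun a b p1 p2 p3 => a1 ⟨a, b, by simpa [px] using p1, by simpa [py] using p2,
    (region_iff u v _ _ _ _).2 p3⟩) fun a c b p1 p2 p3 p4 p5 => a2 ⟨a, c, b,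
      by simpa [px] using p1, by simpa [px] using p2, by simpa [py] using p3,
      by simpa [py] using p4, (region_iff u v _ _ _ _).2 p5⟩
  omega

lemma U21_rev (u v : Perm (Fin n)) : U21 (v * Fin.revPerm) (u * Fin.revPerm) ↔ V12 u v := by
  simp only [U21, V12, region_rev, Perm.mul_apply, Fin.revPerm_apply]
  exact ⟨fun ⟨a, b, h1, h2⟩ => ⟨b.rev, a.rev, Fin.rev_lt_rev.2 h1, h2⟩,
    fun ⟨a, b, h1, h2⟩ => ⟨b.rev, a.rev, Fin.rev_lt_rev.2 h1, by simpa using h2⟩⟩

lemma U123_rev (u v : Perm (Fin n)) : U123 (v * Fin.revPerm) (u * Fin.revPerm) ↔ V321 u v := by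
  simp only [U123, V321, region_rev, Perm.mul_apply, Fin.revPerm_apply]
  exact ⟨fun ⟨a, c, b, h1, h2, h3, h4, h5⟩ =>
      ⟨b.rev, c.rev, a.rev, Fin.rev_lt_rev.2 h2, Fin.rev_lt_rev.2 h1, h3, h4, h5⟩,
    fun ⟨a, c, b, h1, h2, h3, h4, h5⟩ => ⟨b.rev, c.rev, a.rev, Fin.rev_lt_rev.2 h2,
      Fin.rev_lt_rev.2 h1, by simpa using h3, by simpa using h4, by simpa using h5⟩⟩

lemma V12_rev (u v : Perm (Fin n)) : V12 (v * Fin.revPerm) (u * Fin.revPerm) ↔ U21 u v := by
  rw [← U21_rev, rev_rev, rev_rev]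

lemma V321_rev (u v : Perm (Fin n)) : V321 (v * Fin.revPerm) (u * Fin.revPerm) ↔ U123 u v := by
  rw [← U123_rev, rev_rev, rev_rev]

open Classical in
/-- All inversions of `v` spanning a rectangle of the region. -/
noncomputable def decP (u v : Perm (Fin n)) : Finset (Fin n × Fin n) :=
  univ.filter fun p => p.1 < p.2 ∧ v p.2 < v p.1 ∧ Region u v p.1 p.2 (v p.2) (v p.1)

lemma card_decP (u v : Perm (Fin n)) :
    (upPairs (v * Fin.revPerm) (u * Fin.revPerm)).card = (decP u v).card := by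
  rw [← incP_self]
  refine card_bij' (fun p _ => (p.2.rev, p.1.rev)) (fun p _ => (p.2.rev, p.1.rev)) ?_ ?_ ?_ ?_
  · intro p hp
    simp only [incP, decP, mem_filter, mem_univ, true_and, region_rev, Perm.mul_apply,
      Fin.revPerm_apply] at hp ⊢
    exact ⟨Fin.rev_lt_rev.2 hp.1, hp.2⟩
  · intro p hp
    simp only [incP, decP, mem_filter, mem_univ, true_and, region_rev, Perm.mul_apply,
      Fin.revPerm_apply, Fin.rev_rev] at hp ⊢
    exact ⟨Fin.rev_lt_rev.2 hp.1, hp.2⟩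
  · intro p _; simp
  · intro p _; simp

lemma down_sub (u v : Perm (Fin n)) : downPairs u v ⊆ decP u v := by
  intro p hp
  simp only [downPairs, decP, mem_filter, mem_univ, true_and] at hp ⊢
  exact ⟨hp.1, hp.2.1, hp.2.2.2⟩

lemma down_eq_iff (u v : Perm (Fin n)) : downPairs u v = decP u v ↔ ¬ V321 u v := by
  refine ⟨fun h ⟨a, c, b, h1, h2, h3, h4, h5⟩ => ?_, fun h => (down_sub u v).antisymm ?_⟩
  · have : (a, b) ∈ decP u v := by
      simp only [decP, mem_filter, mem_univ, true_and]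
      exact ⟨h1.trans h2, h3.trans h4, h5⟩
    rw [← h] at this
    simp only [downPairs, mem_filter, mem_univ, true_and] at this
    exact this.2.2.1 c h1 h2 ⟨h3, h4⟩
  · intro p hp
    simp only [downPairs, decP, mem_filter, mem_univ, true_and] at hp ⊢
    exact ⟨hp.1, hp.2.1, fun c c1 c2 c3 => h ⟨p.1, c, p.2, c1, c2, c3.1, c3.2, hp.2.2⟩, hp.2.2⟩

lemma bruhat_rev {x y : Perm (Fin n)} :
    BruhatLE (y * Fin.revPerm) (x * Fin.revPerm) ↔ BruhatLE x y := by
  rw [bruhatLE_iff, bruhatLE_iff]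
  refine ⟨fun h => ?_, rle_rev⟩
  have := rle_rev h
  rwa [rev_rev, rev_rev] at this

lemma boolean_rev {u v : Perm (Fin n)} (h : IsBooleanInterval u v) :
    IsBooleanInterval (v * Fin.revPerm) (u * Fin.revPerm) := by
  obtain ⟨k, φ, hφ⟩ := h
  let e : {x : Perm (Fin n) // BruhatLE (v * Fin.revPerm) x ∧ BruhatLE x (u * Fin.revPerm)} ≃
      {x : Perm (Fin n) // BruhatLE u x ∧ BruhatLE x v} :=
    { toFun := fun x => ⟨x.1 * Fin.revPerm, by
        rw [← bruhat_rev, rev_rev]; exact x.2.2, by rw [← bruhat_rev, rev_rev]; exact x.2.1⟩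
      invFun := fun x => ⟨x.1 * Fin.revPerm, bruhat_rev.2 x.2.2, bruhat_rev.2 x.2.1⟩
      left_inv := fun x => Subtype.ext (rev_rev _)
      right_inv := fun x => Subtype.ext (rev_rev _) }
  let c : Finset (Fin k) ≃ Finset (Fin k) := ⟨compl, compl, compl_compl, compl_compl⟩
  refine ⟨k, (e.trans φ).trans c, fun x y => ?_⟩
  show _ ↔ (φ (e x))ᶜ ⊆ (φ (e y))ᶜ
  rw [compl_subset_compl, ← hφ]
  exact bruhat_rev.symm

lemma nec {u v : Perm (Fin n)} (h : rle u v) (hb : IsBooleanInterval u v) :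
    ¬ V12 u v ∧ ¬ V321 u v := by
  obtain ⟨-, a1, a2⟩ := (boolean_iff u v).1 ⟨h.bruhatLE, hb⟩
  obtain ⟨-, b1, -⟩ := (boolean_iff _ _).1 ⟨(rle_rev h).bruhatLE, boolean_rev hb⟩
  have := (up_ge h).1
  have := len_rev u v
  rw [card_decP] at b1
  exact ⟨(incP_card u v).1 (by omega), (down_eq_iff u v).1
    (eq_of_subset_of_card_le (down_sub u v) (by omega))⟩

theorem pattern_iff (u v : Perm (Fin n)) :
    (BruhatLE u v ∧ IsBooleanInterval u v) ↔
      rle u v ∧ ¬ U21 u v ∧ ¬ U123 u v ∧ ¬ V12 u v ∧ ¬ V321 u v := by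
  refine ⟨fun ⟨h, hb⟩ => ?_, fun ⟨h, a1, a2, a3, a4⟩ => (boolean_iff u v).2 ⟨h, ?_, ?_⟩⟩
  · have h1 := nec h.rle hb
    have h2 := nec (rle_rev h.rle) (boolean_rev hb)
    rw [V12_rev, V321_rev] at h2
    exact ⟨h.rle, h2.1, h2.2, h1.1, h1.2⟩
  · have := (up_ge h).2 a1 a2
    have := (incP_card u v).2 a3
    omega
  · have h1 := (up_ge (rle_rev h)).2 (by rwa [U21_rev]) (by rwa [U123_rev])
    have h2 := (incP_card (v * Fin.revPerm) (u * Fin.revPerm)).2 (by rwa [V12_rev])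
    have := len_rev u v
    rw [card_decP] at h1
    rw [(down_eq_iff u v).2 a4]
    omega

end Pool.Agent.Lib.MP_0fb7f5_co.Pat
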